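import Pool.Agent.MP_3ce0a0_al.Q2T2.Spec
import Pool.Agent.MP_3ce0a0_al.Q2T3.B
import Pool.Agent.MP_3ce0a0_al.Q2T5.Spec

/-!
The simplicial lemma and the Dehn twist structure: definitions and the main statements.
-/

set_option autoImplicit false

namespace Pool.Agent.MP_3ce0a0_al.Q2T7

open Q2T1 Q2T2 Q2T5 Filter

noncomputable section

variable {G : Type} [Group G]

/-- The stabiliser of `x` in `U`. -/
def St (U : Subgroup G) {X : Type} [MulAction G X] (x : X) : Subgroup G :=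
  U ⊓ MulAction.stabilizer G x

theorem mem_St {U : Subgroup G} {X : Type} [MulAction G X] {x : X} {g : G} :
    g ∈ St U x ↔ g ∈ U ∧ g • x = x := Iff.rfl

/-- `b` lies in the coset of `a ^ N`. -/
def Lift (U : Subgroup G) (a : G) (N : ℕ) (b : G) : Prop := b * (a ^ N)⁻¹ ∈ U

/-- The conjugacy class of `g` is periodic under `a`. -/
def Per (U : Subgroup G) (a g : G) : Prop := ∃ N : ℕ, 0 < N ∧ ∃ b, Lift U a N b ∧ Commute b g

/-- `c` generates a maximal cyclic subgroup of `U`. -/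
def MaxC (U : Subgroup G) (c : G) : Prop :=
  c ∈ U ∧ c ≠ 1 ∧ ∀ g ∈ U, Commute g c → g ∈ Subgroup.zpowers c

/-- Every real character of a finite index subgroup of the quotient kills the powers of `a`. -/
def StarU (U : Subgroup G) (a : G) : Prop := ∀ H : Subgroup G, (H ⊔ U).FiniteIndex →
  ∀ f : H →* Multiplicative ℝ, (∀ h : H, (h : G) ∈ U → f h = 1) →
    ∀ (h : H) (M : ℕ), Lift U a M h → f h = 1

/-- The direction of `y` at `x` has a non-trivial stabiliser in `U`. -/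
def Thick (U : Subgroup G) {X : Type} [MetricSpace X] [MulAction G X] (x y : X) : Prop :=
  ∃ g ∈ U, g ≠ 1 ∧ g • x = x ∧ g • y ∈ dir x y

/-- The conclusions of the index count. -/
structure Idx (U : Subgroup G) (X : Type) [MetricSpace X] [MulAction G X] : Prop where
  i1 : ∃ R : Set X, R.Finite ∧ ∀ x, ∃ g ∈ U, g • x ∈ R
  i2 : ∀ x : X, ∃ D : Set X, D.Finite ∧ ∀ y, y ≠ x → ¬ Thick U x y →
    ∃ g ∈ U, g • x = x ∧ ∃ d ∈ D, g • y ∈ dir x d
  i4 : ∀ x : X, (St U x).FG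

/-- A power of `a` acts as a Dehn twist along all edges of `T`; a point is allowed. -/
structure Dehn (U : Subgroup G) (a : G) (T : Type) [MetricSpace T] [MulAction G T] : Prop where
  ne : Nonempty T
  co : Cocpt U T
  ninv : NoInv T U
  edge : ∀ x y : T, dist x y = 1 → ∃ c, MaxC U c ∧ St U x ⊓ St U y = Subgroup.zpowers c
  fg : ∀ x : T, (St U x).FG
  nab : ∀ x : T, ∃ g ∈ St U x, ∃ h ∈ St U x, ¬ Commute g h
  tw : ∃ N : ℕ, 0 < N ∧ ∃ al : T → G,
    (∀ v, Lift U a N (al v) ∧ al v • v = v ∧ ∀ u ∈ St U v, Commute (al v) u) ∧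
    ∀ v w : T, dist v w = 1 → al v • w = w ∧ al v ≠ al w
  per : ∀ g ∈ U, Per U a g → Ell T g

/-- `U` is free of rank `k`. -/
def FreeRk (U : Subgroup G) (k : ℕ) : Prop := Nonempty (U ≃* FreeGroup (Fin k))

/-- The Dehn twist structure of a central class with vanishing characters. -/
def PropD : Prop := ∀ (G : Type) [Group G] (U : Subgroup G) [U.Normal] (k : ℕ) (a : G),
  FreeRk U k → 2 ≤ k → (∀ b, a * b * a⁻¹ * b⁻¹ ∈ U) → StarU U a →
  ∃ (T : Type) (_ : MetricSpace T) (_ : IsSimp T) (_ : MulAction G T) (_ : IsIsometricSMul G T),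
    Dehn U a T

/-- The simplicial lemma: `G` preserves betweenness and `Z` acts by isometries. -/
def SimpL : Prop := ∀ (G : Type) [Group G] (U Z : Subgroup G) [U.Normal] (k : ℕ) (X : Type)
  [MetricSpace X] [MulAction G X], FreeRk U k → U ≤ Z →
  (∃ s : Set G, s.Finite ∧ Z = Subgroup.closure s ⊔ U) →
  (∀ z ∈ Z, ∀ x y : X, dist (z • x) (z • y) = dist x y) → VS U X → Idx U X →
  (∀ g ∈ U, ∀ H : Subgroup G, H ≤ Z → (H ⊔ U).relIndex Z ≠ 0 → (∀ z ∈ H, Commute z g) →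
    Ell X g) →
  ∃ (T : Type) (_ : MetricSpace T) (_ : IsSimp T) (_ : MulAction G T) (_ : IsIsometricSMul G T)
    (e : X ≃ T), (∀ (g : G) x, e (g • x) = g • e x) ∧
    (∀ x y z, Btw (e x) (e y) (e z) ↔ Btw x y z) ∧ VS U T ∧ Cocpt U T ∧ NoInv T U

/-- The index lemma. -/
def IndexL : Prop := ∀ (G : Type) [Group G] (U : Subgroup G) (k : ℕ) (X : Type) [MetricSpace X]
  [MulAction G X], FreeRk U k → 2 ≤ k → VS U X → Idx U X

/-- A power of `a` acts by isometries. -/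
def IsoL : Prop := ∀ (G : Type) [Group G] (U : Subgroup G) [U.Normal] (k : ℕ) (a : G) (X : Type)
  [MetricSpace X] [MulAction G X], FreeRk U k → 2 ≤ k → VS U X → StarU U a →
  ∃ N : ℕ, 0 < N ∧ ∀ x y : X, dist (a ^ N • x) (a ^ N • y) = dist x y

/-- The cyclic length. -/
def cyc {k : ℕ} (w : FreeGroup (Fin k)) : ℕ :=
  sInf {n | ∃ u : FreeGroup (Fin k), n = (u * w * u⁻¹).norm}

/-- The limit of the twisted Cayley trees. -/
def LimD : Prop := ∀ (G : Type) [Group G] (k : ℕ) (ι : FreeGroup (Fin k) →* G)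
  (cj : G →* MulAut (FreeGroup (Fin k))), Function.Injective ι →
  (∀ b w, ι (cj b w) = b * ι w * b⁻¹) → 2 ≤ k → ∀ (a : ℕ → G) (μ : ℕ → ℕ),
  (∀ j b, a j * b * (a j)⁻¹ * b⁻¹ ∈ ι.range) → (∀ j i, (cj (a j) (FreeGroup.of i)).norm ≤ μ j) →
  (∀ j u, ∃ i, μ j ≤ (u * cj (a j) (FreeGroup.of i) * u⁻¹).norm) → Tendsto μ atTop atTop →
  ∃ (X : Type) (_ : MetricSpace X) (_ : MulAction G X), VS ι.range X ∧
    ∃ ω : Ultrafilter ℕ, (ω : Filter ℕ) ≤ atTop ∧ ∀ w, Ell X (ι w) ↔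
      ∀ ε : ℝ, 0 < ε → ∀ᶠ j in (ω : Filter ℕ), (cyc (cj (a j) w) : ℝ) ≤ ε * μ j

/-- In an action on a forest the orbits of edges with infinite cyclic stabiliser are bounded by
the ranks of the vertex groups. -/
def X2F : Prop := ∀ (G : Type) [Group G] (U : Subgroup G) (k : ℕ) (X : Type) [MulAction G X]
  (Γ : SimpleGraph X) (R : Finset X) (A : Finset (X × X)), FreeRk U k → Γ.IsAcyclic →
  (∀ g ∈ U, ∀ x y, Γ.Adj x y → Γ.Adj (g • x) (g • y)) →
  (∀ g ∈ U, ∀ x y, Γ.Adj x y → g • x = y → g • y ≠ x) → (∀ x : X, ∃ g ∈ U, g • x ∈ R) →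
  (∀ x : X, (St U x).FG) →
  (∀ p ∈ A, Γ.Adj p.1 p.2 ∧ ∃ c : G, c ≠ 1 ∧ St U p.1 ⊓ St U p.2 = Subgroup.zpowers c) →
  (∀ p ∈ A, ∀ q ∈ A, ∀ g ∈ U, s(g • p.1, g • p.2) = s(q.1, q.2) → p = q) →
  A.card ≤ ∑ x ∈ R, Q2T3.rk (St U x)

end

end Pool.Agent.MP_3ce0a0_al.Q2T7
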