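import Pool.Agent.MP_3ce0a0_al.Q2T7.Spec

/-!
The simplicial lemma and the Dehn twist structure from the steps.
-/

set_option autoImplicit false

namespace Pool.Agent.MP_3ce0a0_al.Q2T7

open Q2T1 Q2T2 Q2T5

theorem thick_of_dir {G X : Type} [Group G] {U : Subgroup G} [MetricSpace X] [IsTree X]
    [MulAction G X] [BAct G X] {x y m : X} (h : m ∈ dir x y) (ht : Thick U x m) : Thick U x y := by
  obtain ⟨g, hg, h1, hx, hm⟩ := ht
  refine ⟨g, hg, h1, hx, ?_⟩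
  have h2 : g • y ∈ dir (g • x) (g • m) := (smul_mem_dir g).2 (mem_dir_comm.1 h)
  rw [hx, dir_eq_of_mem hm, dir_eq_of_mem h] at h2
  exact h2

theorem sNT (lT : LibT) (h1 : SARC) (h2 : SCLA) (h3 : SCLB) : SNT := by
  intro G _ U k X _ _ hC x y hy ht
  have := hC.vs.tree
  have := hC.vs.bact
  obtain ⟨Z, m, hA, hm⟩ := h1 G U k X hC x y hy ht
  obtain ⟨m', hne, hb, hp⟩ := h2 G U k X hC Z x m hA
  have hxy : Btw x m' y := hb.trans_left hm
  have hA' : Arc U Z x m' := ⟨hA.fi, hA.dis, hne, fun z hz =>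
    ⟨(hA.fix z hz).1, lT.seg z (hC.iso z) x m m' (hA.fix z hz).1 (hA.fix z hz).2 hb⟩⟩
  exact ⟨m', h3 G U k X hC Z x m' hA' (fun h => ht (thick_of_dir (hxy.mem_dir' hne) h)) hp, hxy⟩

theorem simpL_of (h0 : SNTF) (h1 : SNTW) (h2 : SARCS) (h3 : SFIXF) (h4 : SSEG) (h5 : SSLW) :
    SimpL := by
  intro G _ U Z _ k X _ _ hF hUZ hg hi hV hI hE
  have a0 := h0 G U X hV hI
  have a2 := h2 G U k X hF hV hI
  exact h5 G U k X hF hV hI
    (h4 G U X hV a0 (h1 G U Z k X hF hUZ hg hi hV a0 hE) a2 (h3 G U k X hF hV a2))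

theorem hasD_step (lA : LibA) (lT : LibT) (hPT : SPT) (hPRE : SPRE) (hQ : SQ) (hT1 : STR1)
    (hT2 : STR2) (hN : SNAB) (hC : SCX) (hI : SINV) (hO : SNOT) (hF : SFIN) (hE : SEND)
    (G : Type) [Group G] (U : Subgroup G) (k : ℕ) (a : G) (h0 : Hyp0 U k a)
    (ih : ∀ (G' : Type) [Group G'] (U' : Subgroup G') (k' : ℕ) (a' : G'), Hyp0 U' k' a' →
      (k' < k ∨ (k' = k ∧ dimI U' (Per U' a') < dimI U (Per U a))) → HasD U' a') :
    HasD U a := by
  by_cases hf : FinO U a ⊤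
  · exact hPT G U k a h0 hf
  obtain ⟨T, _, _, _, _, N, hP⟩ := hPRE G U k a h0 hf
  have := h0.nrm
  have nab := fun h => hN G U k T h0.free hP.vs h
  have good : ∀ v : T, Nab U v → Good U a (MulAction.stabilizer G v) := by
    intro v hv
    obtain ⟨p, q, r, ht⟩ := hP.vs.br v
    obtain ⟨w, -, -, -, hw, -, -⟩ := lT.nbr v p q r ht
    obtain ⟨b, hb, hbv, -⟩ := hP.triv v w hw
    obtain ⟨R, hR, hR'⟩ := hP.co.finV
    have hfi := lA.orb U T v R hR fun h => hR' (h • v)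
    obtain ⟨g1, g2⟩ := hT1 G U k a (MulAction.stabilizer G v) N ⟨b, hbv⟩ h0 hfi hP.pos hb
      (hP.fg v) hv
    refine hT2 G U a _ N ⟨b, hbv⟩ h0.nrm hP.pos hb (hQ _ _ _ _ g1 (ih _ _ _ _ g1 ?_))
    rcases hC G U k T h0.free h0.two hP.vs hP.co hP.ninv hP.fg nab v with h | ⟨e1, e2, e3⟩
    · exact Or.inl h
    · exact Or.inr ⟨e1, g2 ▸ hI G U k a T N h0 hP e2 v e3⟩
  have all := hO G U k a T N h0 hP good
  exact ⟨T, _, inferInstance, _, inferInstance, hE G U k a T N h0 hP all (nab all)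
    (hF G U k a T N h0 hP all fun v => good v (nab all v))⟩

theorem propD_of (lA : LibA) (lT : LibT) (hPT : SPT) (hPRE : SPRE) (hQ : SQ) (hT1 : STR1)
    (hT2 : STR2) (hN : SNAB) (hC : SCX) (hI : SINV) (hO : SNOT) (hF : SFIN) (hE : SEND) :
    PropD := by
  have key : ∀ k d : ℕ, ∀ (G : Type) [Group G] (U : Subgroup G) (a : G), Hyp0 U k a →
      dimI U (Per U a) = d → HasD U a := by
    intro k
    induction k using Nat.strong_induction_on with
    | _ k ihk =>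
      intro d
      induction d using Nat.strong_induction_on with
      | _ d ihd =>
        intro G _ U a h0 hd
        refine hasD_step lA lT hPT hPRE hQ hT1 hT2 hN hC hI hO hF hE G U k a h0 ?_
        intro G' _ U' k' a' h0' h
        rcases h with h | ⟨rfl, h⟩
        · exact ihk k' h _ G' U' a' h0' rfl
        · exact ihd _ (hd ▸ h) G' U' a' h0' rfl
  intro G _ U hU k a h1 h2 h3 h4
  exact key k _ G U a ⟨hU, h1, h2, h3, h4⟩ rfl

/-- The simplicial lemma from the rows. -/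
theorem simpL_rows (lA : LibA) (r0 : OfLibT) (r1 : OfNTF) (r2 : OfARC) (r3 : OfCLA) (r4 : OfCLB)
    (r5 : OfNTW) (r6 : OfARCS) (r7 : OfFIXF) (r8 : OfSEG) (r9 : OfSLW) (hn : SNbr) : SimpL :=
  have lT := r0 lA
  simpL_of r1 (r5 lA lT (sNT lT (r2 lA lT) (r3 lA lT) (r4 lA lT))) (r6 lA lT) (r7 lA lT)
    (r8 lA lT) (r9 lA lT hn)

/-- The Dehn twist structure from the rows. -/
theorem propD_rows (lA : LibA) (r0 : OfLibT) (r1 : OfPT) (r2 : OfSET) (r3 : OfUP) (r4 : OfLOW)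
    (r5 : OfPRE) (r6 : OfQ) (r7 : OfTR1) (r8 : OfTR2) (r9 : OfNAB) (r10 : OfCX) (r11 : OfINV)
    (r12 : OfSIDE) (r13 : OfWALK) (r14 : OfNOT) (r15 : OfFIN) (r16 : OfEND)
    (h1 : LimD) (h2 : IndexL) (h3 : IsoL) (h4 : SimpL) (h5 : SFI) : PropD :=
  have lT := r0 lA
  propD_of lA lT (r1 lA) (r5 lA lT h1 h2 h3 h4 h5 (r2 lA) (r3 lA) (r4 lA)) (r6 lA lT) (r7 lA)
    (r8 lA) (r9 lA lT) (r10 lA lT) (r11 lA lT) (r14 lA lT (r12 lA lT) (r13 lA lT)) (r15 lA lT)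
    (r16 lA lT)

end Pool.Agent.MP_3ce0a0_al.Q2T7
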