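import Pool.Agent.MP_3ce0a0_al.Q2T7.Spec

/-! Rows NTF and ARC: orbits of non-thick directions, and the arc fixed by a complement. -/

set_option autoImplicit false

namespace Pool.Agent.MP_3ce0a0_al.Q2T7

open Q2T1 Q2T2 Q2T5
open scoped Pointwise

namespace RARC

variable {G : Type} [Group G] {U : Subgroup G} {X : Type} [MetricSpace X] [MulAction G X]

theorem thick_of_smul [BAct G X] {x y : X} (h : G) (hU : ∀ u ∈ U, h⁻¹ * u * h ∈ U)
    (H : Thick U (h • x) (h • y)) : Thick U x y := by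
  obtain ⟨u, hu, h1, h2, h3⟩ := H
  refine ⟨h⁻¹ * u * h, hU u hu, fun e => h1 ?_, ?_, ?_⟩
  · have : u = h * (h⁻¹ * u * h) * h⁻¹ := by group
    rw [this, e, mul_one, mul_inv_cancel]
  · rw [mul_smul, mul_smul, h2, inv_smul_smul]
  · rwa [← smul_mem_dir h, mul_smul, mul_smul, smul_inv_smul]

/-- A complement of `U` up to finite index is finitely generated. -/
theorem fg_of [U.Normal] (gen : ∃ s : Set G, s.Finite ∧ Subgroup.closure s ⊔ U = ⊤)
    {Z : Subgroup G} (fi : (Z ⊔ U).FiniteIndex) (dis : ∀ z ∈ Z, z ∈ U → z = 1) : Z.FG := by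
  obtain ⟨s, hs, h⟩ := gen
  have hsur := QuotientGroup.mk'_surjective U
  have h1 : Group.FG (G ⧸ U) := by
    refine Group.fg_iff.2 ⟨QuotientGroup.mk' U '' s, ?_, hs.image _⟩
    rw [← MonoidHom.map_closure, ← Subgroup.map_top_of_surjective _ hsur, ← h, Subgroup.map_sup,
      QuotientGroup.map_mk'_self, sup_bot_eq]
  let φ : Z →* G ⧸ U := (QuotientGroup.mk' U).comp Z.subtype
  have hφ : Function.Injective φ := (injective_iff_map_eq_one φ).2 fun z hz =>
    Subtype.ext (dis z z.2 ((QuotientGroup.eq_one_iff _).1 hz))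
  have h2 : φ.range.FiniteIndex := by
    refine ⟨?_⟩
    rw [MonoidHom.range_comp, Subgroup.range_subtype, Subgroup.index_map, QuotientGroup.ker_mk',
      MonoidHom.range_eq_top.2 hsur, Subgroup.index_top, mul_one]
    exact fi.1
  exact (Group.fg_iff_subgroup_fg Z).1 (Group.fg_of_surjective
    (f := (MonoidHom.ofInjective hφ).symm.toMonoidHom) (MonoidHom.ofInjective hφ).symm.surjective)

end RARC

open RARC in
theorem ofNTF : OfNTF := by
  intro G _ U X _ _ hV hI
  have := hV.bact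
  obtain ⟨R, hR, h1⟩ := hI.i1
  choose D hD h2 using hI.i2
  refine ⟨⋃ r ∈ R, {r} ×ˢ D r, hR.biUnion fun r _ => (Set.finite_singleton r).prod (hD r),
    fun x y hne hT => ?_⟩
  obtain ⟨g, hg, hr⟩ := h1 x
  obtain ⟨g', hg', e, d, hd, h3⟩ := h2 (g • x) (g • y) (fun c => hne (smul_left_cancel g c))
    fun c => hT (thick_of_smul g (fun u hu => U.mul_mem (U.mul_mem (U.inv_mem hg) hu) hg) c)
  exact ⟨g' * g, U.mul_mem hg' hg, (g • x, d), Set.mem_biUnion hr ⟨rfl, hd⟩,
    by rw [mul_smul, e], by rwa [mul_smul]⟩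

open RARC in
theorem ofARC : OfARC := by
  intro lA lT G _ U k X _ _ hC x y hne hT
  have := hC.vs.bact
  have := hC.vs.tree
  have := hC.nrm
  let Z := MulAction.stabilizer G ((x, dir x y) : X × Set X)
  have hZ : ∀ z ∈ Z, z • x = x ∧ z • y ∈ dir x y := fun z hz => by
    have e : z • ((x, dir x y) : X × Set X) = (x, dir x y) := hz
    have e2 : z • dir x y = dir x y := congrArg Prod.snd e
    exact ⟨congrArg Prod.fst e, e2 ▸ Set.smul_mem_smul_set (self_mem_dir hne)⟩
  have fi : (Z ⊔ U).FiniteIndex := by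
    obtain ⟨D, hD, h⟩ := hC.nt
    refine lA.orb U (X × Set X) _ _ (hD.image fun d => (d.1, dir d.1 d.2)) fun g => ?_
    obtain ⟨u, hu, d, hd, e1, e2⟩ := h (g • x) (g • y) (fun c => hne (smul_left_cancel g c))
      fun c => hT (thick_of_smul g (fun u hu => hC.nrm.conj_mem' u hu g) c)
    refine ⟨u, hu, d, hd, Prod.ext e1.symm ?_⟩
    change dir d.1 d.2 = u • g • dir x y
    rw [smul_dir, smul_dir, e1, dir_eq_of_mem e2]
  have dis : ∀ z ∈ Z, z ∈ U → z = 1 := fun z hz hu => by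
    by_contra c
    exact hT ⟨z, hu, c, hZ z hz⟩
  obtain ⟨S, hS, hf⟩ := (Subgroup.fg_iff Z).1 (fg_of hC.gen fi dis)
  have key : ∀ T : Set G, T.Finite → (∀ z ∈ T, z ∈ Z) →
      ∃ m, m ≠ x ∧ Btw x m y ∧ ∀ z ∈ T, z • m = m := by
    intro T hTf
    induction T, hTf using Set.Finite.induction_on with
    | empty => exact fun _ => ⟨y, hne, btw_right _ _, fun _ h => h.elim⟩
    | @insert z T _ _ ih =>
      intro h
      obtain ⟨m, h1, h2, h3⟩ := ih fun w hw => h w (Or.inr hw)
      obtain ⟨e1, e2⟩ := hZ z (h z (Or.inl rfl))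
      have f1 := (lT.gate z (hC.iso z) y x e1).1
      have f2 : Btw x (med y (z • y) x) y := (med_btw13 _ _ _).symm
      have f3 : med y (z • y) x ≠ x := by
        rw [← med_rot]
        exact mem_dir_iff_med.1 e2
      rcases h2.total f2 with c | c
      · refine ⟨m, h1, h2, ?_⟩
        rintro w (rfl | hw)
        · exact lT.seg w (hC.iso w) x _ m e1 f1 c
        · exact h3 w hw
      · refine ⟨_, f3, f2, ?_⟩
        rintro w (rfl | hw)
        · exact f1
        · exact lT.seg w (hC.iso w) x m _ (hZ w (h w (Or.inr hw))).1 (h3 w hw) c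
  obtain ⟨m, h1, h2, h3⟩ := key S hf fun z hz => hS ▸ Subgroup.subset_closure hz
  refine ⟨Z, m, ⟨fi, dis, h1, fun z hz => ⟨(hZ z hz).1, ?_⟩⟩, h2⟩
  exact mem_Fix_closure.2 h3 z (hS ▸ hz)

end Pool.Agent.MP_3ce0a0_al.Q2T7
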