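import Pool.Agent.MP_3ce0a0_al.Q2T7.Spec
import Pool.Agent.MP_3ce0a0_al.Q2T3.E

/-!
Families of thick arcs without overlaps are bounded.
-/

set_option autoImplicit false

namespace Pool.Agent.MP_3ce0a0_al.Q2T7

open Q2T1 Q2T2 Q2T5

namespace RARCS

theorem acyclic {X : Type} [MetricSpace X] [IsTree X] (Γ : SimpleGraph X)
    (hA : ∀ x y z, Γ.Adj x y → Γ.Adj y z → x ≠ z → Btw x y z) : Γ.IsAcyclic := by
  have h1 : ∀ {y z : X} (p : Γ.Walk y z) (x : X) (h : Γ.Adj x y), (p.cons h).IsTrail →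
      Btw x y z := by
    intro y z p
    induction p with
    | nil => exact fun x _ _ => btw_right _ _
    | @cons y w z h' p ih =>
      intro x h ht
      refine (hA x y w h h' fun e => ?_).concat_left (ih y h' ht.of_cons) h'.ne
      subst e
      have := ht.edges_nodup
      simp [Sym2.eq_swap] at this
  intro v c hc
  cases c with
  | nil => exact hc.ne_nil rfl
  | cons h p => exact h.ne (h1 p v h hc.isTrail).eq_of_self.symm

variable {G : Type} [Group G] {U : Subgroup G} {k : ℕ} {X : Type} [MetricSpace X] [MulAction G X]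

/-- A translate of a thick arc that overlaps the arc is the arc. -/
theorem key (LA : LibA) (LT : LibT) (hU : FreeRk U k) (V : VS U X) {a b y w : X} {c t : G}
    (hc : MaxC U c) (he : St U a ⊓ St U b = Subgroup.zpowers c) (ht : t ∈ U) (hn : y ≠ w)
    (h1 : Btw (t • a) y (t • b)) (h2 : Btw (t • a) w (t • b)) (h3 : Btw a y b) (h4 : Btw a w b) :
    t • a = a ∧ t • b = b := by
  have := V.tree
  have hm : c ∈ St U a ⊓ St U b := he ▸ Subgroup.mem_zpowers c
  have hd : t * c * t⁻¹ ∈ U := mul_mem (mul_mem ht hc.1) (inv_mem ht)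
  have e1 : (t * c * t⁻¹) • t • a = t • a := by rw [mul_smul, inv_smul_smul, mul_smul, hm.1.2]
  have e2 : (t * c * t⁻¹) • t • b = t • b := by rw [mul_smul, inv_smul_smul, mul_smul, hm.2.2]
  have h5 := V.v1 c hc.1 _ hd y w hn (LT.seg c (V.isom c hc.1) _ _ _ hm.1.2 hm.2.2 h3)
    (LT.seg c (V.isom c hc.1) _ _ _ hm.1.2 hm.2.2 h4) (LT.seg _ (V.isom _ hd) _ _ _ e1 e2 h1)
    (LT.seg _ (V.isom _ hd) _ _ _ e1 e2 h2)
  have h6 : t ∈ St U a ⊓ St U b := he ▸ hc.2.2 t ht (LA.conj hU t ht c hc.1 hc.2.1 h5)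
  exact ⟨h6.1.2, h6.2.2⟩

/-- Translates of the oriented arcs. -/
def Ori (U : Subgroup G) (A : Finset (X × X)) (x y : X) : Prop :=
  ∃ p ∈ A, ∃ g ∈ U, x = g • p.1 ∧ y = g • p.2

omit [MetricSpace X] in
theorem Ori.smul {A : Finset (X × X)} {x y : X} {g : G} (h : Ori U A x y) (hg : g ∈ U) :
    Ori U A (g • x) (g • y) := by
  obtain ⟨p, hp, t, ht, rfl, rfl⟩ := h
  exact ⟨p, hp, g * t, mul_mem hg ht, (mul_smul _ _ _).symm, (mul_smul _ _ _).symm⟩

end RARCS

open RARCS in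
theorem ofARCS : OfARCS := by
  intro LA LT G _ U k X _ _ hU V I
  have := V.tree
  have := V.bact
  obtain ⟨R, hR, h1⟩ := I.i1
  refine ⟨∑ x ∈ hR.toFinset, Q2T3.rk (St U x), fun A hA hB => ?_⟩
  have hc : ∀ p ∈ A, ∃ c, MaxC U c ∧ St U p.1 ⊓ St U p.2 = Subgroup.zpowers c := fun p hp => by
    obtain ⟨h2, c, h3, h4, h5, h6⟩ := hA p hp
    exact LT.edge hU V _ _ h2 c h3 h4 h5 h6
  have ne : ∀ x y, Ori U A x y → x ≠ y := by
    rintro _ _ ⟨p, hp, g, -, rfl, rfl⟩ e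
    exact (hA p hp).1 (smul_left_cancel g e)
  have ov : ∀ x y x' y' u w, Ori U A x y → Ori U A x' y' → u ≠ w → Btw x u y → Btw x w y →
      Btw x' u y' → Btw x' w y' → x = x' ∧ y = y' := by
    rintro _ _ _ _ u w ⟨p, hp, g, hg, rfl, rfl⟩ ⟨q, hq, t, ht, rfl, rfl⟩ hn b1 b2 b3 b4
    have c1 := b1.smul t⁻¹
    have c2 := b2.smul t⁻¹
    have c3 := b3.smul t⁻¹
    have c4 := b4.smul t⁻¹
    rw [← mul_smul, ← mul_smul] at c1 c2
    rw [inv_smul_smul, inv_smul_smul] at c3 c4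
    have hm := mul_mem (inv_mem ht) hg
    have hn' : t⁻¹ • u ≠ t⁻¹ • w := fun e => hn (smul_left_cancel _ e)
    obtain rfl := hB p hp q hq _ hm _ _ hn' c1 c2 c3 c4
    obtain ⟨c, m1, m2⟩ := hc p hp
    have := key LA LT hU V m1 m2 hm hn' c1 c2 c3 c4
    rwa [mul_smul, mul_smul, inv_smul_eq_iff, inv_smul_eq_iff] at this
  let Γ : SimpleGraph X := ⟨fun x y => Ori U A x y ∨ Ori U A y x, ⟨fun _ _ => Or.symm⟩,
    ⟨fun x h => h.elim (fun h => ne x x h rfl) fun h => ne x x h rfl⟩⟩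
  refine Q2T3.x2F G U k X Γ hR.toFinset A hU (acyclic Γ fun x y z a b hn => ?_)
    (fun g hg x y h => h.imp (fun h => h.smul hg) fun h => h.smul hg) (fun g hg x y h e e' => ?_)
    (fun x => (h1 x).imp fun g h => ⟨h.1, hR.mem_toFinset.2 h.2⟩) I.i4 (fun p hp => ?_)
    fun p hp q hq g hg e => ?_
  · by_contra hb
    have hm : med x y z ≠ y := fun e => hb (med_eq_mid_iff.1 e)
    have m1 := med_btw12 x y z
    have m2 := med_btw23 x y z
    rcases a with a' | a' <;> rcases b with b' | b'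
    · exact ne _ _ a' (ov _ _ _ _ _ _ a' b' hm m1 (btw_right _ _) m2 (btw_left _ _)).1
    · exact hn (ov _ _ _ _ _ _ a' b' hm m1 (btw_right _ _) m2.symm (btw_right _ _)).1
    · exact hn (ov _ _ _ _ _ _ a' b' hm m1.symm (btw_left _ _) m2 (btw_left _ _)).2
    · exact ne _ _ a'
        (ov _ _ _ _ _ _ a' b' hm m1.symm (btw_left _ _) m2.symm (btw_right _ _)).2.symm
  · rcases h with h | h
    · have h' := h.smul hg
      rw [e, e'] at h'
      exact ne _ _ h (ov _ _ _ _ _ _ h h' (ne _ _ h) (btw_left _ _) (btw_right _ _)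
        (btw_right _ _) (btw_left _ _)).1
    · have h' := h.smul hg
      rw [e, e'] at h'
      exact ne _ _ h (ov _ _ _ _ _ _ h h' (ne _ _ h) (btw_left _ _) (btw_right _ _)
        (btw_right _ _) (btw_left _ _)).1
  · obtain ⟨c, m1, m2⟩ := hc p hp
    exact ⟨Or.inl ⟨p, hp, 1, one_mem _, (one_smul _ _).symm, (one_smul _ _).symm⟩, c, m1.2.1, m2⟩
  · refine hB p hp q hq g hg q.1 q.2 (hA q hq).1 ?_ ?_ (btw_left _ _) (btw_right _ _) <;>
      rcases Sym2.eq_iff.1 e with ⟨e1, e2⟩ | ⟨e1, e2⟩ <;> rw [e1, e2]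
    exacts [btw_left _ _, btw_right _ _, btw_right _ _, btw_left _ _]

end Pool.Agent.MP_3ce0a0_al.Q2T7
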