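import Pool.Agent.MP_3ce0a0_al.Q2T7.Spec

/-!
An arc fixed by a virtual complement contains finitely many points with a non-thick direction
towards its origin.
-/

set_option autoImplicit false

namespace Pool.Agent.MP_3ce0a0_al.Q2T7

open Q2T1 Q2T2 Q2T5

namespace RCLA

variable {G : Type} [Group G] {U Z : Subgroup G} {k : ℕ} {X : Type} [MetricSpace X]
  [MulAction G X] {x m p q : X} {g : G}

theorem inv_dir [BAct G X] (h1 : g • p = q) (h2 : g • x ∈ dir q x) : g⁻¹ • x ∈ dir p x := by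
  rw [← smul_mem_dir g, smul_inv_smul, h1, mem_dir_comm]
  exact h2

theorem ell (hT : LibT) (c : Core U k X) (a : Arc U Z x m) (hp : Btw x p m) (hq : Btw x q m)
    (hn : ¬Thick U q x) (hg : g ∈ U) (h1 : g • p = q) (h2 : g • x ∈ dir q x) : Ell X g := by
  have := c.vs.tree
  have := c.vs.bact
  refine c.ee g hg Z a.fi fun z hz => ?_
  have f : ∀ w ∈ Z, ∀ y, Btw x y m → w • y = y := fun w hw y hy =>
    hT.seg w (c.iso w) x m y (a.fix w hw).1 (a.fix w hw).2 hy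
  have f1 := f _ (inv_mem hz)
  have e : z * g * z⁻¹ * g⁻¹ = 1 := by
    by_contra h0
    refine hn ⟨_, mul_mem (c.nrm.conj_mem g hg z) (inv_mem hg), h0, ?_, ?_⟩
    · rw [mul_smul, mul_smul, mul_smul, inv_smul_eq_iff.2 h1.symm, f1 p hp, h1, f z hz q hq]
    · have h3 := (smul_mem_dir z⁻¹).2 (inv_dir h1 h2)
      rw [f1 p hp, f1 x (btw_left _ _), ← smul_mem_dir g, h1, dir_eq_of_mem h2,
        ← smul_mem_dir z, f z hz q hq, f z hz x (btw_left _ _)] at h3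
      rwa [mul_smul, mul_smul, mul_smul]
  exact commutatorElement_eq_one_iff_commute.1 e

theorem eq (hT : LibT) (c : Core U k X) (a : Arc U Z x m) (hp : Btw x p m) (hq : Btw x q m)
    (p0 : p ≠ x) (q0 : q ≠ x) (hn : ¬Thick U q x) (hg : g ∈ U) (h1 : g • p = q)
    (h2 : g • x ∈ dir q x) : p = q := by
  have := c.vs.tree
  have := c.vs.bact
  have he := ell hT c a hp hq hn hg h1 h2
  by_contra h0
  rcases hp.total hq with h | h
  · exact hT.shift g (c.iso g) x p p0.symm (h1 ▸ Ne.symm h0) (h1 ▸ h) (h1 ▸ h2) he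
  · have h3 : g⁻¹ • q = p := inv_smul_eq_iff.2 h1.symm
    exact hT.shift g⁻¹ (c.iso _) x q q0.symm (h3 ▸ h0) (h3 ▸ h) (h3 ▸ inv_dir h1 h2) he.inv

end RCLA

theorem ofCLA : OfCLA := by
  intro _ hT G _ U k X _ _ c Z x m a
  have := c.vs.tree
  have := c.vs.bact
  have : Nonempty X := ⟨x⟩
  obtain ⟨D, hD, h⟩ := c.nt
  have h1 : ∀ p ∈ {p | Btw x p m ∧ p ≠ x ∧ ¬Thick U p x}, ∃ d ∈ D, ∃ g ∈ U,
      g • p = d.1 ∧ g • x ∈ dir d.1 d.2 := fun p hp =>
    let ⟨g, h2, d, h3, h4⟩ := h p x hp.2.1.symm hp.2.2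
    ⟨d, h3, g, h2, h4⟩
  choose! d h2 g h3 h4 h5 using h1
  have hP : {p | Btw x p m ∧ p ≠ x ∧ ¬Thick U p x}.Finite := by
    refine Set.Finite.of_injOn (f := d) h2 (fun p hp q hq e => ?_) hD
    refine RCLA.eq hT c a hp.1 hq.1 hp.2.1 hq.2.1 hq.2.2
      (mul_mem (inv_mem (h3 q hq)) (h3 p hp)) ?_ ?_
    · rw [mul_smul, h4 p hp, e, ← h4 q hq, inv_smul_smul]
    · rw [← smul_mem_dir (g q), mul_smul, smul_inv_smul, h4 q hq, dir_eq_of_mem (h5 q hq), ← e]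
      exact h5 p hp
  rcases Set.eq_empty_or_nonempty {p | Btw x p m ∧ p ≠ x ∧ ¬Thick U p x} with h0 | h0
  · exact ⟨m, a.ne, btw_right _ _, fun p h6 h7 _ => by_contra fun h8 =>
      Set.eq_empty_iff_forall_notMem.1 h0 p ⟨h6, h7, h8⟩⟩
  · obtain ⟨q, hq, h6⟩ := Set.exists_min_image _ (fun p => dist x p) hP h0
    exact ⟨q, hq.2.1, hq.1, fun p h7 h8 h9 => by_contra fun h0 =>
      (h7.dist_lt_left h9).not_ge (h6 p ⟨h7.trans_left hq.1, h8, h0⟩)⟩

end Pool.Agent.MP_3ce0a0_al.Q2T7
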