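import Pool.Agent.MP_3ce0a0_al.Q2T7.Spec
import Pool.Agent.MP_3ce0a0_al.Q2T3.E

/-!
Row CX: the rank of a vertex group.
-/

set_option autoImplicit false

namespace Pool.Agent.MP_3ce0a0_al.Q2T7

open Q2T1 Q2T2 Q2T5

theorem ofCX : OfCX := by
  intro _ hT G _ U k T _ _ _ _ hU hk hV hc hN _ hnab v
  have := hV.ne
  have hE : Q2T3.CE U T := fun x y hxy g hg h hh =>
    hV.v1 g hg.1.1 h hh.1.1 x y (Q2T3.arcs_simp.ne x y hxy) hg.1.2 hg.2.2 hh.1.2 hh.2.2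
  by_cases hA : AllE U T
  · obtain ⟨h1, h2⟩ := Q2T3.a_drop2 hU hN hc hE (hnab hA) v
    rcases h1.lt_or_eq with h3 | h3
    · exact Or.inl h3
    · exact Or.inr ⟨h3, hA, h2.resolve_left h3.not_lt⟩
  · refine Or.inl (Q2T3.a_drop1 hU (by omega) hN hc hE (fun x _ => ?_) ?_ v)
    · obtain ⟨a, b, c, h⟩ := hV.br x
      obtain ⟨a', b', _, h1, h2, h3, _⟩ := hT.nbr x a b c h
      refine ⟨a', b', fun e => h1.1 ?_, h2, h3⟩
      have h4 := h1.2.2.2.1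
      rw [← e] at h4
      exact h4.eq_of_self.symm
    · by_contra hn
      refine hA fun x y hxy => ?_
      by_contra h1
      refine hn ⟨x, y, hxy, eq_bot_iff.2 fun g hg => Subgroup.mem_bot.2 ?_⟩
      by_contra h2
      exact h1 ⟨g, hg.1.1, h2, hg.1.2, hg.2.2⟩

end Pool.Agent.MP_3ce0a0_al.Q2T7
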