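import Pool.Agent.MP_3ce0a0_al.Q2T7.Spec

/-! Row END: finite order on all vertex groups gives the Dehn twist structure. -/

set_option autoImplicit false

namespace Pool.Agent.MP_3ce0a0_al.Q2T7

open Q2T1 Q2T2 Q2T5

namespace REND

variable {G : Type} [Group G] {U : Subgroup G} {a : G} {T : Type} [MulAction G T]

/-- A lift of `a ^ M` fixes `v` and centralises its group. -/
def PP (U : Subgroup G) (a : G) (v : T) (M : ℕ) : Prop :=
  ∃ b, Lift U a M b ∧ b • v = v ∧ ∀ u ∈ St U v, Commute b u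

theorem pow_fix {b : G} {v : T} (h : b • v = v) (m : ℕ) : b ^ m • v = v :=
  MulAction.mem_stabilizer_iff.1 (pow_mem (MulAction.mem_stabilizer_iff.2 h) m)

theorem PP.mul [U.Normal] (A : LibA) {v : T} {M : ℕ} (h : PP U a v M) (m : ℕ) :
    PP U a v (M * m) := by
  obtain ⟨b, h1, h2, h3⟩ := h
  exact ⟨b ^ m, A.lpow h1 m, pow_fix h2 m, fun u hu => (h3 u hu).pow_left m⟩

theorem PP.tr [hU : U.Normal] (A : LibA) {v : T} {M : ℕ} {g : G} (hg : g ∈ U)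
    (h : PP U a (g • v) M) : PP U a v M := by
  obtain ⟨b, h1, h2, h3⟩ := h
  refine ⟨g⁻¹ * b * g⁻¹⁻¹, A.lconj h1 (inv_mem hg), ?_, fun u hu => ?_⟩
  · rw [inv_inv, mul_smul, mul_smul, h2, inv_smul_smul]
  · have h4 := h3 (g * u * g⁻¹) (mem_St.2 ⟨hU.conj_mem u hu.1 g, by
      rw [mul_smul, mul_smul, inv_smul_smul, (mem_St.1 hu).2]⟩)
    have h5 := h4.map (MulAut.conj g⁻¹)
    rw [MulAut.conj_apply, MulAut.conj_apply] at h5
    have e : g⁻¹ * (g * u * g⁻¹) * g⁻¹⁻¹ = u := by group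
    rwa [e] at h5

theorem common [U.Normal] (A : LibA) (h : ∀ v : T, ∃ M, 0 < M ∧ PP U a v M) (R : Set T)
    (hR : R.Finite) : ∃ M, 0 < M ∧ ∀ v ∈ R, PP U a v M := by
  induction R, hR using Set.Finite.induction_on with
  | empty => exact ⟨1, one_pos, fun _ hv => hv.elim⟩
  | @insert x s _ _ ih =>
    obtain ⟨M, hM, h1⟩ := ih
    obtain ⟨M', hM', h2⟩ := h x
    refine ⟨M * M', mul_pos hM hM', ?_⟩
    rintro v (rfl | hv)
    · rw [mul_comm]
      exact h2.mul A M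
    · exact (h1 v hv).mul A M'

theorem comm_of_mem {c g : G} (h : g ∈ Subgroup.zpowers c) : Commute g c := by
  obtain ⟨j, rfl⟩ := Subgroup.mem_zpowers_iff.1 h
  exact (Commute.refl c).zpow_left j

theorem ex_nc {v : T} (h : Nab U v) {c : G} (hc : MaxC U c) : ∃ u ∈ St U v, ¬ Commute u c := by
  obtain ⟨g, hg, k, hk, hn⟩ := h
  by_contra hx
  have h1 : ∀ u ∈ St U v, u ∈ Subgroup.zpowers c := fun u hu => hc.2.2 u hu.1 <| by
    by_contra e
    exact hx ⟨u, hu, e⟩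
  obtain ⟨j, rfl⟩ := Subgroup.mem_zpowers_iff.1 (h1 k hk)
  exact hn ((comm_of_mem (h1 g hg)).zpow_right j)

end REND

open REND in
theorem ofEND : OfEND := by
  intro A L G _ U k a T _ _ _ _ N h0 hp hE hN hF
  have hU := h0.nrm
  have hedge : ∀ x y : T, dist x y = 1 →
      ∃ c, MaxC U c ∧ St U x ⊓ St U y = Subgroup.zpowers c := by
    intro x y hxy
    obtain ⟨g, hg, g1, g2, g3⟩ := hE x y hxy
    refine L.edge h0.free hp.vs x y (fun e => ?_) g hg g1 g2 g3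
    rw [e, dist_self] at hxy
    exact zero_ne_one hxy
  obtain ⟨R, hR, hRc⟩ := hp.co.finV
  obtain ⟨M, hM, hMR⟩ := common (U := U) (a := a) (T := T) A (fun v => by
    obtain ⟨M, hM, b, hb, h1, h2⟩ := hF v
    exact ⟨M, hM, b, h1, hb, h2⟩) R hR
  have hall : ∀ v : T, PP U a v (N * M) := fun v => by
    obtain ⟨g, hg, hv⟩ := hRc v
    rw [mul_comm]
    exact ((hMR _ hv).tr A hg).mul A N
  choose al h1 h2 h3 using hall
  refine ⟨hp.vs.ne, hp.co, hp.ninv, hedge, hp.fg, hN,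
    ⟨N * M, mul_pos hp.pos hM, al, fun v => ⟨h1 v, h2 v, h3 v⟩, fun v w hvw => ?_⟩, hp.per⟩
  obtain ⟨c, hc, hS⟩ := hedge v w hvw
  have hcS : c ∈ St U v ⊓ St U w := hS ▸ Subgroup.mem_zpowers c
  refine ⟨?_, fun e => ?_⟩
  · obtain ⟨b, b1, b2, b3⟩ := hp.triv v w hvw
    have c1 := A.lpow b1 M
    have c2 := pow_fix b2 M
    have c3 := pow_fix b3 M
    generalize b ^ M = d at c1 c2 c3
    have hs := A.ldiv (h1 v) c1
    have hfix : ∀ x : T, d • x = x → c • x = x → d⁻¹ * c * d ∈ St U x := fun x e1 e2 =>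
      mem_St.2 ⟨hU.conj_mem' c hc.1 d, by rw [mul_smul, mul_smul, e1, e2, inv_smul_eq_iff, e1]⟩
    have q1 := hfix v c2 (mem_St.1 hcS.1).2
    have q2 : d⁻¹ * c * d ∈ Subgroup.zpowers c := hS ▸ ⟨q1, hfix w c3 (mem_St.1 hcS.2).2⟩
    have q3 : al v * d⁻¹ * c * (al v * d⁻¹)⁻¹ = d⁻¹ * c * d := by
      have q := (h3 v _ q1).eq
      calc al v * d⁻¹ * c * (al v * d⁻¹)⁻¹ = al v * (d⁻¹ * c * d) * (al v)⁻¹ := by group
        _ = d⁻¹ * c * d := by rw [q, mul_inv_cancel_right]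
    have q4 := A.conj h0.free _ hs c hc.1 hc.2.1 (by rw [q3]; exact (comm_of_mem q2).symm)
    have q5 : al v * d⁻¹ ∈ St U v ⊓ St U w := hS ▸ hc.2.2 _ hs q4
    have q6 := (mem_St.1 q5.2).2
    rwa [mul_smul, inv_smul_eq_iff.2 c3.symm] at q6
  · obtain ⟨u, hu, nu⟩ := ex_nc (hN v) hc
    obtain ⟨u', hu', nu'⟩ := ex_nc (hN w) hc
    refine L.ne2 u u' v w hvw (mem_St.1 hu).2 (fun q => nu (comm_of_mem ?_)) (mem_St.1 hu').2
      (fun q => nu' (comm_of_mem ?_)) (hp.per _ (mul_mem hu.1 hu'.1)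
        ⟨N * M, mul_pos hp.pos hM, al v, h1 v, (h3 v u hu).mul_right (e ▸ h3 w u' hu')⟩)
    · exact hS ▸ ⟨hu, mem_St.2 ⟨hu.1, q⟩⟩
    · exact hS ▸ ⟨mem_St.2 ⟨hu'.1, q⟩, hu'⟩

end Pool.Agent.MP_3ce0a0_al.Q2T7
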