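import Pool.Agent.MP_3ce0a0_al.Q2T7.Spec

/-!
Fixed sets are finite.
-/

set_option autoImplicit false

namespace Pool.Agent.MP_3ce0a0_al.Q2T7

open Q2T1 Q2T2 Q2T5

namespace RFIXF

variable {X : Type} [MetricSpace X] [IsTree X]

theorem line {a b x : X} (hn : ∀ m, ¬ Tri m a x b) (h1 : dist x b ≤ dist a b)
    (h2 : dist a x ≤ dist a b) : Btw a x b := by
  have m1 := med_btw12 a x b
  have m2 := med_btw23 a x b
  have m3 := med_btw13 a x b
  by_cases e1 : a = med a x b
  · rw [← e1] at m2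
    have : x = a := by
      unfold Q2T1.Btw at m2
      exact dist_eq_zero.1 (le_antisymm (by linarith) dist_nonneg)
    rw [this]
    exact btw_left _ _
  by_cases e2 : x = med a x b
  · rwa [← e2] at m3
  by_cases e3 : b = med a x b
  · rw [← e3] at m1
    have : b = x := by
      unfold Q2T1.Btw at m1
      exact dist_eq_zero.1 (le_antisymm (by linarith) dist_nonneg)
    rw [this]
    exact btw_right _ _
  exact absurd ⟨e1, e2, e3, m1, m2, m3⟩ (hn _)

theorem sep {a x n x' n' y w : X} (h1 : Btw a x n) (h2 : Btw a x' n') (h3 : dist a n ≤ dist a x')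
    (y1 : Btw x y n) (w1 : Btw x w n) (y2 : Btw x' y n') (w2 : Btw x' w n') : y = w := by
  have a1 := h1.trans_right y1
  have a2 := h1.trans_right w1
  have a3 := a1.dist_le_left
  have a4 := a2.dist_le_left
  have a5 := (h2.trans_right' y2).dist_le_left
  have a6 := (h2.trans_right' w2).dist_le_left
  exact a1.eq_of_dist a2 (by linarith)

end RFIXF

theorem ofFIXF : OfFIXF := by
  classical
  intro LA LT G _ U k X _ _ hF hV ⟨B, hB⟩ c hc hc1
  have := hV.tree
  by_contra hinf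
  obtain ⟨S, hS, hcard⟩ := Set.Infinite.exists_subset_card_eq hinf (B + 2)
  have hne : S.Nonempty := Finset.card_pos.1 (by omega)
  obtain ⟨⟨a, b⟩, hab, hmax⟩ := Finset.exists_max_image (S ×ˢ S) (fun p => dist p.1 p.2)
    (hne.product hne)
  obtain ⟨ha, hb⟩ := Finset.mem_product.1 hab
  have fx : ∀ x ∈ S, c • x = x := fun x hx => hS hx
  have ln : ∀ x ∈ S, Btw a x b := fun x hx =>
    RFIXF.line (fun m hm => hV.v3 c hc hc1 m a x b hm (fx a ha) (fx x hx) (fx b hb))
      (hmax (x, b) (Finset.mem_product.2 ⟨hx, hb⟩)) (hmax (a, x) (Finset.mem_product.2 ⟨ha, hx⟩))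
  have ex : ∀ x ∈ S.erase b, ∃ y ∈ S, dist a x < dist a y ∧
      ∀ z ∈ S, dist a x < dist a z → dist a y ≤ dist a z := fun x hx => by
    obtain ⟨h1, h2⟩ := Finset.mem_erase.1 hx
    obtain ⟨y, h3, h4⟩ := Finset.exists_min_image (S.filter fun z => dist a x < dist a z)
      (fun z => dist a z) ⟨b, Finset.mem_filter.2 ⟨hb, (ln x h2).dist_lt_left h1⟩⟩
    obtain ⟨h5, h6⟩ := Finset.mem_filter.1 h3
    exact ⟨y, h5, h6, fun z h7 h8 => h4 z (Finset.mem_filter.2 ⟨h7, h8⟩)⟩
  have : Nonempty X := ⟨a⟩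
  choose! nx n1 n2 n3 using ex
  have n4 : ∀ x ∈ S.erase b, x ≠ nx x := fun x hx e => by
    have := n2 x hx
    rw [← e] at this
    exact lt_irrefl _ this
  have n5 : ∀ x ∈ S.erase b, Btw a x (nx x) := fun x hx =>
    (ln x (Finset.mem_of_mem_erase hx)).of_dist_le (ln _ (n1 x hx)) (n2 x hx).le
  have key := hB ((S.erase b).image fun x => (x, nx x)) ?_ ?_
  · rw [Finset.card_image_of_injective _ fun x y h => congrArg Prod.fst h,
      Finset.card_erase_of_mem hb, hcard] at key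
    omega
  · intro p hp
    obtain ⟨x, hx, rfl⟩ := Finset.mem_image.1 hp
    exact ⟨n4 x hx, c, hc, hc1, fx x (Finset.mem_of_mem_erase hx), fx _ (n1 x hx)⟩
  · intro p hp q hq g hg y w hyw y1 w1 y2 w2
    obtain ⟨x, hx, rfl⟩ := Finset.mem_image.1 hp
    obtain ⟨x', hx', rfl⟩ := Finset.mem_image.1 hq
    have f1 := fx x (Finset.mem_of_mem_erase hx)
    have f2 := fx _ (n1 x hx)
    have f3 := fx x' (Finset.mem_of_mem_erase hx')
    have f4 := fx _ (n1 x' hx')
    have hg' : g * c * g⁻¹ ∈ U := mul_mem (mul_mem hg hc) (inv_mem hg)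
    have cj : ∀ z : X, c • z = z → (g * c * g⁻¹) • g • z = g • z := fun z hz => by
      rw [mul_smul, mul_smul, inv_smul_smul, hz]
    have c1 : Commute c (g * c * g⁻¹) := hV.v1 c hc _ hg' y w hyw
      (LT.seg c (hV.isom c hc) _ _ y f3 f4 y2) (LT.seg c (hV.isom c hc) _ _ w f3 f4 w2)
      (LT.seg _ (hV.isom _ hg') _ _ y (cj _ f1) (cj _ f2) y1)
      (LT.seg _ (hV.isom _ hg') _ _ w (cj _ f1) (cj _ f2) w1)
    have c2 := LA.conj hF g hg c hc hc1 c1
    obtain ⟨e, he, hst⟩ := LT.edge hF hV x (nx x) (n4 x hx) c hc hc1 f1 f2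
    have c3 : Commute c e := by
      have : c ∈ Subgroup.zpowers e := hst ▸ ⟨mem_St.2 ⟨hc, f1⟩, mem_St.2 ⟨hc, f2⟩⟩
      obtain ⟨n, rfl⟩ := Subgroup.mem_zpowers_iff.1 this
      exact (Commute.refl e).zpow_left n
    have c4 : g ∈ St U x ⊓ St U (nx x) :=
      hst ▸ he.2.2 g hg (LA.trans hF g hg c hc e he.1 hc1 c2 c3)
    have g1 : g • x = x := (mem_St.1 c4.1).2
    have g2 : g • nx x = nx x := (mem_St.1 c4.2).2
    simp only [g1, g2] at y1 w1
    have : x = x' := by
      rcases lt_trichotomy (dist a x) (dist a x') with h | h | h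
      · exact absurd (RFIXF.sep (n5 x hx) (n5 x' hx')
          (n3 x hx x' (Finset.mem_of_mem_erase hx') h) y1 w1 y2 w2) hyw
      · exact (ln x (Finset.mem_of_mem_erase hx)).eq_of_dist
          (ln x' (Finset.mem_of_mem_erase hx')) h
      · exact absurd (RFIXF.sep (n5 x' hx') (n5 x hx)
          (n3 x' hx' x (Finset.mem_of_mem_erase hx) h) y2 w2 y1 w1) hyw
    rw [this]

end Pool.Agent.MP_3ce0a0_al.Q2T7
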