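import Pool.Agent.MP_3ce0a0_al.Q2T7.Spec

/-! The second complexity drops at a vertex. -/

set_option autoImplicit false

namespace Pool.Agent.MP_3ce0a0_al.Q2T7

open Q2T1 Q2T2 Q2T5 Q2T3 Module

theorem ofINV : OfINV := by
  classical
  intro LA LT G _ U k a T _ _ _ _ N H0 P _ v one
  have := H0.nrm
  have := P.vs.ne
  have edge : ∀ g ∈ U, ∀ y, dist v y = 1 → g • v = v → g • y = y →
      PerE U a (MulAction.stabilizer G v) g := by
    intro g hg y hy h1 h2
    obtain ⟨b, b1, b2, b3⟩ := P.triv v y hy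
    by_cases g1 : g = 1
    · exact ⟨N, P.pos, b, b2, b1, g1 ▸ Commute.one_right b⟩
    obtain ⟨c, c1, c2⟩ := LT.edge H0.free P.vs v y
      (fun e => by rw [e, dist_self] at hy; exact zero_ne_one hy) g hg g1 h1 h2
    have hc : c ∈ St U v ⊓ St U y := c2 ▸ Subgroup.mem_zpowers c
    have cj : ∀ t : G, t • v = v → t • y = y → t * c * t⁻¹ ∈ Subgroup.zpowers c := by
      intro t t1 t2
      have m := H0.nrm.conj_mem c c1.1 t
      rw [← c2]
      refine ⟨⟨m, ?_⟩, m, ?_⟩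
      · show (t * c * t⁻¹) • v = v
        rw [mul_smul, mul_smul, inv_smul_eq_iff.2 t1.symm, (mem_St.1 hc.1).2, t1]
      · show (t * c * t⁻¹) • y = y
        rw [mul_smul, mul_smul, inv_smul_eq_iff.2 t2.symm, (mem_St.1 hc.2).2, t2]
    have sq := LA.sq b c (LA.tf H0.free c c1.1 c1.2.1) (cj b b2 b3) (by
      have := cj b⁻¹ (inv_smul_eq_iff.2 b2.symm) (inv_smul_eq_iff.2 b3.symm)
      rwa [inv_inv] at this)
    have cm : Commute (b ^ 2) c := by
      have e : b ^ 2 * c * (b ^ 2)⁻¹ = b * (b * c * b⁻¹) * b⁻¹ := by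
        rw [pow_two]; group
      have : b ^ 2 * c * (b ^ 2)⁻¹ = c := by
        rcases sq with s | s
        · rw [e, s, s]
        · rw [e, s, ← conj_inv, s, inv_inv]
      exact mul_inv_eq_iff_eq_mul.1 this
    have hz : g ∈ Subgroup.zpowers c := c2 ▸ (⟨⟨hg, h1⟩, hg, h2⟩ : g ∈ St U v ⊓ St U y)
    obtain ⟨n, rfl⟩ := Subgroup.mem_zpowers_iff.1 hz
    exact ⟨N * 2, Nat.mul_pos P.pos two_pos, b ^ 2, pow_mem (show b ∈ _ from b2) 2,
      LA.lpow b1 2, cm.zpow_right n⟩
  have per : ∀ g ∈ U, g • v = v → Per U a g → PerE U a (MulAction.stabilizer G v) g := by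
    rintro g hg h1 ⟨M, hM, b, b1, b2⟩
    by_cases hb : v = b • v
    · exact ⟨M, hM, b, hb.symm, b1, b2⟩
    obtain ⟨z, z1, z2⟩ := IsSimp.geo v (b • v) hb
    exact edge g hg z z1 h1 (LT.seg g (fun x y => dist_smul g x y) v (b • v) z h1
      (by rw [← mul_smul, ← b2.eq, mul_smul, h1]) z2)
  have hN : NI U T := ni_sub P.ninv
  have hF : Module.Finite ℚ (Hm U) :=
    FinRk.of_fg ((Group.fg_iff_subgroup_fg U).2 (LA.fg H0.free))
  have hle : St U v ≤ U := inf_le_left
  let f : invS U (Per U a) →ₗ[ℚ] Hm (St U v) :=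
    (Hm.comap (Subgroup.inclusion hle)).comp (invS U (Per U a)).subtype
  choose s sU sv using one
  have onto : invS (St U v) (PerE U a (MulAction.stabilizer G v)) ≤ LinearMap.range f := by
    intro l hl
    let L : G → ℚ := fun g => if h : g ∈ St U v then l (Additive.ofMul ⟨g, h⟩) else 0
    have L0 : ∀ g (h : g ∈ St U v), L g = l (Additive.ofMul ⟨g, h⟩) := fun g h => dif_pos h
    have L1 : ∀ g ∈ St U v, ∀ h ∈ St U v, L (g * h) = L g + L h := fun g hg h hh => by
      rw [L0 _ hg, L0 _ hh, L0 _ (mul_mem hg hh), ← l.mul]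
      rfl
    have L2 : ∀ t ∈ St U v, ∀ g ∈ St U v, L (t * g * t⁻¹) = L g := fun t ht g hg => by
      rw [L0 _ hg, L0 _ (mul_mem (mul_mem ht hg) (inv_mem ht)), ← l.conj ⟨t, ht⟩ ⟨g, hg⟩]
      rfl
    have L3 : ∀ g ∈ St U v, PerE U a (MulAction.stabilizer G v) g → L g = 0 := fun g hg h => by
      rw [L0 _ hg]
      exact hl ⟨g, hg⟩ h
    have mem : ∀ (x y : T) (g : U), g • x = y → (s y)⁻¹ * g * s x ∈ St U v := fun x y g h =>
      ⟨U.mul_mem (U.mul_mem (U.inv_mem (sU y)) g.2) (sU x), by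
        show ((s y)⁻¹ * g * s x) • v = v
        rw [mul_smul, mul_smul, sv, inv_smul_eq_iff, sv]
        exact h⟩
    have zero : ∀ (x y : T) (h : U), dist x y = 1 → h • x = x → h • y = y →
        L ((s x)⁻¹ * h * s x) = 0 := fun x y h d h1 h2 => by
      have m := mem x x h h1
      refine L3 _ m (edge _ m.1 ((s x)⁻¹ • y) ?_ m.2 ?_)
      · rw [← dist_smul (s x), smul_inv_smul, sv, d]
      · rw [mul_smul, mul_smul, smul_inv_smul]
        exact congrArg _ h2
    obtain ⟨φ, φ1, φ2⟩ := s_x1 hN (fun x (g : U) => L ((s x)⁻¹ * g * s x))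
      (fun x g h hg hh => by
        rw [← L1 _ (mem x x g hg) _ (mem x x h hh), Subgroup.coe_mul]
        congr 1
        group)
      (fun x g h hh => by
        rw [← L2 _ (mem x _ g rfl) _ (mem x x h hh), Subgroup.coe_mul, Subgroup.coe_mul,
          Subgroup.coe_inv]
        congr 1
        group)
      fun x y h d h1 h2 => by
        rw [zero x y h d h1 h2, zero y x h (by rw [dist_comm, d]) h2 h1]
    refine ⟨⟨mkHm φ φ1, fun g hg => ?_⟩, Hm.ext' fun g => ?_⟩
    · obtain ⟨x, hx⟩ := P.per g g.2 hg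
      obtain ⟨M, hM, b, b1, b2⟩ := hg
      have m := mem x x g hx
      rw [mkHm_apply, φ2 x g hx]
      refine L3 _ m (per _ m.1 m.2 ⟨M, hM, _, LA.lconj b1 (inv_mem (sU x)), ?_⟩)
      rw [inv_inv]
      show _ = _
      calc _ = (s x)⁻¹ * (b * g) * s x := by group
        _ = _ := by rw [b2.eq]; group
    · show φ (Subgroup.inclusion hle g) = _
      have m : (s v)⁻¹ ∈ St U v := inv_mem ⟨sU v, sv v⟩
      have := L2 _ m g g.2
      rw [inv_inv, L0 _ g.2] at this
      rw [φ2 v _ (mem_St.1 g.2).2]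
      exact this
  have ker : finrank ℚ (LinearMap.ker f) ≠ 0 := by
    intro h
    obtain ⟨y, -, -, hy, -⟩ := P.vs.br v
    obtain ⟨z, z1, -⟩ := IsSimp.geo v y hy.symm
    obtain ⟨ψ, ψ1, ψ2, ψ3⟩ := s_x4e hN ⟨s z, sU z⟩ v (by
      show dist v (s z • v) = 1
      rw [sv, z1])
    have hψ : mkHm (fun g => (ψ g : ℚ)) (fun g h => by rw [ψ1, Int.cast_add]) ∈
        invS U (Per U a) := fun g hg => by
      obtain ⟨x, hx⟩ := P.per g g.2 hg
      rw [mkHm_apply, ψ3 g x hx, Int.cast_zero]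
    have hk : (⟨_, hψ⟩ : invS U (Per U a)) ∈ LinearMap.ker f := Hm.ext' fun g => by
      show (ψ (Subgroup.inclusion hle g) : ℚ) = 0
      rw [ψ3 _ v (mem_St.1 g.2).2, Int.cast_zero]
    rw [Submodule.finrank_eq_zero.1 h, Submodule.mem_bot, Subtype.ext_iff] at hk
    have : (ψ ⟨s z, sU z⟩ : ℚ) = 0 := DFunLike.congr_fun hk (Additive.ofMul ⟨s z, sU z⟩)
    rw [ψ2, Int.cast_one] at this
    exact one_ne_zero this
  have e1 := LinearMap.finrank_range_add_finrank_ker f
  have e2 := Submodule.finrank_mono onto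
  unfold dimI
  omega

end Pool.Agent.MP_3ce0a0_al.Q2T7
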