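import Pool.Agent.MP_3ce0a0_al.Q2T7.Spec
import Pool.Agent.MP_3ce0a0_al.Q2T4A.Alg

/-! Algebra of elements of a free subgroup of an ambient group. -/

set_option autoImplicit false

namespace Pool.Agent.MP_3ce0a0_al.Q2T7

open Subgroup

namespace LA

variable {G : Type} [Group G] {U : Subgroup G} {k : ℕ}

theorem fr (h : FreeRk U k) : IsFreeGroup U := by
  obtain ⟨e⟩ := h
  exact IsFreeGroup.ofMulEquiv e.symm

theorem cm {x y : G} (hx : x ∈ U) (hy : y ∈ U) :
    Commute (⟨x, hx⟩ : U) ⟨y, hy⟩ ↔ Commute x y :=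
  ⟨fun h => congrArg Subtype.val h, fun h => Subtype.ext h⟩

theorem ne1 {x : G} (hx : x ∈ U) (h : x ≠ 1) : (⟨x, hx⟩ : U) ≠ 1 :=
  fun e => h (congrArg Subtype.val e)

theorem frV (h : FreeRk U k) (V : Subgroup G) (hV : V ≤ U) : IsFreeGroup V := by
  have := fr h
  exact IsFreeGroup.ofMulEquiv (subgroupOfEquivOfLe hV)

theorem sq' (b c : G) (hc : ∀ n : ℤ, n ≠ 0 → c ^ n ≠ 1) (h1 : b * c * b⁻¹ ∈ zpowers c)
    (h2 : b⁻¹ * c * b ∈ zpowers c) : b * c * b⁻¹ = c ∨ b * c * b⁻¹ = c⁻¹ := by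
  obtain ⟨i, hi⟩ := h1
  obtain ⟨j, hj⟩ := h2
  have hi' : c ^ i = b * c * b⁻¹ := hi
  have hj' : c ^ j = b⁻¹ * c * b := hj
  have e : c ^ (i * j) = c := by
    rw [zpow_mul, hi', conj_zpow, hj']
    group
  have e1 : i * j - 1 = 0 := by
    by_contra hn
    exact hc _ hn (by rw [zpow_sub, e, zpow_one, mul_inv_cancel])
  rcases Int.eq_one_or_neg_one_of_mul_eq_one (sub_eq_zero.1 e1) with r | r
  · left
    rw [← hi', r, zpow_one]
  · right
    rw [← hi', r, zpow_neg_one]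

theorem lmul' [hn : U.Normal] {a b b' : G} {N N' : ℕ} (h : Lift U a N b) (h' : Lift U a N' b') :
    Lift U a (N + N') (b * b') := by
  have e : b * b' * (a ^ (N + N'))⁻¹ = b * (b' * (a ^ N')⁻¹) * b⁻¹ * (b * (a ^ N)⁻¹) := by
    rw [add_comm, pow_add]
    have : Commute (a ^ N) (a ^ N') := (Commute.refl a).pow_pow N N'
    rw [← this.eq]
    group
  unfold Lift
  rw [e]
  exact mul_mem (hn.conj_mem _ h' b) h

theorem lpow' [U.Normal] {a b : G} {N : ℕ} (h : Lift U a N b) (m : ℕ) :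
    Lift U a (N * m) (b ^ m) := by
  induction m with
  | zero => simp [Lift]
  | succ m ih =>
    rw [mul_add_one, pow_succ]
    exact lmul' ih h

theorem lcen' [hn : U.Normal] {a b : G} {N : ℕ} (ha : ∀ h, a * h * a⁻¹ * h⁻¹ ∈ U)
    (hb : Lift U a N b) (h : G) : b * h * b⁻¹ * h⁻¹ ∈ U := by
  have c1 : Commute (a : G ⧸ U) h := by
    have := (QuotientGroup.eq_one_iff _).2 (ha h)
    simp only [QuotientGroup.mk_mul, QuotientGroup.mk_inv] at this
    rw [mul_inv_eq_one, mul_inv_eq_iff_eq_mul] at this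
    exact this
  have c2 : (b : G ⧸ U) = (a : G ⧸ U) ^ N := by
    have := (QuotientGroup.eq_one_iff _).2 hb
    simp only [QuotientGroup.mk_mul, QuotientGroup.mk_inv, QuotientGroup.mk_pow] at this
    exact mul_inv_eq_one.1 this
  rw [← QuotientGroup.eq_one_iff]
  simp only [QuotientGroup.mk_mul, QuotientGroup.mk_inv]
  rw [c2, (c1.pow_left N).eq]
  group

theorem orb' (U : Subgroup G) [hn : U.Normal] (Y : Type) [MulAction G Y] (y : Y)
    (R : Set Y) (hR : R.Finite) (h : ∀ h : G, ∃ g ∈ U, g • h • y ∈ R) :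
    (MulAction.stabilizer G y ⊔ U).FiniteIndex := by
  choose g hg hr using h
  have : Finite R := hR
  have : Finite (G ⧸ (MulAction.stabilizer G y ⊔ U)) := by
    refine Finite.of_injective (fun q => (⟨_, hr q.out⟩ : R)) fun q q' e => ?_
    have e1 : g q.out • q.out • y = g q'.out • q'.out • y := congrArg Subtype.val e
    rw [← q.out_eq', ← q'.out_eq', QuotientGroup.eq]
    generalize q.out = s at e1
    generalize q'.out = t at e1
    have e2 : s⁻¹ * t = s⁻¹ * ((g t)⁻¹ * g s) * s⁻¹⁻¹ * ((g s * s)⁻¹ * (g t * t)) := by group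
    rw [e2]
    refine mul_mem (mem_sup_right (hn.conj_mem _ (mul_mem (inv_mem (hg t)) (hg s)) _))
      (mem_sup_left ?_)
    rw [MulAction.mem_stabilizer_iff, mul_smul, inv_smul_eq_iff, mul_smul, mul_smul, e1]
  exact finiteIndex_of_finite_quotient

theorem fi' (U : Subgroup G) [U.Normal] (H Z : Subgroup G) (hH : H ≤ Z) (h : H.relIndex Z ≠ 0)
    (hZ : (Z ⊔ U).FiniteIndex) : (H ⊔ U).FiniteIndex := by
  refine ⟨?_⟩
  rw [← relIndex_mul_index (sup_le_sup_right hH U)]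
  refine mul_ne_zero ?_ hZ.index_ne_zero
  have e := relIndex_map_map (QuotientGroup.mk' U) H Z
  rw [← relIndex_comap, comap_map_eq, QuotientGroup.ker_mk'] at e
  rw [← e]
  exact fun h0 => h (relIndex_eq_zero_of_le_left le_sup_left h0)

end LA

open LA

theorem libA : LibA where
  tf := fun hU g hg h1 n hn e => by
    have := fr hU
    exact Q2T4A.zpow_ne_one (ne1 hg h1) hn (Subtype.ext e)
  trans := fun hU x hx y hy z hz h1 a b => by
    have := fr hU
    exact (cm hx hz).1 (Q2T4A.comm_trans (ne1 hy h1) ((cm hx hy).2 a) ((cm hy hz).2 b))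
  conj := fun hU s hs c hc h1 a => by
    have := fr hU
    exact (cm hs hc).1 (Q2T4A.comm_of_conj (ne1 hc h1) (Subtype.ext a))
  maxc := fun hU g hg h1 => by
    have := fr hU
    obtain ⟨r, hr, ⟨s, -, e⟩, -⟩ := Q2T4A.ex_maxCyc (ne1 hg h1)
    refine ⟨r, ⟨r.2, fun e => hr.1 (Subtype.ext e), fun x hx a => ?_⟩,
      s, (congrArg Subtype.val e).symm⟩
    obtain ⟨i, hi⟩ := hr.2 ⟨x, hx⟩ (Subtype.ext a)
    exact ⟨i, congrArg Subtype.val hi⟩
  cyc := fun hU V hV h => by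
    have := frV hU V hV
    obtain ⟨c, hc⟩ := Q2T3.cyclic_of_comm (H := V) fun a b => Subtype.ext (h _ a.2 _ b.2)
    refine ⟨c, le_antisymm (fun x hx => ?_) ((zpowers_le).2 c.2)⟩
    obtain ⟨i, hi⟩ := hc ⟨x, hx⟩
    exact ⟨i, congrArg Subtype.val hi⟩
  nab := fun {G} _ {U} {k} hU hk => by
    have := fr hU
    obtain ⟨e⟩ := hU
    by_contra hn
    have h1 := (Q2T3.rk_comm (H := U) fun a b => Subtype.ext (by
      by_contra hab
      exact hn ⟨a, a.2, b, b.2, hab⟩)).2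
    rw [Q2T3.rk_congr e, Q2T3.rk_fin] at h1
    omega
  fg := fun hU => by
    obtain ⟨e⟩ := hU
    exact (Group.fg_iff_subgroup_fg _).1
      (Group.fg_of_surjective (f := e.symm.toMonoidHom) e.symm.surjective)
  rk := fun hU V hV hf => by
    have := frV hU V hV
    have h := Q2T3.FinRk.of_fg ((Group.fg_iff_subgroup_fg V).2 hf)
    refine ⟨h.equiv, ?_⟩
    rintro ⟨g, hg, g', hg', hn⟩
    exact h.two_le (a := ⟨g, hg⟩) (b := ⟨g', hg'⟩) fun e => hn (congrArg Subtype.val e)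
  sq := sq'
  lpow := fun h m => lpow' h m
  lmul := fun h h' => lmul' h h'
  ldiv := fun {G} _ {U} {a b b'} {N} h h' => by
    have e : b * b'⁻¹ = b * (a ^ N)⁻¹ * (b' * (a ^ N)⁻¹)⁻¹ := by group
    rw [e]
    exact mul_mem h (inv_mem h')
  lleft := fun {G} _ {U} {a b u} {N} h hu => by
    unfold Lift
    rw [mul_assoc]
    exact mul_mem hu h
  lconj := fun {G} _ {U} hn {a b u} {N} h hu => by
    have e : u * b * u⁻¹ * (a ^ N)⁻¹ = u * (b * u⁻¹ * b⁻¹) * (b * (a ^ N)⁻¹) := by group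
    unfold Lift
    rw [e]
    exact mul_mem (mul_mem hu (hn.conj_mem _ (inv_mem hu) b)) h
  lcen := fun ha hb h => lcen' ha hb h
  orb := fun U _ Y _ y R hR h => orb' U Y y R hR h
  fi := fun U _ H Z hH h hZ => fi' U H Z hH h hZ

end Pool.Agent.MP_3ce0a0_al.Q2T7
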