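import Pool.Agent.MP_3ce0a0_al.Q2T7.Spec
import Pool.Agent.MP_3ce0a0_al.Q2T1.Serre

/-!
Isometries of tree-spaces, element by element.
-/

set_option autoImplicit false

namespace Pool.Agent.MP_3ce0a0_al.Q2T7

open Q2T1 Q2T2 Q2T5 Filter

noncomputable section

namespace RLibT

/-- The elements that act by isometries. -/
def isoS (G X : Type) [Group G] [MetricSpace X] [MulAction G X] : Subgroup G where
  carrier := {g | ∀ x y : X, dist (g • x) (g • y) = dist x y}
  mul_mem' := fun {a b} ha hb x y => by rw [mul_smul, mul_smul, ha, hb]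
  one_mem' := fun x y => by rw [one_smul, one_smul]
  inv_mem' := fun {a} ha x y => by rw [← ha, smul_inv_smul, smul_inv_smul]

instance isoS_isom (G X : Type) [Group G] [MetricSpace X] [MulAction G X] :
    IsIsometricSMul (isoS G X) X :=
  ⟨fun g => Isometry.of_dist_eq fun x y => g.2 x y⟩

theorem side {T : Type} [MetricSpace T] [IsSimp T] (x y : T) (h : dist x y = 1) (q : T) :
    Q2T1.Btw q x y ∨ Q2T1.Btw q y x := by
  have h1 := med_btw23 q x y
  obtain ⟨n, hn⟩ := IsSimp.int x (med q x y)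
  obtain ⟨k, hk⟩ := IsSimp.int (med q x y) y
  have h2 : n + k = 1 := by
    unfold Q2T1.Btw at h1
    rw [hn, hk, h] at h1
    exact_mod_cast h1
  rcases Nat.eq_zero_or_pos n with h3 | h3
  · left
    rw [h3, Nat.cast_zero, dist_eq_zero] at hn
    exact med_eq_mid_iff.1 hn.symm
  · right
    have h4 : k = 0 := by omega
    rw [h4, Nat.cast_zero, dist_eq_zero] at hk
    exact med_eq_right_iff.1 hk

theorem shift {G X : Type} [Group G] [MetricSpace X] [IsTree X] [MulAction G X] (g : G)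
    (hg : ∀ x y : X, dist (g • x) (g • y) = dist x y) (x p : X) (hx : x ≠ p) (hp : g • p ≠ p)
    (hb : Q2T1.Btw x p (g • p)) (hd : g • x ∈ dir (g • p) x) : ¬ Ell X g := by
  rintro ⟨q, hq⟩
  have e : dist q (g • p) = dist q p := by
    conv_lhs => rw [← hq, hg]
  by_cases h1 : q ∈ dir p x
  · have h2 : Q2T1.Btw q p (g • p) := btw_of_mem_dir h1 (not_mem_dir.2 hb)
    exact absurd e (h2.dist_lt_left hp.symm).ne'
  · have h2 : Q2T1.Btw x p q := not_mem_dir.1 h1
    have h3 : Q2T1.Btw (g • x) (g • p) q := by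
      unfold Q2T1.Btw at h2 ⊢
      conv_lhs => rw [← hq]
      conv_rhs => rw [← hq]
      rw [hg, hg, hg]
      exact h2
    have h4 : Q2T1.Btw x (g • p) q := by
      rcases h3.or x with h5 | h5
      · exact absurd h5.symm hd
      · exact h5
    have h5 : Q2T1.Btw p (g • p) q := hb.trans_left' h4
    exact absurd e (h5.symm.dist_lt_left hp).ne

theorem edge (A : LibA) {G X : Type} [Group G] {U : Subgroup G} {k : ℕ} [MetricSpace X]
    [MulAction G X] (hU : FreeRk U k) (V : VS U X) (x y : X) (hxy : x ≠ y) (g : G) (hg : g ∈ U)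
    (h1 : g ≠ 1) (hx : g • x = x) (hy : g • y = y) :
    ∃ c, MaxC U c ∧ St U x ⊓ St U y = Subgroup.zpowers c := by
  obtain ⟨c, hc, n, hn⟩ := A.maxc hU g hg h1
  have hn : c ^ n = g := hn
  have key : ∃ r : ℕ, c ^ r ≠ 1 ∧ c ^ r • x = x ∧ c ^ r • y = y := by
    obtain ⟨r, rfl | rfl⟩ := n.eq_nat_or_neg
    · rw [zpow_natCast] at hn
      exact ⟨r, by rwa [hn], by rwa [hn], by rwa [hn]⟩
    · rw [zpow_neg, zpow_natCast, inv_eq_iff_eq_inv] at hn
      refine ⟨r, ?_, ?_, ?_⟩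
      · rw [hn]
        exact inv_ne_one.2 h1
      · rw [hn]
        exact inv_smul_eq_iff.2 hx.symm
      · rw [hn]
        exact inv_smul_eq_iff.2 hy.symm
  obtain ⟨r, r1, r2, r3⟩ := key
  have cx : c • x = x := V.v2 c hc.1 r r1 x y hxy r2 r3
  have cy : c • y = y := V.v2 c hc.1 r r1 y x hxy.symm r3 r2
  refine ⟨c, hc, le_antisymm (fun h hh => ?_) ?_⟩
  · exact hc.2.2 h hh.1.1 (V.v1 h hh.1.1 c hc.1 x y hxy hh.1.2 hh.2.2 cx cy)
  · exact Subgroup.zpowers_le.2 ⟨⟨hc.1, cx⟩, ⟨hc.1, cy⟩⟩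

theorem axis {G T : Type} [Group G] [MetricSpace T] [IsTree T] [MulAction G T]
    [IsIsometricSMul G T] (H : Subgroup G) (b : G) (hb : b ∈ H) (hc : ∀ h ∈ H, Commute b h)
    (hy : Hyp T b) : ∃ f : H →* Multiplicative ℝ, f ⟨b, hb⟩ ≠ 1 := by
  obtain ⟨x, hx⟩ := Ch_nonempty (Or.inr hy)
  let a : ℕ → G → ℝ := fun n h => dist x (b ^ n • h • x) - n * tl T b
  have bdd : ∀ h : G, BddBelow (Set.range fun n => a n h) := fun h => by
    refine ⟨-dist x (h • x), ?_⟩
    rintro _ ⟨n, rfl⟩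
    have h1 := dist_triangle x (b ^ n • h • x) (b ^ n • x)
    rw [dist_smul, dist_pow_smul hx, dist_comm (h • x) x] at h1
    show _ ≤ dist x (b ^ n • h • x) - n * tl T b
    linarith
  let f : G → ℝ := fun h => ⨅ n, a n h
  have fle : ∀ h n, f h ≤ a n h := fun h n => ciInf_le (bdd h) n
  have sub : ∀ h ∈ H, ∀ k : G, f (h * k) ≤ f h + f k := fun h hh k => by
    have h1 : ∀ n m : ℕ, f (h * k) ≤ a n h + a m k := fun n m => by
      refine (fle _ (n + m)).trans ?_
      have h2 := dist_triangle x (b ^ n • h • x) (b ^ (n + m) • (h * k) • x)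
      have h3 : b ^ (n + m) • (h * k) • x = b ^ n • h • b ^ m • k • x := by
        simp only [← mul_smul]
        rw [pow_add, mul_assoc, ← mul_assoc (b ^ m), ((hc h hh).pow_left m).eq, mul_assoc]
      have h4 : dist (b ^ n • h • x) (b ^ (n + m) • (h * k) • x) = dist x (b ^ m • k • x) := by
        rw [h3, dist_smul, dist_smul]
      show dist x (b ^ (n + m) • (h * k) • x) - ((n + m : ℕ) : ℝ) * tl T b ≤
        dist x (b ^ n • h • x) - n * tl T b + (dist x (b ^ m • k • x) - m * tl T b)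
      push_cast
      linarith
    have h5 : ∀ m : ℕ, f (h * k) - a m k ≤ f h := fun m =>
      le_ciInf fun n => by linarith [h1 n m]
    have h6 : f (h * k) - f h ≤ f k := le_ciInf fun m => by linarith [h5 m]
    linarith
  have anti : ∀ h ∈ H, f h + f h⁻¹ ≤ 0 := fun h hh => by
    obtain ⟨m, hm⟩ := hy.cover hx ((smul_mem_Ch_of_commute (hc h hh).symm).2 hx)
    obtain ⟨N, N1, N2⟩ : ∃ N : ℕ, -(N : ℤ) ≤ m ∧ m + 1 ≤ N := ⟨m.natAbs + 1, by omega, by omega⟩
    have h1 : Q2T1.Btw (b ^ (-(N : ℤ)) • x) (h • x) (b ^ (N : ℤ) • x) :=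
      conv_seg _ _ _ (btw_zpow hx N1 (by omega)) _ (btw_zpow hx (by omega) N2) _ hm
    unfold Q2T1.Btw at h1
    rw [dist_zpow_zpow hx, zpow_neg, zpow_natCast] at h1
    have e1 : dist ((b ^ N)⁻¹ • x) (h • x) = dist x (b ^ N • h • x) := by
      rw [← dist_smul (b ^ N), smul_inv_smul]
    have e2 : dist (h • x) (b ^ N • x) = dist x (b ^ N • h⁻¹ • x) := by
      rw [← dist_smul h⁻¹, inv_smul_smul, ← mul_smul, ← mul_smul,
        ((hc h hh).inv_right.pow_left N).eq]
    have e3 : |(((N : ℤ) : ℝ)) - ((-(N : ℤ) : ℤ) : ℝ)| = 2 * N := by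
      push_cast
      rw [abs_of_nonneg (by linarith [Nat.cast_nonneg (α := ℝ) N])]
      ring
    rw [e1, e2, e3] at h1
    have k1 : f h ≤ dist x (b ^ N • h • x) - N * tl T b := fle h N
    have k2 : f h⁻¹ ≤ dist x (b ^ N • h⁻¹ • x) - N * tl T b := fle h⁻¹ N
    linarith
  have add : ∀ h k : H, f (h * k : H) = f h + f k := fun h k => by
    have h1 := sub h h.2 k
    have h2 := sub ((h : G) * k) (H.mul_mem h.2 k.2) (k : G)⁻¹
    rw [mul_inv_cancel_right] at h2
    have h3 := anti k k.2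
    show f ((h : G) * k) = _
    linarith
  refine ⟨MonoidHom.mk' (fun h => Multiplicative.ofAdd (f h)) fun h k => ?_, fun e => ?_⟩
  · rw [add, ofAdd_add]
  · have e1 : f b = 0 := e
    have e2 : tl T b ≤ f b := le_ciInf fun n => by
      show _ ≤ dist x (b ^ n • b • x) - n * tl T b
      rw [← mul_smul, ← pow_succ, dist_pow_smul hx]
      push_cast
      linarith
    linarith [hy.tl_pos]

end RLibT

open RLibT in
theorem ofLibT : OfLibT := fun A =>
  { seg := fun {G X} _ _ _ _ g hg _ _ _ hx hy h =>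
      Q2T1.Btw.fix (g := (⟨g, hg⟩ : isoS G X)) h hx hy
    gate := fun {G X} _ _ _ _ g hg x p hp => by
      rw [med_rot, med_rot]
      exact ⟨fix_med (g := (⟨g, hg⟩ : isoS G X)) hp x, fun q hq =>
        (isGate_fix_med (g := (⟨g, hg⟩ : isoS G X)) hp x).2 q (mem_Ch_of_fix hq)⟩
    mul := fun {G X} _ _ _ _ g h hg hh e1 e2 e3 =>
      ex_common_fix (g := (⟨g, hg⟩ : isoS G X)) (h := ⟨h, hh⟩) e1 e2 (Ell.not_hyp e3)
    shift := fun g hg x p => shift g hg x p
    side := fun x y h q => side x y h q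
    edge := fun hU V x y hxy g hg => edge A hU V x y hxy g hg
    ne2 := fun u u' v w hd h1 h2 h3 h4 e => by
      obtain ⟨q, q1, q2⟩ := ex_common_fix (g := u) (h := u') ⟨v, h1⟩ ⟨w, h3⟩ e.not_hyp
      rcases side v w hd q with h | h
      · exact h4 (h.fix q2 h3)
      · exact h2 (h.fix q1 h1)
    nbr := fun x a b c h => by
      have k : ∀ y, y ≠ x → ∃ z, z ∈ dir x y ∧ dist x z = 1 := fun y hy => by
        obtain ⟨z, z1, z2⟩ := IsSimp.geo x y hy.symm
        refine ⟨z, z2.mem_dir' fun e => ?_, z1⟩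
        rw [e, dist_self] at z1
        exact zero_ne_one z1
      obtain ⟨a', a1, a2⟩ := k a h.1
      obtain ⟨b', b1, b2⟩ := k b h.2.1
      obtain ⟨c', c1, c2⟩ := k c h.2.2.1
      exact ⟨a', b', c', h.of_mem_dir3 a1 b1 c1, a2, b2, c2⟩
    axis := fun {_ T} _ _ _ _ _ _ H b hb hc => by
      rcases hyp_or_sq_fix b (Classical.arbitrary T) with h | ⟨m, hm⟩
      · exact Or.inr (axis H b hb hc h)
      · exact Or.inl ⟨m, by rwa [pow_two, mul_smul]⟩ }

end

end Pool.Agent.MP_3ce0a0_al.Q2T7
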