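import Pool.Agent.MP_3ce0a0_al.Q2T7.Spec

/-! Vertex groups are not abelian, and all edge groups are non-trivial. -/

set_option autoImplicit false

namespace Pool.Agent.MP_3ce0a0_al.Q2T7

open Q2T1 Q2T2 Q2T5 Filter

namespace RNAB

theorem ne_of {T : Type} [MetricSpace T] {x y : T} (h : dist x y = 1) : x ≠ y := by
  rintro rfl
  simp at h

end RNAB

theorem ofNAB : OfNAB := by
  intro _ LT G _ U k T _ _ _ hF hV hE x
  by_contra hn
  have hc : ∀ g ∈ St U x, ∀ h ∈ St U x, Commute g h := fun g hg h hh =>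
    by_contra fun e => hn ⟨g, hg, h, hh, e⟩
  obtain ⟨a, b, c, ht⟩ := hV.br x
  obtain ⟨a', b', c', ht', ha, hb, hc'⟩ := LT.nbr x a b c ht
  obtain ⟨g, hg, g1, g2, g3⟩ := hE x a' ha
  have key : ∀ y, dist x y = 1 → g • y = y := fun y hy => by
    obtain ⟨h, hh, h1, h2, h3⟩ := hE x y hy
    obtain ⟨d, d1, d2⟩ := LT.edge hF hV x y (RNAB.ne_of hy) h hh h1 h2 h3
    have d3 : d ∈ St U x ⊓ St U y := d2 ▸ Subgroup.mem_zpowers d
    have d4 : g ∈ St U x ⊓ St U y := d2 ▸ d1.2.2 g hg (hc g ⟨hg, g2⟩ d d3.1)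
    exact d4.2.2
  exact hV.v3 g hg g1 x a' b' c' ht' g3 (key b' hb) (key c' hc')

theorem ofNOT : OfNOT := by
  intro LA LT hS hW G _ U k a T _ _ _ _ N H P hG x y hxy
  by_contra hn
  have hT : ∀ g ∈ U, g • x = x → g • y = y → g = 1 := fun g hg h1 h2 =>
    by_contra fun e => hn ⟨g, hg, e, h1, h2⟩
  have hyx : dist y x = 1 := by rw [dist_comm, hxy]
  have := H.nrm
  obtain ⟨b, b1, b2, b3⟩ := P.triv x y hxy
  obtain ⟨p, p', p1, p2, p3, p4, p5, p6⟩ := hW G U k a T N H P x y b hxy hT b1 b2 b3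
  obtain ⟨r, r', r1, r2, r3, r4, r5, r6⟩ :=
    hW G U k a T N H P y x b hyx (fun g hg h1 h2 => hT g hg h2 h1) b1 b3 b2
  obtain ⟨m, hm, g, g1, g2, g3, g4⟩ := hS G U k a T N H P hG p p' b p1 p2 b1 p3 p4 p6
  obtain ⟨m', hm', h, h1, h2, h3, h4⟩ := hS G U k a T N H P hG r r' b r1 r2 b1 r3 r4 r6
  have c1 : Commute (b ^ (m * m')) g := by
    rw [pow_mul]
    exact g4.pow_left m'
  have c2 : Commute (b ^ (m * m')) h := by
    rw [mul_comm, pow_mul]
    exact h4.pow_left m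
  have e : Ell T (g * h) := P.per _ (mul_mem g1 h1)
    ⟨N * (m * m'), Nat.mul_pos P.pos (Nat.mul_pos hm hm'), _, LA.lpow b1 _, c1.mul_right c2⟩
  obtain ⟨q, q1, q2⟩ := LT.mul g h (fun u v => dist_smul g u v) (fun u v => dist_smul h u v)
    ⟨p, g3⟩ ⟨r, h3⟩ e
  rcases LT.side x y hxy q with s | s
  · exact h2 (hT h h1
      (LT.seg h (fun u v => dist_smul h u v) r q x h3 q2 (r5.concat_right s.symm (RNAB.ne_of hyx)))
      (LT.seg h (fun u v => dist_smul h u v) r q y h3 q2 (r5.concat_left s.symm (RNAB.ne_of hyx))))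
  · exact g2 (hT g g1
      (LT.seg g (fun u v => dist_smul g u v) p q x g3 q1 (p5.concat_left s.symm (RNAB.ne_of hxy)))
      (LT.seg g (fun u v => dist_smul g u v) p q y g3 q1 (p5.concat_right s.symm (RNAB.ne_of hxy))))

end Pool.Agent.MP_3ce0a0_al.Q2T7
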