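import Pool.Agent.MP_3ce0a0_al.Q2T7.Spec

/-!
The simplicial lemma: passage to the subgroup that acts by isometries, and the simplicial tree.
-/

set_option autoImplicit false

namespace Pool.Agent.MP_3ce0a0_al.Q2T7

open Q2T1 Q2T2 Q2T5 Filter

namespace NTW

variable {G : Type} [Group G] {U Z : Subgroup G} {X : Type} [MetricSpace X] [MulAction G X]

theorem thick_iff (h : U ≤ Z) (x y : X) : Thick (U.subgroupOf Z) x y ↔ Thick U x y := by
  constructor
  · rintro ⟨g, hg, h1, h2, h3⟩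
    exact ⟨g, hg, fun e => h1 (Subtype.ext e), h2, h3⟩
  · rintro ⟨g, hg, h1, h2, h3⟩
    exact ⟨⟨g, h hg⟩, hg, fun e => h1 (congrArg Subtype.val e), h2, h3⟩

theorem vs_sub (h : U ≤ Z) (vs : VS U X) : VS (U.subgroupOf Z) X where
  tree := vs.tree
  ne := vs.ne
  isom := fun g hg => vs.isom g hg
  bact := ⟨fun g => vs.bact.btw (g : G)⟩
  br := vs.br
  mini := fun x y z hne => by
    obtain ⟨g, hg, h1⟩ := vs.mini x y z hne
    exact ⟨⟨g, h hg⟩, hg, h1⟩
  dich := fun g hg => vs.dich g hg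
  v1 := fun g hg g' hg' x y hne h1 h2 h3 h4 =>
    Subtype.ext (vs.v1 g hg g' hg' x y hne h1 h2 h3 h4)
  v2 := fun g hg r h1 x y hne h2 h3 =>
    vs.v2 g hg r (fun e => h1 (Subtype.ext e)) x y hne h2 h3
  v3 := fun g hg h1 => vs.v3 g hg (fun e => h1 (Subtype.ext e))

theorem nt_sub (h : U ≤ Z) (nt : NTFin U X) : NTFin (U.subgroupOf Z) X := by
  obtain ⟨D, hD, h1⟩ := nt
  refine ⟨D, hD, fun x y hne hth => ?_⟩
  obtain ⟨g, hg, d, hd, h2, h3⟩ := h1 x y hne fun h' => hth ((thick_iff h x y).2 h')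
  exact ⟨⟨g, h hg⟩, hg, d, hd, h2, h3⟩

theorem gen_sub (h : U ≤ Z) {s : Set G} (hZ : Z = Subgroup.closure s ⊔ U) :
    Subgroup.closure (Z.subtype ⁻¹' s) ⊔ U.subgroupOf Z = ⊤ := by
  have hs : s ⊆ Set.range Z.subtype := fun g hg =>
    ⟨⟨g, hZ ▸ Subgroup.mem_sup_left (Subgroup.subset_closure hg)⟩, rfl⟩
  apply Subgroup.map_injective Z.subtype_injective
  rw [Subgroup.map_sup, MonoidHom.map_closure, Set.image_preimage_eq_of_subset hs,
    Subgroup.map_subgroupOf_eq_of_le h, ← hZ, ← MonoidHom.range_eq_map, Subgroup.range_subtype]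

omit [MetricSpace X] in
theorem ee_sub
    (ee : ∀ g ∈ U, ∀ H : Subgroup G, H ≤ Z → (H ⊔ U).relIndex Z ≠ 0 → (∀ z ∈ H, Commute z g) →
      Ell X g) : EE (U.subgroupOf Z) X := by
  intro g hg H hfi hc
  refine ee g hg (H.map Z.subtype) (Subgroup.map_subtype_le H) ?_ ?_
  · have hle : H ⊔ U.subgroupOf Z ≤ (H.map Z.subtype ⊔ U).subgroupOf Z :=
      sup_le (fun z hz => Subgroup.mem_sup_left (Subgroup.mem_map_of_mem _ hz))
        (fun z hz => Subgroup.mem_sup_right hz)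
    exact (Subgroup.finiteIndex_of_le hle).index_ne_zero
  · rintro _ ⟨z, hz, rfl⟩
    exact congrArg Subtype.val (hc z hz).eq

variable {Y : Type} [MetricSpace Y] [MulAction G Y]

theorem vs_map [IsTree Y] [IsIsometricSMul G Y] (vs : VS U X) (e : X ≃ Y)
    (he : ∀ (g : G) x, e (g • x) = g • e x)
    (hb : ∀ x z y, Btw (e x) (e z) (e y) ↔ Btw x z y) : VS U Y := by
  have fix : ∀ (g : G) x, g • e x = e x ↔ g • x = x := fun g x => by
    rw [← he, e.injective.eq_iff]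
  have tri : ∀ m a b c, Tri (e m) (e a) (e b) (e c) ↔ Tri m a b c := fun m a b c => by
    simp only [Tri, hb, ne_eq, e.injective.eq_iff]
  refine ⟨inferInstance, vs.ne.map e, fun g _ x y => dist_smul g x y, inferInstance, ?_, ?_, ?_,
    ?_, ?_, ?_⟩
  · intro y
    obtain ⟨x, rfl⟩ := e.surjective y
    obtain ⟨a, b, c, h⟩ := vs.br x
    exact ⟨e a, e b, e c, (tri _ _ _ _).2 h⟩
  · intro x y z hne
    obtain ⟨x, rfl⟩ := e.surjective x
    obtain ⟨y, rfl⟩ := e.surjective y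
    obtain ⟨z, rfl⟩ := e.surjective z
    obtain ⟨g, hg, h⟩ := vs.mini x y z fun h => hne (congrArg e h)
    refine ⟨g, hg, fun h' => h ?_⟩
    rw [← he] at h'
    exact (hb _ _ _).1 h'
  · intro g hg
    rcases vs.dich g hg with ⟨x, hx⟩ | ⟨x, h1, h2⟩
    · exact Or.inl ⟨e x, (fix g x).2 hx⟩
    · refine Or.inr ⟨e x, fun h => h1 ((fix g x).1 h), ?_⟩
      rw [← he, ← he]
      exact (hb _ _ _).2 h2
  · intro g hg g' hg' x y hne h1 h2 h3 h4
    obtain ⟨x, rfl⟩ := e.surjective x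
    obtain ⟨y, rfl⟩ := e.surjective y
    exact vs.v1 g hg g' hg' x y (fun h => hne (congrArg e h)) ((fix _ _).1 h1) ((fix _ _).1 h2)
      ((fix _ _).1 h3) ((fix _ _).1 h4)
  · intro g hg r h1 x y hne h2 h3
    obtain ⟨x, rfl⟩ := e.surjective x
    obtain ⟨y, rfl⟩ := e.surjective y
    exact (fix _ _).2
      (vs.v2 g hg r h1 x y (fun h => hne (congrArg e h)) ((fix _ _).1 h2) ((fix _ _).1 h3))
  · intro g hg h1 m a b c ht h2 h3 h4
    obtain ⟨m, rfl⟩ := e.surjective m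
    obtain ⟨a, rfl⟩ := e.surjective a
    obtain ⟨b, rfl⟩ := e.surjective b
    obtain ⟨c, rfl⟩ := e.surjective c
    exact vs.v3 g hg h1 m a b c ((tri _ _ _ _).1 ht) ((fix _ _).1 h2) ((fix _ _).1 h3)
      ((fix _ _).1 h4)

theorem noInv_of_vs (hA : LibA) {k : ℕ} (hF : FreeRk U k) (vs : VS U X) : NoInv X U := by
  intro g hg x hd h2
  have hne : x ≠ g • x := fun h => by
    rw [← h, dist_self] at hd
    exact zero_ne_one hd
  have h1 : g ≠ 1 := fun h => hne (by rw [h, one_smul])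
  have hsq : g ^ 2 ≠ 1 := by
    have := hA.tf hF g hg h1 2 two_ne_zero
    rwa [zpow_ofNat] at this
  have hx : g ^ 2 • x = x := by rw [pow_two, mul_smul, h2]
  have hy : g ^ 2 • g • x = g • x := by rw [pow_two, mul_smul, h2]
  exact hne (vs.v2 g hg 2 hsq x (g • x) hne hx hy).symm

end NTW

theorem ofNTW : OfNTW := by
  intro _ _ hNT G _ U Z _ k X _ _ hF hUZ hgen hiso vs nt ee x y hne hth
  obtain ⟨s, hs, hZ⟩ := hgen
  have core : Core (U.subgroupOf Z) k X :=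
    { nrm := inferInstance
      free := hF.map fun f => (Subgroup.subgroupOfEquivOfLe hUZ).trans f
      gen := ⟨Z.subtype ⁻¹' s, hs.preimage Z.subtype_injective.injOn, NTW.gen_sub hUZ hZ⟩
      iso := fun g => hiso g g.2
      vs := NTW.vs_sub hUZ vs
      nt := NTW.nt_sub hUZ nt
      ee := NTW.ee_sub ee }
  exact hNT Z (U.subgroupOf Z) k X core x y hne fun h => hth ((NTW.thick_iff hUZ x y).1 h)

theorem ofSLW : OfSLW := by
  intro hA _ hN G _ U k X _ _ hF vs idx sf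
  have := vs.tree
  have := vs.bact
  obtain ⟨Y, _, _, _, _, e, he, hb, hd⟩ := hN G X sf.1
  have vy : VS U Y := NTW.vs_map vs e he hb
  refine ⟨Y, inferInstance, inferInstance, inferInstance, inferInstance, e, he, hb, vy, ⟨?_, ?_⟩,
    NTW.noInv_of_vs hA hF vy⟩
  · obtain ⟨R, hR, h⟩ := idx.i1
    refine ⟨e '' R, hR.image _, fun y => ?_⟩
    obtain ⟨x, rfl⟩ := e.surjective y
    obtain ⟨g, hg, h1⟩ := h x
    exact ⟨g, hg, g • x, h1, he g x⟩
  · obtain ⟨R, hR, h⟩ := sf.2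
    refine ⟨Prod.map e e '' R, hR.image _, fun x y h1 => ?_⟩
    obtain ⟨x, rfl⟩ := e.surjective x
    obtain ⟨y, rfl⟩ := e.surjective y
    obtain ⟨g, hg, h2⟩ := h x y ((hd x y).1 h1)
    exact ⟨g, hg, (g • x, g • y), h2, Prod.ext (he g x) (he g y)⟩

end Pool.Agent.MP_3ce0a0_al.Q2T7
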