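import Pool.Agent.MP_3ce0a0_al.Q2T7.Spec

/-!
Row PRE: the simplicial limit tree.
-/

set_option autoImplicit false

namespace Pool.Agent.MP_3ce0a0_al.Q2T7

open Q2T1 Q2T2 Q2T5 Filter

namespace RPRE

/-- The elements that act by isometries. -/
def isoS (G X : Type) [Group G] [MetricSpace X] [MulAction G X] : Subgroup G where
  carrier := {g | ∀ x y : X, dist (g • x) (g • y) = dist x y}
  one_mem' := fun x y => by rw [one_smul, one_smul]
  mul_mem' := fun {g h} hg hh x y => by rw [mul_smul, mul_smul, hg, hh]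
  inv_mem' := fun {g} hg x y => by rw [← hg, smul_inv_smul, smul_inv_smul]

theorem small_of_bdd {ω : Filter ℕ} (hω : ω ≤ atTop) {μ c : ℕ → ℕ} (hμ : Tendsto μ atTop atTop)
    {C : ℕ} (hc : ∀ᶠ j in atTop, c j ≤ C) (ε : ℝ) (hε : 0 < ε) :
    ∀ᶠ j in ω, (c j : ℝ) ≤ ε * μ j := by
  have h1 := ((tendsto_natCast_atTop_atTop (R := ℝ)).comp hμ).eventually_ge_atTop (C / ε)
  refine hω ((hc.and h1).mono fun j hj => ?_)
  have h2 : (c j : ℝ) ≤ C := Nat.cast_le.2 hj.1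
  have h3 : (C : ℝ) / ε ≤ μ j := hj.2
  rw [div_le_iff₀ hε] at h3
  show (c j : ℝ) ≤ ε * μ j
  linarith

theorem small_of_le {ω : Filter ℕ} (hω : ω ≤ atTop) {μ c c' : ℕ → ℕ} {C C' : ℕ}
    (h0 : ∀ᶠ j in atTop, c j ≤ C * j.factorial) (h1 : ∀ᶠ j in atTop, j.factorial ≤ C' * c' j)
    (h2 : ∀ ε : ℝ, 0 < ε → ∀ᶠ j in ω, (c' j : ℝ) ≤ ε * μ j) (ε : ℝ) (hε : 0 < ε) :
    ∀ᶠ j in ω, (c j : ℝ) ≤ ε * μ j := by
  have hp : (0 : ℝ) < C * C' + 1 := by positivity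
  filter_upwards [hω h0, hω h1, h2 (ε / (C * C' + 1)) (div_pos hε hp)] with j a1 a2 a3
  have a1' : c j ≤ C * j.factorial := a1
  have a2' : j.factorial ≤ C' * c' j := a2
  have a4 : c j ≤ C * C' * c' j := by
    rw [mul_assoc]
    exact a1'.trans (Nat.mul_le_mul_left _ a2')
  have a5 : (c j : ℝ) ≤ C * C' * c' j := by exact_mod_cast a4
  rw [div_mul_eq_mul_div, le_div_iff₀ hp] at a3
  have a6 : (0 : ℝ) ≤ c' j := Nat.cast_nonneg _
  nlinarith

end RPRE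

open RPRE in
theorem ofPRE : OfPRE := by
  intro LA _ hLim hIdx hIso hSimp hFI hSET hUP hLOW G _ U k a H0 hfin
  have := H0.nrm
  obtain ⟨ι, cj, b, μ, L⟩ := hSET G U k a H0 hfin
  obtain ⟨X, _, _, hVS, ω, hω, hEll⟩ := hLim G k ι cj L.inj L.cjs H0.two b μ
    (fun j h => by rw [L.ran]; exact LA.lcen H0.cen (L.lift j) h) L.base L.least L.top
  rw [L.ran] at hVS
  have hI := hIdx G U k X H0.free H0.two hVS
  obtain ⟨N0, hN0, hiso⟩ := hIso G U k a X H0.free H0.two hVS H0.star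
  obtain ⟨up1, up2⟩ := hUP G U k a ι cj b μ H0.nrm L
  have hran : ∀ g ∈ U, ∃ w, ι w = g := fun g hg => by
    rw [← L.ran] at hg
    exact hg
  have hper : ∀ g ∈ U, Per U a g → Ell X g := by
    intro g hg hp
    obtain ⟨w, rfl⟩ := hran g hg
    obtain ⟨C, hC⟩ := up1 w hp
    exact (hEll w).2 (small_of_bdd hω L.top hC)
  have hZ : Subgroup.closure {a ^ N0} ⊔ U ≤ isoS G X :=
    sup_le ((Subgroup.closure_le _).2 (Set.singleton_subset_iff.2 hiso)) hVS.isom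
  obtain ⟨T, _, _, _, _, e, he, -, hVT, hco, hni⟩ := hSimp G U (Subgroup.closure {a ^ N0} ⊔ U) k X
    H0.free le_sup_right ⟨_, Set.finite_singleton _, rfl⟩ (fun z hz => hZ hz) hVS hI (by
      intro g hg H _ hH hc
      obtain ⟨m, hm, -, h1, -⟩ := Subgroup.exists_pow_mem_of_relIndex_ne_zero hH
        (Subgroup.mem_sup_left (Subgroup.subset_closure (Set.mem_singleton (a ^ N0))))
      obtain ⟨y, hy, z, hz, h2⟩ := Subgroup.mem_sup_of_normal_right.1 h1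
      refine hper g hg ⟨N0 * m, Nat.mul_pos hN0 hm, y, ?_, hc y hy⟩
      show y * (a ^ (N0 * m))⁻¹ ∈ U
      rw [pow_mul, ← h2, mul_inv_rev, ← mul_assoc]
      exact H0.nrm.conj_mem _ (inv_mem hz) y)
  have hE : ∀ g : G, Ell T g ↔ Ell X g := fun g =>
    ⟨fun ⟨x, hx⟩ => ⟨e.symm x, e.injective (by rw [he, e.apply_symm_apply, hx])⟩,
      fun ⟨x, hx⟩ => ⟨e x, by rw [← he, hx]⟩⟩
  obtain ⟨H, -, hH, -, htr⟩ := hFI G T U H0.nrm hco
  obtain ⟨N, hN, -, haN⟩ := Subgroup.exists_pow_mem_of_index_ne_zero hH.index_ne_zero a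
  refine ⟨T, inferInstance, inferInstance, inferInstance, inferInstance, N, hVT, hco,
    fun x => ?_, hni, fun g hg hp => (hE g).2 (hper g hg hp), hN, fun x y hxy => ?_,
    fun u u' z v v' t h1 h2 h3 h4 h5 => ?_⟩
  · obtain ⟨x, rfl⟩ := e.surjective x
    have : St U (e x) = St U x := by
      ext g
      rw [mem_St, mem_St, ← he, e.apply_eq_iff_eq]
    rw [this]
    exact hI.i4 x
  · obtain ⟨u, hu, h1, h2⟩ := (htr _ haN).2 x y hxy
    refine ⟨u⁻¹ * a ^ N, ?_, by rw [mul_smul, ← h1, inv_smul_smul],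
      by rw [mul_smul, ← h2, inv_smul_smul]⟩
    show u⁻¹ * a ^ N * (a ^ N)⁻¹ ∈ U
    rw [mul_inv_cancel_right]
    exact inv_mem hu
  · obtain ⟨w0, e0⟩ := hran _ (mul_mem h1.1 h1.2.1)
    obtain ⟨w1, e1⟩ := hran _ (mul_mem h2.1 h2.2.1)
    obtain ⟨C, hC⟩ := up2 w0 u u' z h1 e0
    obtain ⟨C', hC'⟩ := hLOW G U k a ι cj b μ H0.nrm L w1 v v' t h2 h3 h4 e1
    rw [hE, ← e1] at h5
    rw [hE, ← e0]
    exact (hEll w0).2 (small_of_le hω hC hC' ((hEll w1).1 h5))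

end Pool.Agent.MP_3ce0a0_al.Q2T7
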