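import Pool.Agent.MP_3ce0a0_al.Q2T7.Spec

/-!
Segments are finite and there are finitely many orbits of edges.
-/

set_option autoImplicit false

namespace Pool.Agent.MP_3ce0a0_al.Q2T7

open Q2T1 Q2T2 Q2T5

namespace RSEG

variable {G X : Type} [Group G] [MetricSpace X] [MulAction G X] {U : Subgroup G}

theorem nbr_smul [BAct G X] {x y : X} (h : Nbr x y) (g : G) : Nbr (g • x) (g • y) := by
  refine ⟨fun e => h.1 (smul_left_cancel g e), fun z hz => ?_⟩
  have h1 := hz.smul g⁻¹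
  rw [inv_smul_smul, inv_smul_smul] at h1
  exact (h.2 _ h1).imp inv_smul_eq_iff.1 inv_smul_eq_iff.1

variable [IsTree X]

/-- An isometry that fixes `x` fixes the common part of the segments to `y` and to its image. -/
theorem fix_of [BAct G X] {g : G} (hg : ∀ x y : X, dist (g • x) (g • y) = dist x y) {x y p : X}
    (hx : g • x = x) (h1 : Q2T1.Btw x p y) (h2 : Q2T1.Btw x p (g • y)) : g • p = p := by
  have h3 := h1.smul g
  have h4 := hg x p
  rw [hx] at h3 h4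
  exact h3.eq_of_dist h2 h4

/-- Every direction starts with an edge. -/
theorem start (V : VS U X) (hN : NTE U X) (hF : FixF U X) (x y : X) (h : y ≠ x) :
    ∃ m, Nbr x m ∧ Q2T1.Btw x m y := by
  have := V.bact
  by_cases ht : Thick U x y
  swap
  · exact hN x y h ht
  obtain ⟨g, hg, g1, gx, gy⟩ := ht
  have q0 : med x y (g • y) ≠ x := mem_dir_iff_med.1 gy
  have q1 := med_btw12 x y (g • y)
  have q2 := med_btw13 x y (g • y)
  have fin : {p | Q2T1.Btw x p (med x y (g • y)) ∧ p ≠ x}.Finite :=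
    (hF g hg g1).subset fun p hp =>
      fix_of (V.isom g hg) gx (hp.1.trans_left q1) (hp.1.trans_left q2)
  obtain ⟨m, hm, hmin⟩ := Set.exists_min_image _ (fun p => dist x p) fin ⟨_, btw_right _ _, q0⟩
  refine ⟨m, ⟨hm.2.symm, fun z hz => ?_⟩, hm.1.trans_left q1⟩
  by_contra hn
  rw [not_or] at hn
  exact (hz.dist_lt_left hn.2).not_ge (hmin z ⟨hz.trans_left hm.1, hn.1⟩)

/-- A direction contains at most one neighbour. -/
theorem nbr_uniq {x y y' d : X} (h : Nbr x y) (h' : Nbr x y') (hy : y ∈ dir x d)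
    (hy' : y' ∈ dir x d) : y = y' := by
  have q0 : med x y y' ≠ x := fun e => not_btw_of_mem_dir hy hy' (med_eq_left_iff.1 e)
  exact ((h.2 _ (med_btw12 x y y')).resolve_left q0).symm.trans
    ((h'.2 _ (med_btw13 x y y')).resolve_left q0)

omit [IsTree X] in
theorem two {a b y w : X} (h : Nbr a b) (hne : y ≠ w) (hy : Q2T1.Btw a y b)
    (hw : Q2T1.Btw a w b) : (a = y ∧ b = w) ∨ (a = w ∧ b = y) := by
  rcases h.2 y hy with e | e <;> rcases h.2 w hw with e' | e'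
  · exact absurd (e.trans e'.symm) hne
  · exact Or.inl ⟨e.symm, e'.symm⟩
  · exact Or.inr ⟨e'.symm, e.symm⟩
  · exact absurd (e.trans e'.symm) hne

/-- Edges with a non-trivial stabiliser. -/
def Stab (U : Subgroup G) (p : X × X) : Prop :=
  Nbr p.1 p.2 ∧ ∃ c ∈ U, c ≠ 1 ∧ c • p.1 = p.1 ∧ c • p.2 = p.2

/-- The same unoriented orbit. -/
def Same (U : Subgroup G) (p q : X × X) : Prop :=
  ∃ g ∈ U, (g • p.1 = q.1 ∧ g • p.2 = q.2) ∨ (g • p.1 = q.2 ∧ g • p.2 = q.1)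

omit [MetricSpace X] [IsTree X] in
theorem Same.symm {p q : X × X} (h : Same U p q) : Same U q p := by
  obtain ⟨g, hg, h⟩ := h
  refine ⟨g⁻¹, U.inv_mem hg, h.imp (fun e => ?_) fun e => ?_⟩
  · exact ⟨inv_smul_eq_iff.2 e.1.symm, inv_smul_eq_iff.2 e.2.symm⟩
  · exact ⟨inv_smul_eq_iff.2 e.2.symm, inv_smul_eq_iff.2 e.1.symm⟩

omit [IsTree X] in
theorem thick_fin [BAct G X] (hB : ArcB U X) :
    ∃ A : Finset (X × X), (∀ p ∈ A, p.1 ≠ p.2) ∧ ∀ p, Stab U p → ∃ q ∈ A, Same U p q := by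
  classical
  obtain ⟨B, hB⟩ := hB
  let P : Finset (X × X) → Prop := fun A =>
    (∀ p ∈ A, Stab U p) ∧ ∀ p ∈ A, ∀ q ∈ A, Same U p q → p = q
  have bd : ∀ A, P A → A.card ≤ B := fun A hA => by
    refine hB A (fun p hp => ⟨(hA.1 p hp).1.1, (hA.1 p hp).2⟩)
      fun p hp q hq g hg y w hne h1 h2 h3 h4 => hA.2 p hp q hq ⟨g, hg, ?_⟩
    rcases two (nbr_smul (hA.1 p hp).1 g) hne h1 h2 with e | e <;>
      rcases two (hA.1 q hq).1 hne h3 h4 with e' | e'
    · exact Or.inl ⟨e.1.trans e'.1.symm, e.2.trans e'.2.symm⟩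
    · exact Or.inr ⟨e.1.trans e'.2.symm, e.2.trans e'.1.symm⟩
    · exact Or.inr ⟨e.1.trans e'.2.symm, e.2.trans e'.1.symm⟩
    · exact Or.inl ⟨e.1.trans e'.1.symm, e.2.trans e'.2.symm⟩
  obtain ⟨A, hA, hmin⟩ := exists_minimalFor_of_wellFoundedLT P (fun A => B - A.card)
    ⟨∅, by simp, by simp⟩
  refine ⟨A, fun p hp => (hA.1 p hp).1.1, fun p hp => ?_⟩
  by_contra hn
  have hn' : ∀ q ∈ A, ¬ Same U p q := fun q hq h => hn ⟨q, hq, h⟩
  have hp' : p ∉ A := fun h =>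
    hn' p h ⟨1, U.one_mem, Or.inl ⟨one_smul _ _, one_smul _ _⟩⟩
  have h1 : P (insert p A) := by
    refine ⟨fun q hq => ?_, fun q hq r hr h => ?_⟩
    · rcases Finset.mem_insert.1 hq with rfl | hq
      · exact hp
      · exact hA.1 q hq
    · rcases Finset.mem_insert.1 hq with e | hq <;> rcases Finset.mem_insert.1 hr with e' | hr
      · exact e.trans e'.symm
      · exact absurd (e ▸ h) (hn' r hr)
      · exact absurd (e' ▸ h.symm) (hn' q hq)
      · exact hA.2 q hq r hr h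
  have h2 := bd _ h1
  have h3 := Finset.card_insert_of_notMem hp'
  have h4 : B - A.card ≤ B - (insert p A).card := hmin h1 (by
    show B - (insert p A).card ≤ B - A.card
    omega)
  omega

/-- Finitely many orbits of edges. -/
theorem orbits (V : VS U X) (hD : NTFin U X) (hB : ArcB U X) :
    ∃ R : Set (X × X), R.Finite ∧ (∀ p ∈ R, p.1 ≠ p.2) ∧
      ∀ x y : X, Nbr x y → ∃ g ∈ U, (g • x, g • y) ∈ R := by
  have := V.bact
  obtain ⟨A, hA, hA'⟩ := thick_fin hB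
  obtain ⟨D, hD, hD'⟩ := hD
  refine ⟨((A : Set (X × X)) ∪ Prod.swap '' (A : Set (X × X))) ∪
    ⋃ d ∈ D, {p | Nbr p.1 p.2 ∧ p.1 = d.1 ∧ p.2 ∈ dir d.1 d.2},
    (A.finite_toSet.union (A.finite_toSet.image _)).union
      (hD.biUnion fun d _ => Set.Subsingleton.finite fun p hp q hq => ?_), ?_, fun x y h => ?_⟩
  · exact Prod.ext (hp.2.1.trans hq.2.1.symm)
      (nbr_uniq (hp.2.1 ▸ hp.1) (hq.2.1 ▸ hq.1) hp.2.2 hq.2.2)
  · rintro p ((hp | ⟨q, hq, rfl⟩) | hp)
    · exact hA p hp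
    · exact (hA q hq).symm
    · obtain ⟨d, -, hd⟩ := Set.mem_iUnion₂.1 hp
      exact hd.1.1
  by_cases ht : Thick U x y
  · obtain ⟨c, hc, c1, cx, cy⟩ := ht
    have e : med x y (c • y) = y :=
      (h.2 _ (med_btw12 x y (c • y))).resolve_left (mem_dir_iff_med.1 cy)
    have cy' : c • y = y := fix_of (V.isom c hc) cx (btw_right x y) (med_eq_mid_iff.1 e)
    obtain ⟨q, hq, g, hg, h1⟩ := hA' (x, y) ⟨h, c, hc, c1, cx, cy'⟩
    refine ⟨g, hg, Or.inl (h1.imp (fun e => ?_) fun e => ⟨q, hq, ?_⟩)⟩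
    · have e' : (g • x, g • y) = q := Prod.ext e.1 e.2
      rw [e']
      exact hq
    · exact Prod.ext e.1.symm e.2.symm
  · obtain ⟨g, hg, d, hd, h1, h2⟩ := hD' x y h.1.symm ht
    exact ⟨g, hg, Or.inr (Set.mem_iUnion₂.2 ⟨d, hd, nbr_smul h g, h1, h2⟩)⟩

omit [MulAction G X] in
theorem seg_fin {ε : ℝ} (hε : 0 < ε) (h1 : ∀ x y : X, y ≠ x → ∃ m, Nbr x m ∧ Q2T1.Btw x m y)
    (h2 : ∀ x y : X, Nbr x y → ε ≤ dist x y) (x y : X) : (seg x y).Finite := by
  obtain ⟨n, hn⟩ := exists_nat_ge (dist x y / ε)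
  rw [div_le_iff₀ hε] at hn
  induction n generalizing x with
  | zero =>
    have e : x = y := dist_le_zero.1 (by simpa using hn)
    rw [e, seg_self]
    exact Set.finite_singleton _
  | succ n ih =>
    by_cases e : y = x
    · rw [e, seg_self]
      exact Set.finite_singleton _
    obtain ⟨m, hm, hb⟩ := h1 x y e
    have h3 := h2 x m hm
    have h4 : dist x m + dist m y = dist x y := hb
    push_cast at hn
    refine ((ih m (by linarith)).insert x).subset fun z hz => ?_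
    rcases Q2T1.Btw.total hz hb with h | h
    · rcases hm.2 z h with rfl | rfl
      · exact Or.inl rfl
      · exact Or.inr (btw_left _ _)
    · exact Or.inr (h.trans_left' hz)

end RSEG

theorem ofSEG : OfSEG := by
  intro _ _ G _ U X _ _ V hD hN hB hF
  have := V.tree
  obtain ⟨R, hR, h1, h2⟩ := RSEG.orbits V hD hB
  obtain ⟨ε, hε, h3⟩ : ∃ ε : ℝ, 0 < ε ∧ ∀ p ∈ R, ε ≤ dist p.1 p.2 := by
    rcases R.eq_empty_or_nonempty with e | e
    · exact ⟨1, one_pos, by simp [e]⟩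
    · obtain ⟨p, hp, hmin⟩ := Set.exists_min_image R (fun p => dist p.1 p.2) hR e
      exact ⟨_, dist_pos.2 (h1 p hp), hmin⟩
  refine ⟨RSEG.seg_fin hε (RSEG.start V hN hF) fun x y h => ?_, R, hR, h2⟩
  obtain ⟨g, hg, h4⟩ := h2 x y h
  rw [← V.isom g hg]
  exact h3 _ h4

end Pool.Agent.MP_3ce0a0_al.Q2T7
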