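import Pool.Agent.MP_3ce0a0_al.Q2T7.Spec
import Pool.Agent.MP_3ce0a0_al.Q2T4M.Cyc

/-! The case of a point, and the choice of the limit data. -/

set_option autoImplicit false

namespace Pool.Agent.MP_3ce0a0_al.Q2T7

open Q2T1 Q2T2 Q2T5 Filter

namespace RSET

theorem dist_ne (x y : Unit) : dist x y ≠ 1 := by
  rw [dist_eq_zero.2 (Subsingleton.elim x y)]
  exact zero_ne_one

theorem simp_unit : IsSimp Unit where
  four := fun _ _ _ _ => le_max_left _ _
  ex_med := fun x _ _ => ⟨x, by simp [Q2T1.Btw], by simp [Q2T1.Btw], by simp [Q2T1.Btw]⟩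
  int := fun x y => ⟨0, by simp⟩
  geo := fun x y h => absurd (Subsingleton.elim x y) h

end RSET

open RSET

theorem ofPT : OfPT := by
  intro L G _ U k a h ⟨M, hM, b, _, hb, hc⟩
  have e : ∀ x : Unit, St U x = U := fun x => Subgroup.ext fun g => ⟨fun k => k.1, fun k => ⟨k, rfl⟩⟩
  refine ⟨Unit, inferInstance, simp_unit, inferInstance, ⟨fun _ _ _ => rfl⟩, ⟨()⟩,
    ⟨⟨Set.univ, Set.finite_univ, fun _ => ⟨1, one_mem _, trivial⟩⟩,
      ⟨∅, Set.finite_empty, fun x y k => absurd k (dist_ne x y)⟩⟩,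
    fun _ _ _ k => absurd k (dist_ne _ _), fun x y k => absurd k (dist_ne x y),
    fun x => (e x).symm ▸ L.fg h.free, fun x => (e x).symm ▸ L.nab h.free h.two,
    ⟨M, hM, fun _ => b, fun v => ⟨hb, rfl, fun u hu => hc u ⟨hu.1, trivial⟩⟩,
      fun x y k => absurd k (dist_ne x y)⟩, fun _ _ _ => ⟨(), rfl⟩⟩

theorem ofSET : OfSET := by
  intro L G _ U k a h hn
  haveI := h.nrm
  obtain ⟨e⟩ := h.free
  haveI : Nonempty (Fin k) := ⟨⟨0, lt_of_lt_of_le two_pos h.two⟩⟩
  let ι : FreeGroup (Fin k) →* G := U.subtype.comp e.symm.toMonoidHom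
  let cj : G →* MulAut (FreeGroup (Fin k)) := (MulAut.congr e).toMonoidHom.comp MulAut.conjNormal
  have inj : Function.Injective ι := Subtype.val_injective.comp e.symm.injective
  have cjs : ∀ g w, ι (cj g w) = g * ι w * g⁻¹ := fun g w =>
    congrArg Subtype.val (e.symm_apply_apply (MulAut.conjNormal g (e.symm w)))
  let nr : G → ℕ := fun b => Finset.univ.sup fun i => (cj b (FreeGroup.of i)).norm
  have ex : ∀ j : ℕ, ∃ b, Lift U a j.factorial b ∧ ∀ b', Lift U a j.factorial b' → nr b ≤ nr b' :=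
    fun j => by
      obtain ⟨b, h1, h2⟩ := (measure nr).wf.has_min {b | Lift U a j.factorial b}
        ⟨a ^ j.factorial, by
          change _ * _ ∈ U
          rw [mul_inv_cancel]
          exact one_mem _⟩
      exact ⟨b, h1, fun b' k => not_lt.1 (h2 b' k)⟩
  choose b h1 h2 using ex
  have base : ∀ j i, (cj (b j) (FreeGroup.of i)).norm ≤ nr (b j) := fun j i =>
    Finset.le_sup (f := fun i => (cj (b j) (FreeGroup.of i)).norm) (Finset.mem_univ i)
  refine ⟨ι, cj, b, fun j => nr (b j), inj, ?_, cjs, h1, base, fun j u => ?_, ?_⟩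
  · ext g
    exact ⟨fun ⟨w, hw⟩ => hw ▸ (e.symm w).2,
      fun hg => ⟨e ⟨g, hg⟩, congrArg Subtype.val (e.symm_apply_apply _)⟩⟩
  · obtain ⟨i, -, hi⟩ := Finset.exists_mem_eq_sup Finset.univ Finset.univ_nonempty
      fun i => (cj (ι u * b j) (FreeGroup.of i)).norm
    refine ⟨i, (h2 j _ (L.lleft (h1 j) (e.symm u).2)).trans (hi.trans (congrArg _ (inj ?_))).le⟩
    rw [map_mul ι, map_mul ι, map_inv, cjs, cjs]
    group
  · refine tendsto_atTop.2 fun C => by_contra fun hC => hn ?_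
    have h3 := Nat.frequently_atTop_iff_infinite.1
      ((not_eventually.1 hC).and_eventually (eventually_gt_atTop 0))
    obtain ⟨j, hj, l, -, hjl, k⟩ := h3.exists_lt_map_eq_of_mapsTo
      (f := fun j => (cj (b j)).toMonoidHom)
      (t := {f | ∀ i, (f (FreeGroup.of i)).norm ≤ C})
      (fun j hj i => (base j i).trans (not_le.1 hj.1).le) (Q2T4M.hom_finite C)
    have h4 := (Nat.factorial_lt hj.2).2 hjl
    have h5 : cj (b j) = cj (b l) := MulEquiv.ext fun w => DFunLike.congr_fun k w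
    refine ⟨l.factorial - j.factorial, Nat.sub_pos_of_lt h4, b l * (b j)⁻¹, trivial, ?_,
      fun u hu => ?_⟩
    · have h6 := mul_mem (h1 l) (h.nrm.conj_mem _ (inv_mem (h1 j)) (a ^ (l.factorial - j.factorial)))
      have h7 : a ^ l.factorial = a ^ (l.factorial - j.factorial) * a ^ j.factorial := by
        rw [← pow_add, Nat.sub_add_cancel h4.le]
      rw [h7] at h6
      change _ * _ ∈ U
      generalize a ^ (l.factorial - j.factorial) = x at h6 ⊢
      generalize a ^ j.factorial = y at h6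
      rwa [show b l * (x * y)⁻¹ * (x * (b j * y⁻¹)⁻¹ * x⁻¹) = b l * y⁻¹ * (b j * y⁻¹)⁻¹ * x⁻¹ by
        group, show b l * y⁻¹ * (b j * y⁻¹)⁻¹ = b l * (b j)⁻¹ by group] at h6
    · have h6 := cjs (b l * (b j)⁻¹) (e ⟨u, hu.1⟩)
      rw [map_mul, map_inv, h5, mul_inv_cancel, MulAut.one_apply,
        show ι (e ⟨u, hu.1⟩) = u from congrArg Subtype.val (e.symm_apply_apply _)] at h6
      exact mul_inv_eq_iff_eq_mul.1 h6.symm

end Pool.Agent.MP_3ce0a0_al.Q2T7
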