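import Pool.Agent.MP_3ce0a0_al.Q2T7.Spec

/-!
Rows SIDE and FIN of the Dehn twist structure.
-/

set_option autoImplicit false

namespace Pool.Agent.MP_3ce0a0_al.Q2T7

open Q2T1 Q2T2 Q2T5

section Aux

variable {G : Type} [Group G]

/-- The square of an element that normalises an infinite cyclic group centralises it. -/
theorem side_sq_comm (LA : LibA) (b c : G) (htf : ∀ n : ℤ, n ≠ 0 → c ^ n ≠ 1)
    (h1 : b * c * b⁻¹ ∈ Subgroup.zpowers c) (h2 : b⁻¹ * c * b ∈ Subgroup.zpowers c) :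
    Commute (b ^ 2) c := by
  rcases LA.sq b c htf h1 h2 with h | h
  · have hc : Commute b c := by
      have : b * c = c * b := by
        calc b * c = (b * c * b⁻¹) * b := by group
          _ = c * b := by rw [h]
      exact this
    exact hc.pow_left 2
  · have h3 : b * c⁻¹ * b⁻¹ = c := by
      calc b * c⁻¹ * b⁻¹ = (b * c * b⁻¹)⁻¹ := by group
        _ = c := by rw [h, inv_inv]
    have : b ^ 2 * c = c * b ^ 2 := by
      calc b ^ 2 * c = b * (b * c * b⁻¹) * b⁻¹ * b ^ 2 := by rw [pow_two]; group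
        _ = c * b ^ 2 := by rw [h, h3]
    exact this

theorem side_conj_mem {U : Subgroup G} [hU : U.Normal] {T : Type} [MulAction G T] {x : T}
    {b c : G} (hb : b • x = x) (hc : c ∈ St U x) : b * c * b⁻¹ ∈ St U x := by
  refine ⟨hU.conj_mem c hc.1 b, ?_⟩
  have hb' : b⁻¹ • x = x := by rw [inv_smul_eq_iff, hb]
  have hcx : c • x = x := hc.2
  change (b * c * b⁻¹) • x = x
  rw [mul_smul, mul_smul, hb', hcx, hb]

theorem side_conj_mem' {U : Subgroup G} [hU : U.Normal] {T : Type} [MulAction G T] {x : T}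
    {b c : G} (hb : b • x = x) (hc : c ∈ St U x) : b⁻¹ * c * b ∈ St U x := by
  have hb' : b⁻¹ • x = x := by rw [inv_smul_eq_iff, hb]
  have := side_conj_mem hb' hc
  rwa [inv_inv] at this

theorem side_twist {β c : G} (h : Commute β c) (m m' : ℕ) (s s' : ℤ) :
    c ^ (s' * m - s * m') * (c ^ s * β ^ m) ^ m' = (c ^ s' * β ^ m') ^ m := by
  have h1 : Commute (c ^ s) (β ^ m) := (h.symm.zpow_left s).pow_right m
  have h2 : Commute (c ^ s') (β ^ m') := (h.symm.zpow_left s').pow_right m'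
  rw [h1.mul_pow, h2.mul_pow, ← pow_mul, ← pow_mul, ← zpow_natCast (c ^ s), ← zpow_natCast (c ^ s'),
    ← zpow_mul, ← zpow_mul, ← mul_assoc, ← zpow_add, sub_add_cancel, mul_comm m m']

end Aux

theorem ofSIDE : OfSIDE := by
  intro LA _ G _ U k a T _ _ _ _ N H0 P hG x y b hxy htriv hb hbx hby hex
  have := H0.nrm
  by_cases hn : Nab U x
  · let H : Subgroup G := MulAction.stabilizer G x ⊓ MulAction.stabilizer G y
    have hHfi : (H ⊔ U).FiniteIndex := by
      obtain ⟨R, hR, hR'⟩ := P.co.finE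
      have h1 := LA.orb U (T × T) (x, y) R hR (fun h => by
        obtain ⟨g, hg, hgR⟩ := hR' (h • x) (h • y) (by rw [dist_smul]; exact hxy)
        exact ⟨g, hg, hgR⟩)
      have he : MulAction.stabilizer G ((x, y) : T × T) = H := by
        ext g
        rw [MulAction.mem_stabilizer_iff, Prod.smul_mk, Prod.mk.injEq]
        exact Iff.rfl
      rwa [he] at h1
    have hdis : ∀ h ∈ H, h ∈ U → h = 1 := fun h hh hu => htriv h hu hh.1 hh.2
    have hbH : b ∈ H := ⟨hbx, hby⟩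
    have hcen : ∀ h ∈ H, Commute b h := by
      intro h hh
      have h1 : b * h * b⁻¹ * h⁻¹ ∈ U := LA.lcen H0.cen hb h
      have h2 : b * h * b⁻¹ * h⁻¹ ∈ H :=
        H.mul_mem (H.mul_mem (H.mul_mem hbH hh) (H.inv_mem hbH)) (H.inv_mem hh)
      have h3 := hdis _ h2 h1
      have : b * h = h * b := by
        calc b * h = (b * h * b⁻¹ * h⁻¹) * (h * b) := by group
          _ = h * b := by rw [h3, one_mul]
      exact this
    obtain ⟨m, hm, g, hg, hg1, hc⟩ := (hG x hn).q1 H inf_le_left hHfi hdis b hbH N hb hcen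
    exact ⟨m, hm, g, hg.1, hg1, hg.2, hc⟩
  · have hab : ∀ g ∈ St U x, ∀ h ∈ St U x, Commute g h := by
      intro g hg h hh
      by_contra hc
      exact hn ⟨g, hg, h, hh, hc⟩
    obtain ⟨c, hc⟩ := LA.cyc H0.free (St U x) inf_le_left hab
    obtain ⟨g, hgU, hg1, hgx⟩ := hex
    have hcS : c ∈ St U x := by rw [hc]; exact Subgroup.mem_zpowers c
    have hc1 : c ≠ 1 := by
      rintro rfl
      have hg : g ∈ St U x := ⟨hgU, hgx⟩
      rw [hc, Subgroup.zpowers_one_eq_bot, Subgroup.mem_bot] at hg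
      exact hg1 hg
    have h1 := side_conj_mem hbx hcS
    have h2 := side_conj_mem' hbx hcS
    rw [hc] at h1 h2
    exact ⟨2, two_pos, c, hcS.1, hc1, hcS.2,
      side_sq_comm LA b c (LA.tf H0.free c hcS.1 hc1) h1 h2⟩

theorem ofFIN : OfFIN := by
  intro LA LT G _ U k a T _ _ _ _ N H0 P hA hG v
  have := H0.nrm
  rcases (hG v).q3 with h | ⟨p, hp, p', hp', t, htw, hpt, hpt'⟩
  · exact h
  exfalso
  have hpv : p • v = v := hp
  have hpv' : p' • v = v := hp'
  have hell : Ell T (p * p') := ⟨v, by rw [mul_smul, hpv', hpv]⟩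
  obtain ⟨a1, b1, c1, htri⟩ := P.vs.br v
  obtain ⟨w, _, _, _, hw, _, _⟩ := LT.nbr v a1 b1 c1 htri
  have hne : v ≠ w := by
    rintro rfl
    rw [dist_self] at hw
    exact zero_ne_one hw
  obtain ⟨g, hgU, hg1, hgv, hgw⟩ := hA v w hw
  obtain ⟨c, hc, hst⟩ := LT.edge H0.free P.vs v w hne g hgU hg1 hgv hgw
  obtain ⟨b, hb, hbv, hbw⟩ := P.triv v w hw
  have hcS : c ∈ St U v ⊓ St U w := by rw [hst]; exact Subgroup.mem_zpowers c
  have h1 : b * c * b⁻¹ ∈ St U v ⊓ St U w := ⟨side_conj_mem hbv hcS.1, side_conj_mem hbw hcS.2⟩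
  have h2 : b⁻¹ * c * b ∈ St U v ⊓ St U w := ⟨side_conj_mem' hbv hcS.1, side_conj_mem' hbw hcS.2⟩
  rw [hst] at h1 h2
  have hcomm : Commute (b ^ 2) c := side_sq_comm LA b c (LA.tf H0.free c hc.1 hc.2.1) h1 h2
  have hb2 : Lift U a (N * 2) (b ^ 2) := LA.lpow hb 2
  have hN : 0 < N * 2 := Nat.mul_pos P.pos two_pos
  have hbv2 : b ^ 2 ∈ MulAction.stabilizer G v :=
    Subgroup.pow_mem _ (MulAction.mem_stabilizer_iff.2 hbv) 2
  have hbw2 : b ^ 2 ∈ MulAction.stabilizer G w :=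
    Subgroup.pow_mem _ (MulAction.mem_stabilizer_iff.2 hbw) 2
  obtain ⟨m, hm, s, u, hu, huc, hcu⟩ := (hG v).q2 (b ^ 2) hbv2 (N * 2) hN hb2 c hcS.1.2 hc hcomm
  obtain ⟨m', hm', s', u', hu', huc', hcu'⟩ :=
    (hG w).q2 (b ^ 2) hbw2 (N * 2) hN hb2 c hcS.2.2 hc hcomm
  have hcc : ∀ r : G, r ∈ St U v ⊓ St U w → Commute r c := by
    intro r hr
    rw [hst] at hr
    obtain ⟨n, rfl⟩ := hr
    exact (Commute.refl c).zpow_left n
  have huw : u • w ≠ w := fun h => huc (hcc u ⟨hu, hu.1, h⟩)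
  have huv' : u' • v ≠ v := fun h => huc' (hcc u' ⟨⟨hu'.1, h⟩, hu'⟩)
  have htw' : Tw U a u u' (c ^ (s' * m - s * m')) := by
    refine ⟨hu.1, hu'.1, U.zpow_mem hc.1 _, N * 2 * m * m', Nat.mul_pos (Nat.mul_pos hN hm) hm',
      (c ^ s * (b ^ 2) ^ m) ^ m', ?_, hcu.pow_left m', ?_, ?_⟩
    · exact LA.lpow (LA.lleft (LA.lpow hb2 m) (U.zpow_mem hc.1 s)) m'
    · exact (((((Commute.refl c).zpow_left s).mul_left (hcomm.pow_left m)).pow_left m').zpow_right _)
    · rw [side_twist hcomm m m' s s']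
      exact hcu'.pow_left m
  exact LT.ne2 u u' v w hw hu.2 huw hu'.2 huv' (P.grow u u' _ p p' t htw' htw hpt hpt' hell)

end Pool.Agent.MP_3ce0a0_al.Q2T7
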