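import Pool.Agent.MP_3ce0a0_al.Q2T7.Spec

/-! The standing hypotheses pass to a subgroup. -/

set_option autoImplicit false

namespace Pool.Agent.MP_3ce0a0_al.Q2T7

namespace RTR1

variable {G : Type} [Group G] (U E : Subgroup G)

/-- The two forms of the intersection. -/
def eqv : U.subgroupOf E ≃* (U ⊓ E : Subgroup G) where
  toFun x := ⟨x.1.1, x.2, x.1.2⟩
  invFun y := ⟨⟨y.1, y.2.2⟩, y.2.1⟩
  left_inv _ := rfl
  right_inv _ := rfl
  map_mul' _ _ := rfl

variable {U E} {a : G} {N : ℕ} {al : E}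

theorem lift_iff (A : LibA) [U.Normal] (h : Lift U a N al) (M : ℕ) (b : E) :
    Lift (U.subgroupOf E) al M b ↔ Lift U a (N * M) b := by
  have h1 := A.lpow h M
  refine ⟨fun k => ?_, fun k => A.ldiv (U := U) k h1⟩
  have k' : (b : G) * ((al : G) ^ M)⁻¹ ∈ U := k
  have := A.lleft h1 k'
  rwa [inv_mul_cancel_right] at this

theorem per_iff (A : LibA) [U.Normal] (hN : 0 < N) (h : Lift U a N al) (g : E) :
    Per (U.subgroupOf E) al g ↔ PerE U a E g := by
  constructor
  · rintro ⟨M, hM, b, h1, h2⟩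
    exact ⟨N * M, Nat.mul_pos hN hM, b, b.2, (lift_iff A h M b).mp h1, h2.map E.subtype⟩
  · rintro ⟨M, hM, b, hb, h1, h2⟩
    refine ⟨M, hM, ⟨b, hb⟩ ^ N, (lift_iff A h M _).mpr ?_, Subtype.ext (h2.pow_left N).eq⟩
    rw [mul_comm]
    exact A.lpow h1 N

end RTR1

theorem ofTR1 : OfTR1 := by
  intro A G _ U k a E N al H hE hN hal hfg hna
  have := H.nrm
  obtain ⟨⟨e⟩, h2⟩ := A.rk H.free (U ⊓ E) inf_le_left hfg
  refine ⟨⟨inferInstance, ⟨(RTR1.eqv U E).trans e⟩, h2 hna, fun b => A.lcen H.cen hal b, ?_⟩, ?_⟩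
  · intro H' hH f hf h M hM
    have h3 : (H'.map E.subtype ⊔ U).FiniteIndex := by
      have h4 := A.fi U ((H' ⊔ U.subgroupOf E).map E.subtype) E (Subgroup.map_subtype_le _) (by
        rw [Subgroup.relIndex, Subgroup.subgroupOf,
          Subgroup.comap_map_eq_self_of_injective E.subtype_injective]
        exact hH.index_ne_zero) hE
      refine Subgroup.finiteIndex_of_le (H := (H' ⊔ U.subgroupOf E).map E.subtype ⊔ U) ?_
      rw [Subgroup.map_sup, Subgroup.subgroupOf_map_subtype]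
      exact sup_le (sup_le le_sup_left (inf_le_left.trans le_sup_right)) le_sup_right
    let q := H'.equivMapOfInjective E.subtype E.subtype_injective
    have h5 := H.star _ h3 (f.comp q.symm.toMonoidHom) (fun x hx => by
      obtain ⟨y, rfl⟩ := q.surjective x
      simpa using hf y hx) (q h) (N * M) ((RTR1.lift_iff A hal M h).mp hM)
    simpa using h5
  · refine (LinearEquiv.ofSubmodules (Q2T3.Hm.congr (RTR1.eqv U E)) _ _ ?_).finrank_eq.symm
    ext l
    constructor
    · rintro ⟨l', hl', rfl⟩ g hg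
      exact hl' (RTR1.eqv U E g) ((RTR1.per_iff A hN hal g).mp hg)
    · intro hl
      refine ⟨(Q2T3.Hm.congr (RTR1.eqv U E)).symm l, fun g hg => ?_,
        (Q2T3.Hm.congr (RTR1.eqv U E)).apply_symm_apply l⟩
      exact hl ((RTR1.eqv U E).symm g) ((RTR1.per_iff A hN hal _).mpr hg)

end Pool.Agent.MP_3ce0a0_al.Q2T7
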