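import Pool.Agent.MP_3ce0a0_al.Q2T7.Spec

/-!
Row TR2: the conclusions about a vertex group come back from the subgroup.
-/

set_option autoImplicit false

namespace Pool.Agent.MP_3ce0a0_al.Q2T7

namespace RTR2

variable {G : Type} [Group G] {U E : Subgroup G} {a : G} {N : ℕ} {al : E}

theorem up (A : LibA) [U.Normal] (h : Lift U a N al) {M : ℕ} {b : E}
    (hb : Lift (U.subgroupOf E) al M b) : Lift U a (N * M) (b : G) := by
  have h1 : (b : G) * ((al : G) ^ M)⁻¹ ∈ U := hb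
  have h2 := A.lleft (A.lpow h M) h1
  rwa [inv_mul_cancel_right] at h2

theorem down (A : LibA) [U.Normal] (h : Lift U a N al) {M : ℕ} {b : E}
    (hb : Lift U a M (b : G)) : Lift (U.subgroupOf E) al M (b ^ N) := by
  have h1 := A.lpow hb N
  rw [mul_comm] at h1
  have h2 : (b : G) ^ N * ((al : G) ^ M)⁻¹ ∈ U := A.ldiv h1 (A.lpow h M)
  exact h2

theorem comm {x y : E} : Commute x y ↔ Commute (x : G) (y : G) :=
  ⟨fun h => congrArg Subtype.val h.eq, fun h => Subtype.ext h.eq⟩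

theorem fi [U.Normal] {H : Subgroup G} (hH : H ≤ E) (h : (H ⊔ U).FiniteIndex) :
    (H.subgroupOf E ⊔ U.subgroupOf E).FiniteIndex := by
  refine Subgroup.finiteIndex_of_le (H := (H ⊔ U).subgroupOf E) fun x hx => ?_
  obtain ⟨y, hy, u, hu, e⟩ := Subgroup.mem_sup_of_normal_right.1 hx
  have hu' : u ∈ E := by
    have h1 : u = y⁻¹ * (x : G) := by rw [eq_inv_mul_iff_mul_eq]; exact e
    rw [h1]
    exact E.mul_mem (E.inv_mem (hH hy)) x.2
  have h2 : x = (⟨y, hH hy⟩ : E) * ⟨u, hu'⟩ := Subtype.ext e.symm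
  rw [h2]
  exact Subgroup.mul_mem_sup hy hu

end RTR2

open RTR2 in
/-- Row TR2. -/
theorem ofTR2 : OfTR2 := by
  intro A G _ U a E N al _ hN hal hG
  refine ⟨fun H hH hfi hd b hb M hM hc => ?_, fun b hb M hM0 hM c hc hmc hbc => ?_, ?_⟩
  · obtain ⟨m, hm, g, hg, hg1, hcg⟩ := hG.q1 (H.subgroupOf E) le_top (fi hH hfi)
      (fun h h1 h2 => Subtype.ext (hd h h1 h2)) ((⟨b, hH hb⟩ : E) ^ N)
      (Subgroup.pow_mem _ (Subgroup.mem_subgroupOf.2 hb) N) M (down A hal hM)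
      (fun h h1 => comm.2 ((hc h h1).pow_left N))
    refine ⟨N * m, Nat.mul_pos hN hm, g, ⟨hg.1, g.2⟩, fun e => hg1 (Subtype.ext e), ?_⟩
    rw [pow_mul]
    exact comm.1 hcg
  · have hmc' : MaxC (U.subgroupOf E) (⟨c, hc⟩ : E) := by
      refine ⟨hmc.1, fun e => hmc.2.1 (congrArg Subtype.val e), fun g hg hgc => ?_⟩
      obtain ⟨n, hn⟩ := hmc.2.2 g hg (comm.1 hgc)
      exact ⟨n, Subtype.ext hn⟩
    obtain ⟨m, hm, s, u, hu, h1, h2⟩ := hG.q2 ((⟨b, hb⟩ : E) ^ N) trivial M hM0 (down A hal hM)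
      ⟨c, hc⟩ trivial hmc' (comm.2 (hbc.pow_left N))
    refine ⟨N * m, Nat.mul_pos hN hm, s, u, ⟨hu.1, u.2⟩, fun e => h1 (comm.2 e), ?_⟩
    rw [pow_mul]
    exact comm.1 h2
  · rcases hG.q3 with ⟨M, hM, b, -, hb, hc⟩ |
      ⟨u, -, u', -, z, ⟨h1, h2, h3, M, hM, b, hb, h4, h5, h6⟩, h7, h8⟩
    · exact Or.inl ⟨N * M, Nat.mul_pos hN hM, b, b.2, up A hal hb, fun u hu =>
        comm.1 (hc ⟨u, hu.2⟩ ⟨hu.1, trivial⟩)⟩
    · exact Or.inr ⟨u, u.2, u', u'.2, z, ⟨h1, h2, h3, N * M, Nat.mul_pos hN hM, b, up A hal hb,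
        comm.1 h4, comm.1 h5, comm.1 h6⟩, fun e => h7 (comm.2 e), fun e => h8 (comm.2 e)⟩

end Pool.Agent.MP_3ce0a0_al.Q2T7
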