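import Pool.Agent.MP_3ce0a0_al.Q2T7.Spec
import Pool.Agent.MP_3ce0a0_al.Q2T4A.BP

/-! Rows UP and LOW: the growth of periodic and of twisted classes. -/

set_option autoImplicit false

namespace Pool.Agent.MP_3ce0a0_al.Q2T7

open Filter

namespace RUP

variable {G : Type} [Group G] {U : Subgroup G} {k : ℕ} {a : G} {ι : FreeGroup (Fin k) →* G}
  {cj : G →* MulAut (FreeGroup (Fin k))} {b : ℕ → G} {μ : ℕ → ℕ}

theorem cyc_le (s w : FreeGroup (Fin k)) : cyc (s * w * s⁻¹) ≤ w.norm :=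
  Nat.sInf_le ⟨s⁻¹, congrArg FreeGroup.norm (by group)⟩

theorem cyc_mem (w : FreeGroup (Fin k)) : ∃ g, cyc w = (g * w * g⁻¹).norm :=
  Nat.sInf_mem (s := {n | ∃ u : FreeGroup (Fin k), n = (u * w * u⁻¹).norm}) ⟨_, 1, rfl⟩

theorem pull (L : Lim U k a ι cj b μ) {u : G} (hu : u ∈ U) : ∃ w, ι w = u := by
  rwa [← L.ran] at hu

theorem dec (A : LibA) [U.Normal] (L : Lim U k a ι cj b μ) {M : ℕ} {c : G} (hM : 0 < M)
    (hc : Lift U a M c) {j : ℕ} (hj : M ≤ j) :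
    ∃ n s, j.factorial = M * n ∧ b j = ι s * c ^ n := by
  obtain ⟨n, hn⟩ := Nat.dvd_factorial hM hj
  obtain ⟨s, hs⟩ := pull L (A.ldiv (L.lift j) (hn ▸ A.lpow hc n))
  exact ⟨n, s, hn, by rw [hs, inv_mul_cancel_right]⟩

theorem form (A : LibA) [U.Normal] (L : Lim U k a ι cj b μ) {w : FreeGroup (Fin k)} {u u' z : G}
    (h : Tw U a u u' z) (hw : ι w = u * u') : ∃ (M : ℕ) (v v' t : FreeGroup (Fin k)), 0 < M ∧
      ι v = u ∧ ι v' = u' ∧ ι t = z ∧ ∀ j, M ≤ j → ∃ (n : ℕ) (s : FreeGroup (Fin k)),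
        j.factorial = M * n ∧ cj (b j) w = s * (v * (t ^ n)⁻¹ * v' * t ^ n) * s⁻¹ := by
  obtain ⟨h1, h2, h3, M, hM, c, hc, k1, k2, k3⟩ := h
  obtain ⟨v, rfl⟩ := pull L h1
  obtain ⟨v', rfl⟩ := pull L h2
  obtain ⟨t, rfl⟩ := pull L h3
  refine ⟨M, v, v', t, hM, rfl, rfl, rfl, fun j hj => ?_⟩
  obtain ⟨n, s, hn, hs⟩ := dec A L hM hc hj
  refine ⟨n, s, hn, L.inj ?_⟩
  have e1 := (k1.pow_left n).eq
  have e2 := (k3.pow_left n).eq
  rw [k2.symm.mul_pow] at e2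
  have e3 : c ^ n * ι v' = (ι t ^ n)⁻¹ * ι v' * ι t ^ n * c ^ n := by
    rw [mul_assoc, mul_assoc, ← e2]
    group
  rw [L.cjs]
  simp only [hs, hw, map_mul, map_inv, map_pow]
  calc ι s * c ^ n * (ι v * ι v') * (ι s * c ^ n)⁻¹
      = ι s * (c ^ n * ι v) * ι v' * (ι s * c ^ n)⁻¹ := by group
    _ = ι s * ι v * (c ^ n * ι v') * (ι s * c ^ n)⁻¹ := by rw [e1]; group
    _ = _ := by rw [e3]; group

end RUP

open RUP in
theorem ofUP : OfUP := by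
  intro A G _ U k a ι cj b μ hU L
  refine ⟨fun w ⟨M, hM, c, hc, h⟩ => ⟨w.norm, ?_⟩, fun w u u' z h hw => ?_⟩
  · filter_upwards [eventually_ge_atTop M] with j hj
    obtain ⟨n, s, -, hs⟩ := dec A L hM hc hj
    have : cj (b j) w = s * w * s⁻¹ := L.inj (by
      rw [L.cjs, hs, map_mul, map_mul, map_inv, mul_assoc (ι s), (h.pow_left n).eq]
      group)
    rw [this]
    exact cyc_le s w
  · obtain ⟨M, v, v', t, hM, -, -, -, H⟩ := form A L h hw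
    refine ⟨v.norm + v'.norm + 2 * t.norm, ?_⟩
    filter_upwards [eventually_ge_atTop M] with j hj
    obtain ⟨n, s, hn, hs⟩ := H j hj
    rw [hs]
    have h1 := FreeGroup.norm_mul_le (v * (t ^ n)⁻¹ * v') (t ^ n)
    have h2 := FreeGroup.norm_mul_le (v * (t ^ n)⁻¹) v'
    have h3 := FreeGroup.norm_mul_le v (t ^ n)⁻¹
    rw [FreeGroup.norm_inv_eq] at h3
    have h4 := Q2T4A.norm_pow_le' t n
    have h5 : n ≤ j.factorial := hn ▸ Nat.le_mul_of_pos_left n hM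
    have h6 := Nat.mul_le_mul_right t.norm h5
    have h7 := Nat.le_mul_of_pos_right (v.norm + v'.norm) j.factorial_pos
    refine (cyc_le s _).trans ?_
    nlinarith

open RUP in
theorem ofLOW : OfLOW := by
  intro A G _ U k a ι cj b μ hU L w u u' z h h1 h2 hw
  obtain ⟨M, v, v', t, hM, rfl, rfl, rfl, H⟩ := form A L h hw
  obtain ⟨K, hK⟩ := Q2T4A.conj_len (u := v) (u' := v') (c := t) (fun e => h1 (e.map ι))
    fun e => h2 (e.map ι)
  refine ⟨M, ?_⟩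
  filter_upwards [eventually_ge_atTop M, eventually_ge_atTop (M * K)] with j hj hj'
  obtain ⟨n, s, hn, hs⟩ := H j hj
  obtain ⟨g, hg⟩ := cyc_mem (cj (b j) w)
  have k1 := hK (-n) (g * s)
  have k2 : g * s * (v * t ^ (-(n : ℤ)) * v' * t ^ (- -(n : ℤ))) * (g * s)⁻¹ =
      g * cj (b j) w * g⁻¹ := by
    rw [hs, neg_neg, zpow_neg, zpow_natCast]
    group
  rw [k2, ← hg, Int.natAbs_neg, Int.natAbs_natCast] at k1
  have k3 : K ≤ n := Nat.le_of_mul_le_mul_left (hn ▸ hj'.trans j.self_le_factorial) hM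
  rw [hn]
  exact Nat.mul_le_mul_left M (by omega)

end Pool.Agent.MP_3ce0a0_al.Q2T7
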