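import Pool.Agent.MP_3ce0a0_al.Q2T7.Spec

/-! Walking away from an edge with trivial group one meets a vertex with non-trivial group. -/

set_option autoImplicit false

namespace Pool.Agent.MP_3ce0a0_al.Q2T7

open Q2T1 Q2T2 Q2T5

theorem ofWALK : OfWALK := by
  intro hA hT G _ U k a T _ _ _ _ N h0 hP x y b hxy he hb hx hy
  by_contra hn
  have := h0.nrm
  have H : ∀ x' y' : T, dist x' y' = 1 → (∀ g ∈ U, g • x' = x' → g • y' = y' → g = 1) →
      b • x' = x' → b • y' = y' → Btw x' x y → ∀ g ∈ U, g • x' = x' → g = 1 :=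
    fun x' y' h1 h2 h3 h4 h5 g hg h6 => by_contra fun h7 =>
      hn ⟨x', y', h1, h2, h3, h4, h5, g, hg, h7, h6⟩
  let P : T → Prop := fun p => b • p = p ∧ (∀ g ∈ U, g • p = p → g = 1) ∧ Btw p x y
  have step : ∀ p : {p // P p}, ∃ q : {p // P p}, dist q.1 p.1 = 1 ∧ Btw q.1 p.1 y := by
    rintro ⟨p, h1, h2, h3⟩
    obtain ⟨u, v, w, ht⟩ := hP.vs.br p
    obtain ⟨u, v, w, ht, d1, d2, d3⟩ := hT.nbr p u v w ht
    obtain ⟨q, k1, -, k2, -⟩ := ht.exists_away y y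
    have d : dist q p = 1 := by rcases k1 with rfl | rfl | rfl <;> rwa [dist_comm]
    obtain ⟨b', l1, l2, l3⟩ := hP.triv q p d
    have e : b' * b⁻¹ = 1 := h2 _ (hA.ldiv l1 hb) (by
      rw [mul_smul, inv_smul_eq_iff.2 h1.symm, l3])
    rw [mul_inv_eq_one.1 e] at l2
    have k3 := k2.symm.trans_right h3
    exact ⟨⟨q, l2, H q p d (fun g hg _ => h2 g hg) l2 h1 k3, k3⟩, d, k2.symm⟩
  choose f f1 f2 using step
  let p : ℕ → {p // P p} := fun n =>
    f^[n] ⟨x, hx, H x y hxy he hx hy (btw_left _ _), btw_left _ _⟩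
  have ps : ∀ n, p (n + 1) = f (p n) := fun n => Function.iterate_succ_apply' _ _ _
  have p1 : ∀ n, dist (p (n + 1)).1 (p n).1 = 1 := fun n => by rw [ps]; exact f1 _
  have p2 : ∀ n, Btw (p (n + 1)).1 (p n).1 y := fun n => by rw [ps]; exact f2 _
  have p3 : ∀ n, (p (n + 1)).1 ≠ (p n).1 := fun n e => by simpa [e] using p1 n
  have p4 : ∀ i j, i ≤ j → Btw (p j).1 (p i).1 y := fun i j h => by
    induction h with
    | refl => exact btw_left _ _
    | step _ ih => exact (p2 _).trans_right ih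
  obtain ⟨R, hR, hE⟩ := hP.co.finE
  choose g g1 g2 using fun n => hE _ _ (p1 n)
  obtain ⟨i, j, hij, e⟩ := hR.exists_lt_map_eq_of_forall_mem g2
  obtain ⟨e1, e2⟩ := Prod.mk.inj e
  have hu : (g j)⁻¹ * g i ∈ U := U.mul_mem (U.inv_mem (g1 j)) (g1 i)
  have u1 : ((g j)⁻¹ * g i) • (p (i + 1)).1 = (p (j + 1)).1 := by
    rw [mul_smul, e1, inv_smul_smul]
  have u2 : ((g j)⁻¹ * g i) • (p i).1 = (p j).1 := by rw [mul_smul, e2, inv_smul_smul]
  generalize (g j)⁻¹ * g i = u at hu u1 u2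
  have hc : b * u * b⁻¹ * u⁻¹ = 1 :=
    (p j).2.2.1 _ (U.mul_mem (this.conj_mem u hu b) (U.inv_mem hu)) (by
      rw [mul_smul, mul_smul, mul_smul, inv_smul_eq_iff.2 u2.symm,
        inv_smul_eq_iff.2 (p i).2.1.symm, u2, (p j).2.1])
  have hc' : Commute b u := mul_inv_eq_iff_eq_mul.1 (mul_inv_eq_one.1 hc)
  refine hT.shift u (dist_smul u) (p i).1 (p (i + 1)).1 (p3 i).symm ?_ ?_ ?_
    (hP.per u hu ⟨N, hP.pos, b, hb, hc'⟩)
  · rw [u1]
    exact fun e => p3 j ((p2 j).antisymm' (e ▸ p4 (i + 1) j hij))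
  · rw [u1]
    exact ((p4 (i + 1) (j + 1) (by omega)).trans_right' (p2 i)).symm
  · rw [u1, u2]
    exact fun h => p3 j (h.antisymm ((p2 j).trans_right' (p4 i j hij.le)).symm)

end Pool.Agent.MP_3ce0a0_al.Q2T7
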