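import Pool.Agent.MP_3ce0a0_al.Q2T7.Spec

/-! A non-thick direction whose interior points are thick towards the base is an edge. -/

set_option autoImplicit false

namespace Pool.Agent.MP_3ce0a0_al.Q2T7

open Q2T1 Q2T2 Q2T5

namespace RCLB

variable {G : Type} [Group G] {U Z : Subgroup G} {k : ℕ} {X : Type} [MetricSpace X]
  [MulAction G X] {x m : X}

theorem idx {e : G} (h : ∀ z ∈ Z, z * e * z⁻¹ = e ∨ z * e * z⁻¹ = e⁻¹) :
    (Subgroup.centralizer {e}).relIndex Z ≠ 0 := by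
  have k : ∀ z : G, z * e * z⁻¹ = e → z ∈ Subgroup.centralizer {e} := fun z hz =>
    Subgroup.mem_centralizer_singleton_iff.2 (mul_inv_eq_iff_eq_mul.1 hz)
  have : (Subgroup.centralizer {e}).relIndex Z ∣ 2 := by
    rw [Subgroup.relIndex_dvd_two_iff]
    by_cases h1 : ∃ a ∈ Z, a * e * a⁻¹ = e⁻¹
    · obtain ⟨a, ha, h1⟩ := h1
      refine ⟨a, ha, fun b hb => (h b hb).symm.imp (fun h2 => k _ ?_) (k b)⟩
      calc b * a * e * (b * a)⁻¹ = b * (a * e * a⁻¹) * b⁻¹ := by group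
        _ = (b * e * b⁻¹)⁻¹ := by rw [h1]; group
        _ = e := by rw [h2, inv_inv]
    · exact ⟨1, Z.one_mem, fun b hb => Or.inr (k b ((h b hb).resolve_right fun h2 =>
        h1 ⟨b, hb, h2⟩))⟩
  exact fun h0 => by simp [h0] at this

/-- Interior points. -/
def Int (x m p : X) : Prop := Btw x p m ∧ p ≠ x ∧ p ≠ m

theorem step (LT : LibT) (C : Core U k X) (hn : ¬ Thick U x m)
    (ht : ∀ p, Btw x p m → p ≠ x → p ≠ m → Thick U p x) {p : X} (hp : Int x m p) :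
    ∃ c ∈ U, c ≠ 1 ∧ c • p = p ∧ ∃ y, Int x m y ∧ y ≠ p ∧ Btw x y p ∧ c • y = y ∧
      ∀ q, c • q = q → Btw x y q := by
  have := C.vs.tree
  obtain ⟨c, hc, c1, h1, h2⟩ := ht p hp.1 hp.2.1 hp.2.2
  obtain ⟨h3, h4⟩ := LT.gate c (C.iso c) x p h1
  have h5 := med_btw13 x (c • x) p
  refine ⟨c, hc, c1, h1, _, ⟨h5.trans_left hp.1, fun e => hn ⟨c, hc, c1, by rwa [e] at h3, ?_⟩,
    fun e => hp.2.2 (hp.1.antisymm (e ▸ h5))⟩, ?_, h5, h3, h4⟩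
  · rw [e] at h3
    have h6 := C.vs.bact.btw c x p m hp.1
    rw [h3, h1] at h6
    rw [hp.1.dir_eq hp.2.1]
    exact h6.mem_dir hp.2.1
  · rw [← med_rot]
    exact mem_dir_iff_med.1 h2

theorem cent (LA : LibA) (LT : LibT) (C : Core U k X) (A : Arc U Z x m) {p y : X}
    (hp : Btw x p m) (hy : Btw x y m) {e : G} (he : MaxC U e)
    (h : St U p ⊓ St U y = Subgroup.zpowers e) : (Subgroup.centralizer {e}).relIndex Z ≠ 0 := by
  have := C.vs.tree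
  have h0 : e ∈ St U p ⊓ St U y := h ▸ Subgroup.mem_zpowers e
  have h1 : ∀ z ∈ Z, ∀ q, Btw x q m → e • q = q → (z * e * z⁻¹) • q = q := fun z hz q hq h2 => by
    have h3 := LT.seg z (C.iso z) x m q (A.fix z hz).1 (A.fix z hz).2 hq
    rw [mul_smul, mul_smul, inv_smul_eq_iff.2 h3.symm, h2, h3]
  have h2 : ∀ z ∈ Z, z * e * z⁻¹ ∈ Subgroup.zpowers e := fun z hz =>
    have a := C.nrm.conj_mem e he.1 z
    h ▸ ⟨⟨a, h1 z hz p hp h0.1.2⟩, ⟨a, h1 z hz y hy h0.2.2⟩⟩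
  exact idx fun z hz => LA.sq z e (LA.tf C.free e he.1 he.2.1) (h2 z hz)
    (by simpa using h2 _ (Z.inv_mem hz))

end RCLB

theorem ofCLB : OfCLB := by
  intro LA LT G _ U k X _ _ C Z x m A hn ht
  have := C.vs.tree
  have := C.nrm
  refine ⟨A.ne.symm, fun p hp => ?_⟩
  by_contra hc
  rw [not_or] at hc
  obtain ⟨c1, u1, n1, f1, y1, i1, d1, -, g1, t1⟩ := RCLB.step LT C hn ht ⟨hp, hc⟩
  obtain ⟨c2, u2, -, f2, y2, i2, d2, b2, g2, t2⟩ := RCLB.step LT C hn ht i1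
  obtain ⟨c3, u3, n3, f3, y3, i3, d3, b3, g3, -⟩ := RCLB.step LT C hn ht i2
  obtain ⟨e1, m1, s1⟩ := LT.edge C.free C.vs p y1 d1.symm c1 u1 n1 f1 g1
  obtain ⟨e3, m3, s3⟩ := LT.edge C.free C.vs y2 y3 d3.symm c3 u3 n3 f3 g3
  obtain ⟨a1, r1⟩ : c1 ∈ Subgroup.zpowers e1 := s1 ▸ ⟨⟨u1, f1⟩, ⟨u1, g1⟩⟩
  obtain ⟨a3, r3⟩ : c3 ∈ Subgroup.zpowers e3 := s3 ▸ ⟨⟨u3, f3⟩, ⟨u3, g3⟩⟩
  have k1 := RCLB.cent LA LT C A hp i1.1 m1 s1
  have k3 := RCLB.cent LA LT C A i2.1 i3.1 m3 s3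
  have hE : Ell X (c1 * c3) := C.ee _ (U.mul_mem u1 u3)
    (Subgroup.centralizer {e1} ⊓ Subgroup.centralizer {e3} ⊓ Z)
    (LA.fi U _ Z inf_le_right
      (by rw [Subgroup.inf_relIndex_right]; exact Subgroup.relIndex_inf_ne_zero k1 k3) A.fi)
    fun z hz => by
      have z1 : Commute z e1 := Subgroup.mem_centralizer_singleton_iff.1 hz.1.1
      have z3 : Commute z e3 := Subgroup.mem_centralizer_singleton_iff.1 hz.1.2
      rw [← r1, ← r3]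
      exact (z1.zpow_right a1).mul_right (z3.zpow_right a3)
  obtain ⟨q, q1, q3⟩ := LT.mul c1 c3 (C.iso _) (C.iso _) ⟨p, f1⟩ ⟨y2, f3⟩ hE
  have h1 : c3 • y1 = y1 := LT.seg c3 (C.iso _) y2 q y1 f3 q3 (b2.trans_left' (t1 q q1))
  have h3 : Commute c2 c3 := C.vs.v1 c2 u2 c3 u3 y1 y2 d2.symm f2 g2 h1 f3
  have h4 : Commute c3 e3 := r3 ▸ (Commute.refl e3).zpow_left a3
  have h5 : c2 ∈ St U y2 ⊓ St U y3 :=
    s3 ▸ m3.2.2 c2 u2 (LA.trans C.free c2 u2 c3 u3 e3 m3.1 n3 h3 h4)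
  exact d3 (b3.antisymm (t2 y3 h5.2.2))

end Pool.Agent.MP_3ce0a0_al.Q2T7
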