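import Pool.Agent.MP_3ce0a0_al.Q2T7.Spec

/-! Row Q: consequences of the Dehn twist structure. -/

set_option autoImplicit false

namespace Pool.Agent.MP_3ce0a0_al.Q2T7

open Q2T1 Q2T2 Q2T5

theorem ofQ : OfQ := by
  rintro A L G _ U k a h ⟨T, _, _, _, _, D⟩
  have := h.nrm
  have := D.ne
  obtain ⟨N, hN, al, hal, hed⟩ := D.tw
  have nc : ∀ (w : T), ∀ z ∈ U, z ≠ 1 → ∃ u ∈ St U w, ¬ Commute u z := fun w z hz h1 => by
    obtain ⟨g, hg, g', hg', hc⟩ := D.nab w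
    by_contra h2
    push Not at h2
    exact hc (A.trans h.free g hg.1 z hz g' hg'.1 h1 (h2 g hg) (h2 g' hg').symm)
  have dv : ∀ (w : T) (b : G) (M : ℕ), Lift U a M b → b ^ N * (al w ^ M)⁻¹ ∈ U :=
    fun w b M hb => A.ldiv (A.lpow hb N) (mul_comm N M ▸ A.lpow (hal w).1 M)
  refine ⟨fun H _ hH h1 b hb M hM hc => ?_, fun b _ M h0 hM c _ hc hbc => ?_, ?_⟩
  · rcases L.axis (T := T) H b hb hc with ⟨w, hw⟩ | ⟨f, hf⟩
    · have hs : (b ^ 2) ^ N * (al w ^ (M * 2))⁻¹ ∈ St U w :=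
        ⟨dv w _ _ (A.lpow hM 2), (MulAction.stabilizer G w).mul_mem (Subgroup.pow_mem _ hw _)
          (Subgroup.inv_mem _ (Subgroup.pow_mem _ (hal w).2.1 _))⟩
      refine ⟨2 * N, by omega, ?_⟩
      rw [pow_mul, ← inv_mul_cancel_right ((b ^ 2) ^ N) (al w ^ (M * 2))]
      generalize (b ^ 2) ^ N * (al w ^ (M * 2))⁻¹ = s at hs
      by_cases e : s = 1
      · obtain ⟨g, hg, g', -, h2⟩ := D.nab w
        refine ⟨g, ⟨hg.1, trivial⟩, fun h3 => h2 (h3 ▸ Commute.one_left g'), ?_⟩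
        rw [e, one_mul]
        exact ((hal w).2.2 g hg).pow_left _
      · exact ⟨s, ⟨hs.1, trivial⟩, e, (Commute.refl s).mul_left (((hal w).2.2 s hs).pow_left _)⟩
    · refine absurd (h.star H hH f (fun x hx => ?_) ⟨b, hb⟩ M hM) hf
      rw [show x = 1 from Subtype.ext (h1 x x.2 hx), map_one]
  · obtain ⟨w, hw⟩ := D.per c hc.1 ⟨M, h0, b, hM, hbc⟩
    obtain ⟨t, ht⟩ := hc.2.2 _ (dv w b M hM)
      ((hbc.pow_left N).mul_left (((hal w).2.2 c ⟨hc.1, hw⟩).pow_left M).inv_left)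
    obtain ⟨u, hu, h2⟩ := nc w c hc.1 hc.2.1
    refine ⟨N, hN, -t, u, ⟨hu.1, trivial⟩, h2, ?_⟩
    have e : c ^ t = b ^ N * (al w ^ M)⁻¹ := ht
    rw [zpow_neg, e, mul_inv_rev, inv_inv, inv_mul_cancel_right]
    exact ((hal w).2.2 u hu).pow_left M
  · by_cases he : ∃ v w : T, dist v w = 1
    · obtain ⟨v, w, hvw⟩ := he
      have hz : al w * (al v)⁻¹ ∈ St U v := ⟨A.ldiv (hal w).1 (hal v).1,
        (MulAction.stabilizer G v).mul_mem (hed w v (dist_comm v w ▸ hvw)).1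
          (Subgroup.inv_mem _ (hal v).2.1)⟩
      have h1 : al w * (al v)⁻¹ ≠ 1 := fun e => (hed v w hvw).2 (mul_inv_eq_one.1 e).symm
      obtain ⟨u, hu, h2⟩ := nc v _ hz.1 h1
      obtain ⟨u', hu', h3⟩ := nc w _ hz.1 h1
      refine Or.inr ⟨u, trivial, u', trivial, _, ⟨hu.1, hu'.1, hz.1, N, hN, al v, (hal v).1,
        (hal v).2.2 u hu, (hal v).2.2 _ hz, ?_⟩, h2, h3⟩
      rw [inv_mul_cancel_right]
      exact (hal w).2.2 u' hu'
    · obtain ⟨v⟩ := D.ne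
      refine Or.inl ⟨N, hN, al v, trivial, (hal v).1, fun u hu => (hal v).2.2 u ⟨hu.1, ?_⟩⟩
      by_contra h1
      obtain ⟨z, hz, -⟩ := IsSimp.geo (u • v) v h1
      exact he ⟨_, z, hz⟩

end Pool.Agent.MP_3ce0a0_al.Q2T7
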