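import Pool.Agent.MP_3ce0a0_al.Q2T7.Defs
import Pool.Agent.MP_3ce0a0_al.Q2T1.Act
import Pool.Agent.MP_3ce0a0_al.Q2T3.S

/-!
The simplicial lemma and the Dehn twist structure: the statements of the steps.
-/

set_option autoImplicit false

namespace Pool.Agent.MP_3ce0a0_al.Q2T7

open Q2T1 Q2T2 Q2T5 Filter

noncomputable section

/-! ### Shared facts -/

/-- Algebra of elements of a free subgroup `U` of an ambient group. -/
structure LibA : Prop where
  tf : ∀ {G : Type} [Group G] {U : Subgroup G} {k : ℕ}, FreeRk U k → ∀ g ∈ U, g ≠ 1 →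
    ∀ n : ℤ, n ≠ 0 → g ^ n ≠ 1
  trans : ∀ {G : Type} [Group G] {U : Subgroup G} {k : ℕ}, FreeRk U k → ∀ x ∈ U, ∀ y ∈ U, ∀ z ∈ U,
    y ≠ 1 → Commute x y → Commute y z → Commute x z
  conj : ∀ {G : Type} [Group G] {U : Subgroup G} {k : ℕ}, FreeRk U k → ∀ s ∈ U, ∀ c ∈ U, c ≠ 1 →
    Commute c (s * c * s⁻¹) → Commute s c
  maxc : ∀ {G : Type} [Group G] {U : Subgroup G} {k : ℕ}, FreeRk U k → ∀ g ∈ U, g ≠ 1 →
    ∃ c, MaxC U c ∧ g ∈ Subgroup.zpowers c
  cyc : ∀ {G : Type} [Group G] {U : Subgroup G} {k : ℕ}, FreeRk U k → ∀ V : Subgroup G, V ≤ U →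
    (∀ x ∈ V, ∀ y ∈ V, Commute x y) → ∃ c, V = Subgroup.zpowers c
  nab : ∀ {G : Type} [Group G] {U : Subgroup G} {k : ℕ}, FreeRk U k → 2 ≤ k →
    ∃ g ∈ U, ∃ h ∈ U, ¬ Commute g h
  fg : ∀ {G : Type} [Group G] {U : Subgroup G} {k : ℕ}, FreeRk U k → U.FG
  rk : ∀ {G : Type} [Group G] {U : Subgroup G} {k : ℕ}, FreeRk U k → ∀ V : Subgroup G, V ≤ U →
    V.FG → FreeRk V (Q2T3.rk V) ∧ ((∃ g ∈ V, ∃ h ∈ V, ¬ Commute g h) → 2 ≤ Q2T3.rk V)
  sq : ∀ {G : Type} [Group G] (b c : G), (∀ n : ℤ, n ≠ 0 → c ^ n ≠ 1) →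
    b * c * b⁻¹ ∈ Subgroup.zpowers c → b⁻¹ * c * b ∈ Subgroup.zpowers c →
    b * c * b⁻¹ = c ∨ b * c * b⁻¹ = c⁻¹
  lpow : ∀ {G : Type} [Group G] {U : Subgroup G} [U.Normal] {a b : G} {N : ℕ}, Lift U a N b →
    ∀ m : ℕ, Lift U a (N * m) (b ^ m)
  lmul : ∀ {G : Type} [Group G] {U : Subgroup G} [U.Normal] {a b b' : G} {N N' : ℕ},
    Lift U a N b → Lift U a N' b' → Lift U a (N + N') (b * b')
  ldiv : ∀ {G : Type} [Group G] {U : Subgroup G} {a b b' : G} {N : ℕ},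
    Lift U a N b → Lift U a N b' → b * b'⁻¹ ∈ U
  lleft : ∀ {G : Type} [Group G] {U : Subgroup G} {a b u : G} {N : ℕ},
    Lift U a N b → u ∈ U → Lift U a N (u * b)
  lconj : ∀ {G : Type} [Group G] {U : Subgroup G} [U.Normal] {a b u : G} {N : ℕ},
    Lift U a N b → u ∈ U → Lift U a N (u * b * u⁻¹)
  lcen : ∀ {G : Type} [Group G] {U : Subgroup G} [U.Normal] {a b : G} {N : ℕ},
    (∀ h, a * h * a⁻¹ * h⁻¹ ∈ U) → Lift U a N b → ∀ h, b * h * b⁻¹ * h⁻¹ ∈ U
  orb : ∀ {G : Type} [Group G] (U : Subgroup G) [U.Normal] (Y : Type) [MulAction G Y] (y : Y)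
    (R : Set Y), R.Finite → (∀ h : G, ∃ g ∈ U, g • h • y ∈ R) →
    (MulAction.stabilizer G y ⊔ U).FiniteIndex
  fi : ∀ {G : Type} [Group G] (U : Subgroup G) [U.Normal] (H Z : Subgroup G), H ≤ Z →
    H.relIndex Z ≠ 0 → (Z ⊔ U).FiniteIndex → (H ⊔ U).FiniteIndex

/-- Isometries of tree-spaces, element by element. -/
structure LibT : Prop where
  seg : ∀ {G X : Type} [Group G] [MetricSpace X] [IsTree X] [MulAction G X] (g : G),
    (∀ x y : X, dist (g • x) (g • y) = dist x y) → ∀ x y p : X, g • x = x → g • y = y →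
    Btw x p y → g • p = p
  gate : ∀ {G X : Type} [Group G] [MetricSpace X] [IsTree X] [MulAction G X] (g : G),
    (∀ x y : X, dist (g • x) (g • y) = dist x y) → ∀ x p : X, g • p = p →
    g • med x (g • x) p = med x (g • x) p ∧ ∀ q, g • q = q → Btw x (med x (g • x) p) q
  mul : ∀ {G X : Type} [Group G] [MetricSpace X] [IsTree X] [MulAction G X] (g h : G),
    (∀ x y : X, dist (g • x) (g • y) = dist x y) → (∀ x y : X, dist (h • x) (h • y) = dist x y) →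
    Ell X g → Ell X h → Ell X (g * h) → ∃ q : X, g • q = q ∧ h • q = q
  shift : ∀ {G X : Type} [Group G] [MetricSpace X] [IsTree X] [MulAction G X] (g : G),
    (∀ x y : X, dist (g • x) (g • y) = dist x y) → ∀ x p : X, x ≠ p → g • p ≠ p →
    Btw x p (g • p) → g • x ∈ dir (g • p) x → ¬ Ell X g
  side : ∀ {T : Type} [MetricSpace T] [IsSimp T] (x y : T), dist x y = 1 → ∀ q : T,
    Btw q x y ∨ Btw q y x
  edge : ∀ {G X : Type} [Group G] {U : Subgroup G} {k : ℕ} [MetricSpace X] [MulAction G X],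
    FreeRk U k → VS U X → ∀ x y : X, x ≠ y → ∀ g ∈ U, g ≠ 1 → g • x = x → g • y = y →
    ∃ c, MaxC U c ∧ St U x ⊓ St U y = Subgroup.zpowers c
  ne2 : ∀ {G T : Type} [Group G] [MetricSpace T] [IsSimp T] [MulAction G T] [IsIsometricSMul G T]
    (u u' : G) (v w : T), dist v w = 1 → u • v = v → u • w ≠ w → u' • w = w → u' • v ≠ v →
    ¬ Ell T (u * u')
  nbr : ∀ {T : Type} [MetricSpace T] [IsSimp T] (x a b c : T), Tri x a b c →
    ∃ a' b' c', Tri x a' b' c' ∧ dist x a' = 1 ∧ dist x b' = 1 ∧ dist x c' = 1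
  axis : ∀ {G T : Type} [Group G] [MetricSpace T] [IsSimp T] [Nonempty T] [MulAction G T]
    [IsIsometricSMul G T] (H : Subgroup G) (b : G) (hb : b ∈ H), (∀ h ∈ H, Commute b h) →
    Ell T (b ^ 2) ∨ ∃ f : H →* Multiplicative ℝ, f ⟨b, hb⟩ ≠ 1

/-! ### The simplicial lemma -/

section SL

variable {G : Type} [Group G]

/-- Elements centralised by a subgroup of finite index modulo `U` are elliptic. -/
def EE (U : Subgroup G) (X : Type) [MulAction G X] : Prop :=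
  ∀ g ∈ U, ∀ H : Subgroup G, (H ⊔ U).FiniteIndex → (∀ z ∈ H, Commute z g) → Ell X g

/-- Finitely many orbits of non-thick directions. -/
def NTFin (U : Subgroup G) (X : Type) [MetricSpace X] [MulAction G X] : Prop :=
  ∃ D : Set (X × X), D.Finite ∧ ∀ x y : X, y ≠ x → ¬ Thick U x y →
    ∃ g ∈ U, ∃ d ∈ D, g • x = d.1 ∧ g • y ∈ dir d.1 d.2

/-- The data of the isometric case. -/
structure Core (U : Subgroup G) (k : ℕ) (X : Type) [MetricSpace X] [MulAction G X] : Prop where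
  nrm : U.Normal
  free : FreeRk U k
  gen : ∃ s : Set G, s.Finite ∧ Subgroup.closure s ⊔ U = ⊤
  iso : ∀ (g : G) (x y : X), dist (g • x) (g • y) = dist x y
  vs : VS U X
  nt : NTFin U X
  ee : EE U X

/-- `Z` is a complement of `U` up to finite index that fixes `x` and `m`. -/
structure Arc (U Z : Subgroup G) {X : Type} [MulAction G X] (x m : X) : Prop where
  fi : (Z ⊔ U).FiniteIndex
  dis : ∀ z ∈ Z, z ∈ U → z = 1
  ne : m ≠ x
  fix : ∀ z ∈ Z, z • x = x ∧ z • m = m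

/-- Every non-thick direction starts with an edge. -/
def NTE (U : Subgroup G) (X : Type) [MetricSpace X] [MulAction G X] : Prop :=
  ∀ x y : X, y ≠ x → ¬ Thick U x y → ∃ m, Nbr x m ∧ Btw x m y

/-- Families of thick arcs whose translates do not overlap are bounded. -/
def ArcB (U : Subgroup G) (X : Type) [MetricSpace X] [MulAction G X] : Prop :=
  ∃ B : ℕ, ∀ A : Finset (X × X),
    (∀ p ∈ A, p.1 ≠ p.2 ∧ ∃ c ∈ U, c ≠ 1 ∧ c • p.1 = p.1 ∧ c • p.2 = p.2) →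
    (∀ p ∈ A, ∀ q ∈ A, ∀ g ∈ U, ∀ y w : X, y ≠ w → Btw (g • p.1) y (g • p.2) →
      Btw (g • p.1) w (g • p.2) → Btw q.1 y q.2 → Btw q.1 w q.2 → p = q) → A.card ≤ B

/-- Fixed sets are finite. -/
def FixF (U : Subgroup G) (X : Type) [MulAction G X] : Prop :=
  ∀ c ∈ U, c ≠ 1 → {q : X | c • q = q}.Finite

/-- Segments are finite and there are finitely many orbits of edges. -/
def SegF (U : Subgroup G) (X : Type) [MetricSpace X] [MulAction G X] : Prop :=
  (∀ x y : X, (seg x y).Finite) ∧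
    ∃ R : Set (X × X), R.Finite ∧ ∀ x y : X, Nbr x y → ∃ g ∈ U, (g • x, g • y) ∈ R

end SL

/-- Row NTF. -/
def SNTF : Prop := ∀ (G : Type) [Group G] (U : Subgroup G) (X : Type) [MetricSpace X]
  [MulAction G X], VS U X → Idx U X → NTFin U X

/-- Row ARC. -/
def SARC : Prop := ∀ (G : Type) [Group G] (U : Subgroup G) (k : ℕ) (X : Type) [MetricSpace X]
  [MulAction G X], Core U k X → ∀ x y : X, y ≠ x → ¬ Thick U x y →
  ∃ (Z : Subgroup G) (m : X), Arc U Z x m ∧ Btw x m y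

/-- Row CLA. -/
def SCLA : Prop := ∀ (G : Type) [Group G] (U : Subgroup G) (k : ℕ) (X : Type) [MetricSpace X]
  [MulAction G X], Core U k X → ∀ (Z : Subgroup G) (x m : X), Arc U Z x m →
  ∃ m', m' ≠ x ∧ Btw x m' m ∧ ∀ p, Btw x p m' → p ≠ x → p ≠ m' → Thick U p x

/-- Row CLB. -/
def SCLB : Prop := ∀ (G : Type) [Group G] (U : Subgroup G) (k : ℕ) (X : Type) [MetricSpace X]
  [MulAction G X], Core U k X → ∀ (Z : Subgroup G) (x m : X), Arc U Z x m → ¬ Thick U x m →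
  (∀ p, Btw x p m → p ≠ x → p ≠ m → Thick U p x) → Nbr x m

/-- The isometric case. -/
def SNT : Prop := ∀ (G : Type) [Group G] (U : Subgroup G) (k : ℕ) (X : Type) [MetricSpace X]
  [MulAction G X], Core U k X → NTE U X

/-- Row NTW: passage to the subgroup that acts by isometries. -/
def SNTW : Prop := ∀ (G : Type) [Group G] (U Z : Subgroup G) [U.Normal] (k : ℕ) (X : Type)
  [MetricSpace X] [MulAction G X], FreeRk U k → U ≤ Z →
  (∃ s : Set G, s.Finite ∧ Z = Subgroup.closure s ⊔ U) →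
  (∀ z ∈ Z, ∀ x y : X, dist (z • x) (z • y) = dist x y) → VS U X → NTFin U X →
  (∀ g ∈ U, ∀ H : Subgroup G, H ≤ Z → (H ⊔ U).relIndex Z ≠ 0 → (∀ z ∈ H, Commute z g) →
    Ell X g) → NTE U X

/-- Row ARCS. -/
def SARCS : Prop := ∀ (G : Type) [Group G] (U : Subgroup G) (k : ℕ) (X : Type) [MetricSpace X]
  [MulAction G X], FreeRk U k → VS U X → Idx U X → ArcB U X

/-- Row FIXF. -/
def SFIXF : Prop := ∀ (G : Type) [Group G] (U : Subgroup G) (k : ℕ) (X : Type) [MetricSpace X]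
  [MulAction G X], FreeRk U k → VS U X → ArcB U X → FixF U X

/-- Row SEG. -/
def SSEG : Prop := ∀ (G : Type) [Group G] (U : Subgroup G) (X : Type) [MetricSpace X]
  [MulAction G X], VS U X → NTFin U X → NTE U X → ArcB U X → FixF U X → SegF U X

/-- Row SLW. -/
def SSLW : Prop := ∀ (G : Type) [Group G] (U : Subgroup G) (k : ℕ) (X : Type) [MetricSpace X]
  [MulAction G X], FreeRk U k → VS U X → Idx U X → SegF U X →
  ∃ (T : Type) (_ : MetricSpace T) (_ : IsSimp T) (_ : MulAction G T) (_ : IsIsometricSMul G T)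
    (e : X ≃ T), (∀ (g : G) x, e (g • x) = g • e x) ∧
    (∀ x y z, Btw (e x) (e y) (e z) ↔ Btw x y z) ∧ VS U T ∧ Cocpt U T ∧ NoInv T U

/-! ### The Dehn twist structure -/

section D

variable {G : Type} [Group G]

/-- The standing hypotheses. -/
structure Hyp0 (U : Subgroup G) (k : ℕ) (a : G) : Prop where
  nrm : U.Normal
  free : FreeRk U k
  two : 2 ≤ k
  cen : ∀ b, a * b * a⁻¹ * b⁻¹ ∈ U
  star : StarU U a

/-- A lift in `E` of a power of `a` centralises `U ⊓ E`. -/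
def FinO (U : Subgroup G) (a : G) (E : Subgroup G) : Prop :=
  ∃ M : ℕ, 0 < M ∧ ∃ b ∈ E, Lift U a M b ∧ ∀ u ∈ U ⊓ E, Commute b u

/-- `u * u'` is twisted along `z`. -/
def Tw (U : Subgroup G) (a u u' z : G) : Prop :=
  u ∈ U ∧ u' ∈ U ∧ z ∈ U ∧ ∃ M : ℕ, 0 < M ∧ ∃ b, Lift U a M b ∧ Commute b u ∧ Commute b z ∧
    Commute (z * b) u'

/-- Periodic through a lift in `E`. -/
def PerE (U : Subgroup G) (a : G) (E : Subgroup G) (g : G) : Prop :=
  ∃ M : ℕ, 0 < M ∧ ∃ b ∈ E, Lift U a M b ∧ Commute b g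

/-- The homomorphisms on `V` that kill the elements with the property `P`. -/
def invS (V : Subgroup G) (P : G → Prop) : Submodule ℚ (Q2T3.Hm V) where
  carrier := {l | ∀ g : V, P g → l (Additive.ofMul g) = 0}
  add_mem' := fun {l l'} h h' g hg => by
    rw [AddMonoidHom.add_apply, h g hg, h' g hg, add_zero]
  zero_mem' := fun _ _ => rfl
  smul_mem' := fun c l h g hg => by
    rw [AddMonoidHom.smul_apply, h g hg, smul_zero]

theorem mem_invS {V : Subgroup G} {P : G → Prop} {l : Q2T3.Hm V} :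
    l ∈ invS V P ↔ ∀ g : V, P g → l (Additive.ofMul g) = 0 := Iff.rfl

/-- The second complexity. -/
def dimI (V : Subgroup G) (P : G → Prop) : ℕ := Module.finrank ℚ (invS V P)

/-- The limit data. -/
structure Lim (U : Subgroup G) (k : ℕ) (a : G) (ι : FreeGroup (Fin k) →* G)
    (cj : G →* MulAut (FreeGroup (Fin k))) (b : ℕ → G) (μ : ℕ → ℕ) : Prop where
  inj : Function.Injective ι
  ran : ι.range = U
  cjs : ∀ g w, ι (cj g w) = g * ι w * g⁻¹
  lift : ∀ j, Lift U a j.factorial (b j)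
  base : ∀ j i, (cj (b j) (FreeGroup.of i)).norm ≤ μ j
  least : ∀ j u, ∃ i, μ j ≤ (u * cj (b j) (FreeGroup.of i) * u⁻¹).norm
  top : Tendsto μ atTop atTop

/-- The simplicial limit tree. -/
structure Pre (U : Subgroup G) (a : G) (T : Type) [MetricSpace T] [MulAction G T] (N : ℕ) :
    Prop where
  vs : VS U T
  co : Cocpt U T
  fg : ∀ x : T, (St U x).FG
  ninv : NoInv T U
  per : ∀ g ∈ U, Per U a g → Ell T g
  pos : 0 < N
  triv : ∀ x y : T, dist x y = 1 → ∃ b, Lift U a N b ∧ b • x = x ∧ b • y = y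
  grow : ∀ u u' z v v' t : G, Tw U a u u' z → Tw U a v v' t → ¬ Commute v t → ¬ Commute v' t →
    Ell T (v * v') → Ell T (u * u')

/-- What the induction uses about a vertex group `U ⊓ E`. -/
structure Good (U : Subgroup G) (a : G) (E : Subgroup G) : Prop where
  q1 : ∀ H : Subgroup G, H ≤ E → (H ⊔ U).FiniteIndex → (∀ h ∈ H, h ∈ U → h = 1) →
    ∀ b ∈ H, ∀ M : ℕ, Lift U a M b → (∀ h ∈ H, Commute b h) →
    ∃ m : ℕ, 0 < m ∧ ∃ g ∈ U ⊓ E, g ≠ 1 ∧ Commute (b ^ m) g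
  q2 : ∀ b ∈ E, ∀ M : ℕ, 0 < M → Lift U a M b → ∀ c ∈ E, MaxC U c → Commute b c →
    ∃ m : ℕ, 0 < m ∧ ∃ s : ℤ, ∃ u ∈ U ⊓ E, ¬ Commute u c ∧ Commute (c ^ s * b ^ m) u
  q3 : FinO U a E ∨ ∃ u ∈ E, ∃ u' ∈ E, ∃ z, Tw U a u u' z ∧ ¬ Commute u z ∧ ¬ Commute u' z

/-- All edge groups are non-trivial. -/
def AllE (U : Subgroup G) (T : Type) [MetricSpace T] [MulAction G T] : Prop :=
  ∀ x y : T, dist x y = 1 → ∃ g ∈ U, g ≠ 1 ∧ g • x = x ∧ g • y = y

/-- The vertex group is not abelian. -/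
def Nab (U : Subgroup G) {T : Type} [MulAction G T] (x : T) : Prop :=
  ∃ g ∈ St U x, ∃ h ∈ St U x, ¬ Commute g h

/-- The conclusion of the proposition. -/
def HasD (U : Subgroup G) (a : G) : Prop :=
  ∃ (T : Type) (_ : MetricSpace T) (_ : IsSimp T) (_ : MulAction G T) (_ : IsIsometricSMul G T),
    Dehn U a T

end D

/-- Row PT. -/
def SPT : Prop := ∀ (G : Type) [Group G] (U : Subgroup G) (k : ℕ) (a : G), Hyp0 U k a →
  FinO U a ⊤ → HasD U a

/-- Row SET. -/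
def SSET : Prop := ∀ (G : Type) [Group G] (U : Subgroup G) (k : ℕ) (a : G), Hyp0 U k a →
  ¬ FinO U a ⊤ → ∃ ι cj b μ, Lim U k a ι cj b μ

/-- Row UP: periodic classes have bounded length, twisted ones grow at most linearly. -/
def SUP : Prop := ∀ (G : Type) [Group G] (U : Subgroup G) (k : ℕ) (a : G) ι cj b μ, U.Normal →
  Lim U k a ι cj b μ →
  (∀ w, Per U a (ι w) → ∃ C : ℕ, ∀ᶠ j in atTop, cyc (cj (b j) w) ≤ C) ∧
  ∀ w u u' z, Tw U a u u' z → ι w = u * u' →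
    ∃ C : ℕ, ∀ᶠ j in atTop, cyc (cj (b j) w) ≤ C * j.factorial

/-- Row LOW: genuinely twisted classes grow linearly. -/
def SLOW : Prop := ∀ (G : Type) [Group G] (U : Subgroup G) (k : ℕ) (a : G) ι cj b μ, U.Normal →
  Lim U k a ι cj b μ → ∀ w u u' z, Tw U a u u' z → ¬ Commute u z → ¬ Commute u' z →
    ι w = u * u' → ∃ C : ℕ, ∀ᶠ j in atTop, j.factorial ≤ C * cyc (cj (b j) w)

/-- Row PRE. -/
def SPRE : Prop := ∀ (G : Type) [Group G] (U : Subgroup G) (k : ℕ) (a : G), Hyp0 U k a →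
  ¬ FinO U a ⊤ → ∃ (T : Type) (_ : MetricSpace T) (_ : IsSimp T) (_ : MulAction G T)
    (_ : IsIsometricSMul G T) (N : ℕ), Pre U a T N

/-- Row Q. -/
def SQ : Prop := ∀ (G : Type) [Group G] (U : Subgroup G) (k : ℕ) (a : G), Hyp0 U k a →
  HasD U a → Good U a ⊤

/-- Row TR1: the hypotheses pass to a subgroup `E`. -/
def STR1 : Prop := ∀ (G : Type) [Group G] (U : Subgroup G) (k : ℕ) (a : G) (E : Subgroup G)
  (N : ℕ) (al : E), Hyp0 U k a → (E ⊔ U).FiniteIndex → 0 < N → Lift U a N al → (U ⊓ E).FG →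
  (∃ g ∈ U ⊓ E, ∃ h ∈ U ⊓ E, ¬ Commute g h) →
  Hyp0 (U.subgroupOf E) (Q2T3.rk (U ⊓ E : Subgroup G)) al ∧
    dimI (U.subgroupOf E) (Per (U.subgroupOf E) al) = dimI (U ⊓ E) (PerE U a E)

/-- Row TR2: the conclusions come back from `E`. -/
def STR2 : Prop := ∀ (G : Type) [Group G] (U : Subgroup G) (a : G) (E : Subgroup G)
  (N : ℕ) (al : E), U.Normal → 0 < N → Lift U a N al → Good (U.subgroupOf E) al ⊤ → Good U a E

/-- Row NAB. -/
def SNAB : Prop := ∀ (G : Type) [Group G] (U : Subgroup G) (k : ℕ) (T : Type) [MetricSpace T]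
  [IsSimp T] [MulAction G T], FreeRk U k → VS U T → AllE U T → ∀ x : T, Nab U x

/-- Row CX. -/
def SCX : Prop := ∀ (G : Type) [Group G] (U : Subgroup G) (k : ℕ) (T : Type) [MetricSpace T]
  [IsSimp T] [MulAction G T] [IsIsometricSMul G T], FreeRk U k → 2 ≤ k → VS U T → Cocpt U T →
  NoInv T U → (∀ x : T, (St U x).FG) → (AllE U T → ∀ x : T, Nab U x) → ∀ v : T,
  Q2T3.rk (St U v) < k ∨ (Q2T3.rk (St U v) = k ∧ AllE U T ∧ ∀ x : T, ∃ g ∈ U, g • v = x)

/-- Row INV. -/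
def SINV : Prop := ∀ (G : Type) [Group G] (U : Subgroup G) (k : ℕ) (a : G) (T : Type)
  [MetricSpace T] [IsSimp T] [MulAction G T] [IsIsometricSMul G T] (N : ℕ), Hyp0 U k a →
  Pre U a T N → AllE U T → ∀ v : T, (∀ x : T, ∃ g ∈ U, g • v = x) →
  dimI (St U v) (PerE U a (MulAction.stabilizer G v)) < dimI U (Per U a)

/-- Row SIDE. -/
def SSIDE : Prop := ∀ (G : Type) [Group G] (U : Subgroup G) (k : ℕ) (a : G) (T : Type)
  [MetricSpace T] [IsSimp T] [MulAction G T] [IsIsometricSMul G T] (N : ℕ), Hyp0 U k a →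
  Pre U a T N → (∀ v : T, Nab U v → Good U a (MulAction.stabilizer G v)) →
  ∀ (x y : T) (b : G), dist x y = 1 → (∀ g ∈ U, g • x = x → g • y = y → g = 1) →
  Lift U a N b → b • x = x → b • y = y → (∃ g ∈ U, g ≠ 1 ∧ g • x = x) →
  ∃ m : ℕ, 0 < m ∧ ∃ g ∈ U, g ≠ 1 ∧ g • x = x ∧ Commute (b ^ m) g

/-- Row WALK. -/
def SWALK : Prop := ∀ (G : Type) [Group G] (U : Subgroup G) (k : ℕ) (a : G) (T : Type)
  [MetricSpace T] [IsSimp T] [MulAction G T] [IsIsometricSMul G T] (N : ℕ), Hyp0 U k a →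
  Pre U a T N → ∀ (x y : T) (b : G), dist x y = 1 → (∀ g ∈ U, g • x = x → g • y = y → g = 1) →
  Lift U a N b → b • x = x → b • y = y →
  ∃ x' y' : T, dist x' y' = 1 ∧ (∀ g ∈ U, g • x' = x' → g • y' = y' → g = 1) ∧ b • x' = x' ∧
    b • y' = y' ∧ Btw x' x y ∧ ∃ g ∈ U, g ≠ 1 ∧ g • x' = x'

/-- Row NOT. -/
def SNOT : Prop := ∀ (G : Type) [Group G] (U : Subgroup G) (k : ℕ) (a : G) (T : Type)
  [MetricSpace T] [IsSimp T] [MulAction G T] [IsIsometricSMul G T] (N : ℕ), Hyp0 U k a →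
  Pre U a T N → (∀ v : T, Nab U v → Good U a (MulAction.stabilizer G v)) → AllE U T

/-- Row FIN. -/
def SFIN : Prop := ∀ (G : Type) [Group G] (U : Subgroup G) (k : ℕ) (a : G) (T : Type)
  [MetricSpace T] [IsSimp T] [MulAction G T] [IsIsometricSMul G T] (N : ℕ), Hyp0 U k a →
  Pre U a T N → AllE U T → (∀ v : T, Good U a (MulAction.stabilizer G v)) →
  ∀ v : T, FinO U a (MulAction.stabilizer G v)

/-- Row END. -/
def SEND : Prop := ∀ (G : Type) [Group G] (U : Subgroup G) (k : ℕ) (a : G) (T : Type)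
  [MetricSpace T] [IsSimp T] [MulAction G T] [IsIsometricSMul G T] (N : ℕ), Hyp0 U k a →
  Pre U a T N → AllE U T → (∀ v : T, Nab U v) →
  (∀ v : T, FinO U a (MulAction.stabilizer G v)) → Dehn U a T

/-! ### The rows -/

def OfLibA : Prop := LibA
def OfLibT : Prop := LibA → LibT
def OfNTF : Prop := SNTF
def OfARC : Prop := LibA → LibT → SARC
def OfCLA : Prop := LibA → LibT → SCLA
def OfCLB : Prop := LibA → LibT → SCLB
def OfNTW : Prop := LibA → LibT → SNT → SNTW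
def OfARCS : Prop := LibA → LibT → SARCS
def OfFIXF : Prop := LibA → LibT → SFIXF
def OfSEG : Prop := LibA → LibT → SSEG
def OfSLW : Prop := LibA → LibT → SNbr → SSLW
def OfPT : Prop := LibA → SPT
def OfSET : Prop := LibA → SSET
def OfUP : Prop := LibA → SUP
def OfLOW : Prop := LibA → SLOW
def OfPRE : Prop :=
  LibA → LibT → LimD → IndexL → IsoL → SimpL → SFI → SSET → SUP → SLOW → SPRE
def OfQ : Prop := LibA → LibT → SQ
def OfTR1 : Prop := LibA → STR1
def OfTR2 : Prop := LibA → STR2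
def OfNAB : Prop := LibA → LibT → SNAB
def OfCX : Prop := LibA → LibT → SCX
def OfINV : Prop := LibA → LibT → SINV
def OfSIDE : Prop := LibA → LibT → SSIDE
def OfWALK : Prop := LibA → LibT → SWALK
def OfNOT : Prop := LibA → LibT → SSIDE → SWALK → SNOT
def OfFIN : Prop := LibA → LibT → SFIN
def OfEND : Prop := LibA → LibT → SEND

end

end Pool.Agent.MP_3ce0a0_al.Q2T7
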